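import Pool.Agent.K9h32.SM.StmA
import Pool.Agent.K9h32.SP.FRC

/-!
# Leaf M-FRC: the force in the coordinates `y = M x`

From leaf FRC of `SP` for `cp p • A` in the coordinates `x = W y`.
-/

set_option autoImplicit false

open Set Filter Topology
open scoped ContDiff

noncomputable section

namespace Pool.Agent.K9h32.SM

open Pool.Agent.N980.TL
open Pool.Agent.K9h32.SP (Sol bt Chi UHd S_UH2 S_GLOB S_TIM)

namespace FRC

variable {n N : ℕ} [Lat n]

/-- the transposed map `v ↦ Wᵀ v` -/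
def wt (v : E n) : E n := fun i => ∑ l, Lat.W l i * v l

theorem dot_tox (f : Fin n → ℤ) (y : E n) : SP.dot f (tox y) = dot f y := by
  rw [dot_eq_tox]
  rfl

theorem wt_rv (p : Fin n → ℤ) : wt (SP.rv p) = rv p := rfl

theorem wt_add (u v : E n) : wt (u + v) = wt u + wt v := by
  funext i
  simp only [wt, Pi.add_apply, mul_add, Finset.sum_add_distrib]

theorem wt_sub (u v : E n) : wt (u - v) = wt u - wt v := by
  funext i
  simp only [wt, Pi.sub_apply, mul_sub, Finset.sum_sub_distrib]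

theorem wt_smul (c : ℝ) (v : E n) : wt (c • v) = c • wt v := by
  funext i
  simp only [wt, Pi.smul_apply, smul_eq_mul, Finset.mul_sum]
  exact Finset.sum_congr rfl fun l _ => by ring

theorem tox_sub (u v : E n) : tox (u - v) = tox u - tox v := by
  funext i
  simp only [tox, Pi.sub_apply, mul_sub, Finset.sum_sub_distrib]

theorem wt_cont : Continuous (fun v : E n => wt v) := by
  unfold wt
  fun_prop

theorem tox_cont : Continuous (fun v : E n => tox v) := by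
  unfold tox
  fun_prop

/-- the bound of both maps -/
def KW (n : ℕ) [Lat n] : ℝ := ∑ i : Fin n, ∑ l : Fin n, (|Lat.W l i| + |Lat.W i l|)

theorem KW_nonneg : 0 ≤ KW n :=
  Finset.sum_nonneg fun i _ => Finset.sum_nonneg fun l _ => by positivity

theorem wt_le (v : E n) : ‖wt v‖ ≤ KW n * ‖v‖ := by
  refine (pi_norm_le_iff_of_nonneg (mul_nonneg KW_nonneg (norm_nonneg _))).2 fun i => ?_
  unfold wt
  refine (norm_sum_le _ _).trans ?_
  have h1 : ∀ l ∈ Finset.univ, ‖Lat.W l i * v l‖ ≤ (|Lat.W l i| + |Lat.W i l|) * ‖v‖ := fun l _ => by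
    rw [norm_mul, Real.norm_eq_abs]
    have h2 := norm_le_pi_norm v l
    exact mul_le_mul (le_add_of_nonneg_right (abs_nonneg _)) h2 (norm_nonneg _) (by positivity)
  refine (Finset.sum_le_sum h1).trans ?_
  rw [← Finset.sum_mul]
  refine mul_le_mul_of_nonneg_right ?_ (norm_nonneg _)
  exact Finset.single_le_sum (f := fun i : Fin n => ∑ l : Fin n, (|Lat.W l i| + |Lat.W i l|))
    (fun i _ => Finset.sum_nonneg fun l _ => by positivity) (Finset.mem_univ i)

theorem tox_le (v : E n) : ‖tox v‖ ≤ KW n * ‖v‖ := by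
  refine (pi_norm_le_iff_of_nonneg (mul_nonneg KW_nonneg (norm_nonneg _))).2 fun i => ?_
  unfold tox
  refine (norm_sum_le _ _).trans ?_
  have h1 : ∀ l ∈ Finset.univ, ‖Lat.W i l * v l‖ ≤ (|Lat.W l i| + |Lat.W i l|) * ‖v‖ := fun l _ => by
    rw [norm_mul, Real.norm_eq_abs]
    have h2 := norm_le_pi_norm v l
    exact mul_le_mul (le_add_of_nonneg_left (abs_nonneg _)) h2 (norm_nonneg _) (by positivity)
  refine (Finset.sum_le_sum h1).trans ?_
  rw [← Finset.sum_mul]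
  refine mul_le_mul_of_nonneg_right ?_ (norm_nonneg _)
  exact Finset.single_le_sum (f := fun i : Fin n => ∑ l : Fin n, (|Lat.W l i| + |Lat.W i l|))
    (fun i _ => Finset.sum_nonneg fun l _ => by positivity) (Finset.mem_univ i)

theorem phs_tox (q : Fin n → ℤ) (j : Fin 3) (y : E n) : SP.phs q j (tox y) = phs q j y := by
  unfold SP.phs phs
  rw [dot_tox]

theorem gfc_eq (p q : Fin n → ℤ) (χ : Fin 3 → ℝ → ℝ) (b : ℝ → ℝ) (y : E n) (t : ℝ) :
    wt (SP.gfc p q χ b (tox y) t) = gfc p q χ b y t := by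
  unfold SP.gfc gfc
  rw [wt_sub, wt_smul, wt_smul, wt_rv, wt_rv]
  simp only [dot_tox, phs_tox]

theorem sF_eq {p : Fin n → ℤ} (hp : SP.dot p (SP.rv p) ≠ 0) (A : ℝ → ℝ → ℝ) (y : E n) (t : ℝ) :
    wt (SP.sF p (fun s t => cp p * A s t) (tox y) t) = sF p A y t := by
  unfold SP.sF sF
  rw [wt_smul, wt_rv, dot_tox]
  congr 1
  have h1 : SP.ds (fun s t => cp p * A s t) (dot p y) t = cp p * ds A (dot p y) t := by
    unfold SP.ds ds
    rw [deriv_const_mul_field]
  rw [h1]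
  unfold cp
  field_simp

theorem frc_eq {p : Fin n → ℤ} (hp : SP.dot p (SP.rv p) ≠ 0) (D : Trig n N) (q : Fin n → ℤ) (A : ℝ → ℝ → ℝ)
    (χ : Fin 3 → ℝ → ℝ) (b : ℝ → ℝ) (δ : ℝ) (y : E n) (t : ℝ) :
    wt (SP.Frc D p q (fun s t => cp p * A s t) χ b δ (tox y) t) = Frc D p q A χ b δ y t := by
  unfold SP.Frc Frc
  rw [wt_add, wt_add, wt_smul, sF_eq hp, gfc_eq]
  rfl

theorem rv_ne_zero {p : Fin n → ℤ} (hp : 1 ≤ ‖rv p‖) : p ≠ 0 := by
  rintro rfl
  rw [rv_zero, norm_zero] at hp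
  linarith

theorem cont_aux {D : Trig n N} {p q : Fin n → ℤ} {A : ℝ → ℝ → ℝ}
    {χ : Fin 3 → ℝ → ℝ} {b : ℝ → ℝ} {δ : ℝ}
    (h2 : Continuous (fun z : E n × ℝ => SP.Frc D p q A χ b δ z.1 z.2)) :
    Continuous (fun z : E n × ℝ => wt (SP.Frc D p q A χ b δ (tox z.1) z.2)) := by
  have h6 : Continuous (fun z : E n × ℝ => ((tox z.1, z.2) : E n × ℝ)) :=
    (tox_cont.comp continuous_fst).prodMk continuous_snd
  have h7 := h2.comp h6
  have h8 := wt_cont.comp h7
  exact h8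

/-- **Leaf M-FRC.** -/
theorem t : S_FRC := by
  intro n N _ D p q A χ b hp1 hA hχ hb hbp
  have hp : p ≠ 0 := rv_ne_zero hp1
  have hpp : SP.dot p (SP.rv p) ≠ 0 := by
    have := SP.pp_pos hp
    linarith
  have hA' : SP.SP2 (fun s t => cp p * A s t) :=
    ⟨contDiff_const.mul hA.1, fun s t m l => by simp only [hA.2]⟩
  obtain ⟨⟨C, hC, hC'⟩, H⟩ := SP.FRC.t n N D p q (fun s t => cp p * A s t) χ b hp hA' hχ hb hbp
  refine ⟨⟨KW n * C, mul_nonneg KW_nonneg hC, fun y t => ?_⟩, fun δ => ?_⟩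
  · rw [← gfc_eq]
    exact (wt_le _).trans (mul_le_mul_of_nonneg_left (hC' _ _) KW_nonneg)
  obtain ⟨h1, h2, ⟨C2, hC2, h3⟩, ⟨L, hL, h4⟩, h5⟩ := H δ
  refine ⟨fun y t i => ?_, ?_, ⟨KW n * C2, mul_nonneg KW_nonneg hC2, fun y t => ?_⟩,
    ⟨KW n * (L * KW n), mul_nonneg KW_nonneg (mul_nonneg hL KW_nonneg), fun x y t => ?_⟩,
    fun y t l => ?_⟩
  · rw [h1, ← frc_eq hpp]
    rfl
  · have e : (fun z : E n × ℝ => Frc D p q A χ b δ z.1 z.2) = fun z : E n × ℝ =>
        wt (SP.Frc D p q (fun s t => cp p * A s t) χ b δ (tox z.1) z.2) := by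
      funext z
      rw [frc_eq hpp]
    rw [e]
    exact cont_aux h2
  · rw [← frc_eq hpp]
    exact (wt_le _).trans (mul_le_mul_of_nonneg_left (h3 _ _) KW_nonneg)
  · rw [← frc_eq hpp, ← frc_eq hpp, ← wt_sub]
    refine (wt_le _).trans ?_
    rw [mul_assoc]
    refine mul_le_mul_of_nonneg_left ?_ KW_nonneg
    refine (h4 _ _ _).trans ?_
    rw [mul_assoc]
    refine mul_le_mul_of_nonneg_left ?_ hL
    rw [← tox_sub]
    exact tox_le _
  · rw [← frc_eq hpp, ← frc_eq hpp, h5]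

end FRC

end Pool.Agent.K9h32.SM
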