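import Pool.Agent.K9h32.SM.AllSM
import Pool.Agent.K9h32.SM.FRC
import Pool.Agent.K9h32.SM.HJK

/-!
# The final theorems
-/

set_option autoImplicit false

open Set Filter Topology
open scoped ContDiff

noncomputable section

namespace Pool.Agent.K9h32.SM

open Pool.Agent.N980.TL Pool.Agent.K9h32.HJ

theorem fin_all : ∀ (n k : ℕ), 2 ≤ n → 2 ≤ k →
    ∀ (B : Matrix (Fin n) (Fin n) ℝ), B.PosDef → ∀ (R : ℝ)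
    (L : (Fin n → ℝ) → (Fin n → ℝ) → ℝ → ℝ) (f₀ : (Fin n → ℝ) → ℝ → ℝ), PotK k f₀ →
    (∀ x v t, R ≤ ‖v‖ → L x v t = (∑ i, ∑ j, B i j * v i * v j) / 2 + f₀ x t) →
    ∀ f₁ : (Fin n → ℝ) → ℝ → ℝ, PotK k f₁ → ∀ u : Fin n → ℝ, u ≠ 0 → ∀ ε : ℝ, 0 < ε →
    ∃ (f : (Fin n → ℝ) → ℝ → ℝ) (γ : ℝ → Fin n → ℝ) (c : ℝ), PotK k f ∧ CloseK k ε f₁ f ∧ 0 < c ∧
      (∀ t, 0 ≤ t → c * t ^ (1 / ((k : ℝ) + 3)) ≤ ‖deriv γ t‖) ∧ (∀ t, 0 ≤ t → R < ‖deriv γ t‖) ∧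
      (∀ t, 0 ≤ t → ‖(‖deriv γ t‖⁻¹) • deriv γ t - (‖u‖⁻¹) • u‖ ≤ ε) ∧
      ∀ t, 0 < t → EulerLagrange (fun x v t => L x v t + f x t) γ t :=
  all_of FRC.t HJK.t

theorem gen_all (n k : ℕ) (hn : 2 ≤ n) (hk : 2 ≤ k) (B : Matrix (Fin n) (Fin n) ℝ) (hB : B.PosDef) (R : ℝ)
    (L : (Fin n → ℝ) → (Fin n → ℝ) → ℝ → ℝ) (f₀ : (Fin n → ℝ) → ℝ → ℝ) (hf₀ : PotK k f₀)
    (hL : ∀ x v t, R ≤ ‖v‖ → L x v t = (∑ i, ∑ j, B i j * v i * v j) / 2 + f₀ x t) (φ : ℝ → ℝ) :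
    ∃ O : ℕ → Set ((Fin n → ℝ) → ℝ → ℝ), (∀ m, OpenDenseK k (O m)) ∧
      ∀ f, (∀ m, f ∈ O m) → ∀ (K : ℝ) (u : Fin n → ℝ) (ε : ℝ), u ≠ 0 → 0 < ε →
        ∃ (γ : ℝ → Fin n → ℝ) (t0 t1 : ℝ), t0 < t1 ∧
        (∀ t ∈ Icc t0 t1, EulerLagrange (fun x v t => L x v t + f x t) γ t) ∧
        (∀ t ∈ Icc t0 t1, K ≤ ‖deriv γ t‖ ∧ ‖(‖deriv γ t‖⁻¹) • deriv γ t - (‖u‖⁻¹) • u‖ ≤ ε) ∧
        φ ‖deriv γ t0‖ < ‖deriv γ t1‖ ∧ t1 - t0 ≤ ‖deriv γ t1‖ ^ ((k : ℝ) + 3 + ε) := by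
  have hu' : IsUnit B.det := isUnit_iff_ne_zero.2 hB.det_pos.ne'
  have h1 : B * B⁻¹ = 1 := Matrix.mul_nonsing_inv B hu'
  refine gent_all k n hk (fun i j => B i j) (fun i j => B⁻¹ i j) (fun i j => ?_) (fun i j => ?_) R L f₀ hf₀ hL
    (fun f₁ hf₁ u hu ε hε => fin_all n k hn hk B hB R L f₀ hf₀ hL f₁ hf₁ u hu ε hε) φ
  · have h := hB.isHermitian.apply i j
    simpa using h.symm
  · have h2 := congrFun (congrFun h1 i) j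
    rw [Matrix.mul_apply, Matrix.one_apply] at h2
    exact h2

end Pool.Agent.K9h32.SM
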