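import Pool.Agent.K9h32.SM.StmA
import Pool.Agent.K9h32.HJ.FinA
import Pool.Agent.K9h32.HJ.DensK

/-!
# Leaf M-FIN: the assembly (all flat metrics)
-/

set_option autoImplicit false

open Set Filter Topology
open scoped ContDiff

noncomputable section

namespace Pool.Agent.K9h32.SM

open Pool.Agent.N980.TL Pool.Agent.K9h32.HJ

namespace Fin3

section
open scoped MatrixOrder

/-- a positive definite matrix is `M^T M` -/
theorem fac {n : ℕ} {B : Matrix (Fin n) (Fin n) ℝ} (hB : B.PosDef) :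
    ∃ M : Matrix (Fin n) (Fin n) ℝ, B = M.transpose * M := by
  obtain ⟨M, hM⟩ := CStarAlgebra.nonneg_iff_eq_star_mul_self.mp hB.posSemidef.nonneg
  refine ⟨M, ?_⟩
  rw [hM, Matrix.star_eq_conjTranspose, Matrix.conjTranspose_eq_transpose_of_trivial]

end

/-- **Leaf M-FIN.** -/
theorem t : S_FIN := by
  intro hMain n k hn hk B hB R L f₀ hf₀ hL f₁ hf₁ u hu ε hε
  obtain ⟨M, hM⟩ := fac hB
  have hdetB : B.det ≠ 0 := hB.det_pos.ne'
  have hdet : IsUnit M.det := by
    rw [isUnit_iff_ne_zero]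
    intro h
    apply hdetB
    rw [hM, Matrix.det_mul, h, mul_zero]
  obtain ⟨W, hW⟩ : ∃ W, W = M⁻¹ := ⟨_, rfl⟩
  have hMW : M * W = 1 := by rw [hW]; exact Matrix.mul_nonsing_inv M hdet
  have hWM : W * M = 1 := by rw [hW]; exact Matrix.nonsing_inv_mul M hdet
  let hlat : Lat n := ⟨fun i j => M i j, fun i j => W i j,
    fun i j => by
      have h := congrFun (congrFun hMW i) j
      rwa [Matrix.mul_apply, Matrix.one_apply] at h,
    fun i j => by
      have h := congrFun (congrFun hWM i) j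
      rwa [Matrix.mul_apply, Matrix.one_apply] at h⟩
  obtain ⟨Q, hQ⟩ : ∃ Q : Fin n → Fin n → ℝ, Q = fun i j => ∑ l, W i l * W j l := ⟨_, rfl⟩
  have hBs : ∀ i j, B i j = B j i := fun i j => by
    have h := hB.isHermitian.apply i j
    simpa using h.symm
  have hBQ : ∀ i j, ∑ l, B i l * Q l j = if i = j then 1 else 0 := by
    intro i j
    have h1 : B * (W * W.transpose) = 1 := by
      rw [hM, ← mul_assoc, mul_assoc M.transpose M W, hMW, mul_one, ← Matrix.transpose_mul, hWM,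
        Matrix.transpose_one]
    have h := congrFun (congrFun h1 i) j
    rw [Matrix.mul_apply, Matrix.one_apply] at h
    rw [← h, hQ]
    refine Finset.sum_congr rfl fun l _ => ?_
    rw [Matrix.mul_apply]
    rfl
  have hs : ContDiff ℝ k (fun q : Z n => f₀ q.1 q.2 + f₁ q.1 q.2) := hf₀.1.add hf₁.1
  have hp : ∀ (x : Fin n → ℝ) (t : ℝ) (a : Fin n → ℤ) (l : ℤ),
      (fun q : Z n => f₀ q.1 q.2 + f₁ q.1 q.2) (fun i => x i + a i, t + l) =
        (fun q : Z n => f₀ q.1 q.2 + f₁ q.1 q.2) (x, t) := by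
    intro x t a l
    show f₀ _ _ + f₁ _ _ = _
    rw [hf₀.2 x t a l, hf₁.2 x t a l]
  obtain ⟨N, D, hD⟩ := densk_all k n _ hs hp (ε / 2) (by positivity)
  obtain ⟨F, γ, γ', c, hc, hFs, hFp, hFb, hv, hE⟩ := hMain n k hn hk N D u hu (ε / 2) (|R| + 1) ε
    (by positivity) hε
  have hDs : ContDiff ℝ k (fun q : Z n => D.val q.1 q.2) := (val_smooth D).of_le (by exact_mod_cast le_top)
  have hder : ∀ t, deriv γ t = γ' t := fun t => (hE t).1.deriv
  have hR : ∀ t, 0 ≤ t → R < ‖deriv γ t‖ := by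
    intro t ht
    rw [hder]
    have h1 := (hv t ht).1
    have h2 := le_abs_self R
    linarith
  obtain ⟨G, hG⟩ : ∃ G : (Fin n → ℝ) → ℝ → ℝ, G = fun x t => D.val x t + F (x, t) := ⟨_, rfl⟩
  have hGs : ContDiff ℝ k (fun q : Z n => G q.1 q.2) := by
    rw [hG]
    exact hDs.add hFs
  have hGs2 : ContDiff ℝ 2 (fun q : Z n => G q.1 q.2) := hGs.of_le (by exact_mod_cast hk)
  refine ⟨fun x t => G x t - f₀ x t, γ, c, ⟨hGs.sub hf₀.1, fun x t a l => ?_⟩, ?_, hc, fun t ht => ?_, hR,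
    fun t ht => ?_, fun t ht => ?_⟩
  · show G _ _ - f₀ _ _ = _
    rw [hf₀.2 x t a l, hG]
    have e1 := val_periodic D x t a l
    have e2 := hFp x t a l
    simp only at e2 ⊢
    rw [e1, e2]
  · intro i hi q
    have hi' : ((i : ℕ) : WithTop ℕ∞) ≤ k := by exact_mod_cast hi
    have s1 : ContDiffAt ℝ i (fun q : Z n => -((f₀ q.1 q.2 + f₁ q.1 q.2) - D.val q.1 q.2)) q :=
      (((hs.sub hDs).neg).of_le hi').contDiffAt
    have s2 : ContDiffAt ℝ i F q := (hFs.of_le hi').contDiffAt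
    have e2 : (fun q : Z n => (G q.1 q.2 - f₀ q.1 q.2) - f₁ q.1 q.2) =
        fun q => -((f₀ q.1 q.2 + f₁ q.1 q.2) - D.val q.1 q.2) + F q := by
      funext q
      rw [hG]
      ring
    show ‖iteratedFDeriv ℝ i (fun q : Z n => (G q.1 q.2 - f₀ q.1 q.2) - f₁ q.1 q.2) q‖ ≤ ε
    rw [e2, fun_iteratedFDeriv_add_apply s1 s2]
    have h3 : ε = ε / 2 + ε / 2 := by ring
    rw [h3]
    refine (norm_add_le _ _).trans (add_le_add ?_ (hFb i hi q))
    have e5 : (fun q : Z n => -((f₀ q.1 q.2 + f₁ q.1 q.2) - D.val q.1 q.2)) =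
        -(fun q : Z n => (f₀ q.1 q.2 + f₁ q.1 q.2) - D.val q.1 q.2) := rfl
    rw [e5, iteratedFDeriv_neg_apply, norm_neg]
    exact hD i hi q
  · rw [hder]
    exact (hv t ht).2.1
  · rw [hder]
    exact (hv t ht).2.2
  · have hEG : EulerLagrange (LagB (fun i j => B i j) G) γ t := by
      refine (Gq.el_B (B := fun i j => B i j) (Q := Q) hBs hBQ hGs2).2 γ γ' t
        (Filter.Eventually.of_forall fun s => (hE s).1) ?_
      have h1 := (hE t).2
      rw [hG, hQ]
      exact h1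
    refine Fn.loc (L' := LagB (fun i j => B i j) G) (R := R) (fun x v t hv => ?_) ?_ hEG
    · rw [hL x v t hv]
      unfold LagB
      ring
    · filter_upwards [lt_mem_nhds ht] with s hs'
      exact hR s hs'.le

end Fin3

end Pool.Agent.K9h32.SM
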