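import Pool.Agent.K9h32.HJ.GenK

/-!
# Genericity in `C^k`, with polynomial bounds on the time
-/

set_option autoImplicit false

open Set Filter Topology
open scoped ContDiff

noncomputable section

namespace Pool.Agent.K9h32.SM

open Pool.Agent.N980.TL Pool.Agent.K9h32.HJ

variable {n : ℕ}

/-- density of the potentials with an orbit which tends to infinity in a direction close to `u`, with the growth
`c t^(1/(k+3))` -/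
def DenseT (k : ℕ) {n : ℕ} (R : ℝ) (L : (Fin n → ℝ) → (Fin n → ℝ) → ℝ → ℝ) : Prop :=
  ∀ f₁ : (Fin n → ℝ) → ℝ → ℝ, PotK k f₁ → ∀ u : Fin n → ℝ, u ≠ 0 → ∀ ε : ℝ, 0 < ε →
    ∃ (f : (Fin n → ℝ) → ℝ → ℝ) (γ : ℝ → Fin n → ℝ) (c : ℝ), PotK k f ∧ CloseK k ε f₁ f ∧ 0 < c ∧
      (∀ t, 0 ≤ t → c * t ^ (1 / ((k : ℝ) + 3)) ≤ ‖deriv γ t‖) ∧ (∀ t, 0 ≤ t → R < ‖deriv γ t‖) ∧
      (∀ t, 0 ≤ t → ‖(‖deriv γ t‖⁻¹) • deriv γ t - (‖u‖⁻¹) • u‖ ≤ ε) ∧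
      ∀ t, 0 < t → EulerLagrange (fun x v t => L x v t + f x t) γ t

/-- the set of potentials -/
def Gt (k : ℕ) (B : Fin n → Fin n → ℝ) (f₀ : (Fin n → ℝ) → ℝ → ℝ) (φ : ℝ → ℝ) (w : Fin n → ℝ) (ρ m : ℝ) :
    Set ((Fin n → ℝ) → ℝ → ℝ) :=
  {f | PotK k f ∧ ∃ (γ : ℝ → Fin n → ℝ) (t0 t1 : ℝ), t0 < t1 ∧
    (∀ t ∈ Icc t0 t1, EulerLagrange (LagB B (fun x t => f₀ x t + f x t)) γ t) ∧
    (∃ μ > 0, ∀ t ∈ Icc t0 t1, m + μ ≤ ‖deriv γ t‖ ∧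
      ‖(‖deriv γ t‖⁻¹) • deriv γ t - (‖w‖⁻¹) • w‖ + μ ≤ ρ) ∧ φ ‖deriv γ t0‖ < ‖deriv γ t1‖ ∧
      t1 - t0 < ‖deriv γ t1‖ ^ ((k : ℝ) + 3 + ρ)}

theorem open_Gt {k : ℕ} (hk : 2 ≤ k) {B Q : Fin n → Fin n → ℝ} (hB : ∀ i j, B i j = B j i)
    (hBQ : ∀ i k, ∑ j, B i j * Q j k = if i = k then 1 else 0) {f₀ : (Fin n → ℝ) → ℝ → ℝ} (hf₀ : PotK k f₀)
    (φ : ℝ → ℝ) (w : Fin n → ℝ) {ρ m : ℝ} (hm1 : 1 ≤ m) :
    ∀ f ∈ Gt k B f₀ φ w ρ m, PotK k f ∧ ∃ η > 0, ∀ g, PotK k g → CloseK k η f g → g ∈ Gt k B f₀ φ w ρ m := by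
  rintro f ⟨hf, γ, t0, t1, h01, hE, ⟨μ0, hμ0, hm⟩, hφ, hT⟩
  refine ⟨hf, ?_⟩
  have h1m : t1 ∈ Icc t0 t1 := ⟨h01.le, le_rfl⟩
  have hpos : 0 < ‖deriv γ t1‖ := by linarith [(hm t1 h1m).1]
  -- the time
  obtain ⟨μ5, hμ5, hμ5'⟩ : ∃ μ5 > 0, ∀ y : ℝ, |y - ‖deriv γ t1‖| ≤ μ5 → t1 - t0 < y ^ ((k : ℝ) + 3 + ρ) := by
    have hc : ContinuousAt (fun y : ℝ => y ^ ((k : ℝ) + 3 + ρ)) ‖deriv γ t1‖ :=
      Real.continuousAt_rpow_const _ _ (Or.inl hpos.ne')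
    obtain ⟨r, hr, hr'⟩ := Metric.eventually_nhds_iff.1 (hc.eventually (lt_mem_nhds hT))
    refine ⟨r / 2, by positivity, fun y hy => hr' ?_⟩
    rw [Real.dist_eq]
    linarith
  obtain ⟨μ, hμ⟩ : ∃ μ, μ = min μ5 (min (min (μ0 / 4) (1 / 2)) ((‖deriv γ t1‖ - φ ‖deriv γ t0‖) / 2)) := ⟨_, rfl⟩
  have hμp : 0 < μ := by
    rw [hμ]
    exact lt_min hμ5 (lt_min (lt_min (by positivity) (by norm_num)) (by linarith))
  have hμ0' : μ ≤ μ5 := by rw [hμ]; exact min_le_left _ _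
  have hμ1 : μ ≤ μ0 / 4 := by
    rw [hμ]; exact (min_le_right _ _).trans ((min_le_left _ _).trans (min_le_left _ _))
  have hμ2 : μ ≤ 1 / 2 := by rw [hμ]; exact (min_le_right _ _).trans ((min_le_left _ _).trans (min_le_right _ _))
  have hμ3 : μ ≤ (‖deriv γ t1‖ - φ ‖deriv γ t0‖) / 2 := by
    rw [hμ]; exact (min_le_right _ _).trans (min_le_right _ _)
  obtain ⟨η, hη, hcore⟩ := Gk.core hB hBQ (Gk.PotK.pot hk (Gk.PotK.add hf₀ hf)) h01 hE hμp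
  refine ⟨η, hη, fun g hg hfg => ⟨hg, ?_⟩⟩
  obtain ⟨x, hxE, hx0, hxd⟩ := hcore _ (Gk.PotK.pot hk (Gk.PotK.add hf₀ hg)) (fun i hi q => by
    have h1 := hfg i (hi.trans hk) q
    have e : (fun q : (Fin n → ℝ) × ℝ => (f₀ q.1 q.2 + g q.1 q.2) - (f₀ q.1 q.2 + f q.1 q.2)) =
        fun q => g q.1 q.2 - f q.1 q.2 := by
      funext q; ring
    show ‖iteratedFDeriv ℝ i (fun q : (Fin n → ℝ) × ℝ => (f₀ q.1 q.2 + g q.1 q.2) -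
      (f₀ q.1 q.2 + f q.1 q.2)) q‖ ≤ η
    rw [e]
    exact h1)
  refine ⟨x, t0, t1, h01, hxE, ⟨μ0 / 2, by positivity, fun t ht => ?_⟩, ?_, ?_⟩
  · obtain ⟨a1, a2⟩ := hm t ht
    have h1 : 1 ≤ ‖deriv γ t‖ := by linarith
    have h2 := Fn.dir_close (v := deriv x t) (y := deriv γ t) (Ω := 1) (η := μ) one_pos hμ2 h1
      (by rw [one_smul, mul_one]; exact hxd t ht)
    have h3 : ‖deriv γ t‖ - μ ≤ ‖deriv x t‖ := by
      have h4 := norm_sub_norm_le (deriv γ t) (deriv x t)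
      rw [norm_sub_rev] at h4
      linarith [hxd t ht]
    refine ⟨by linarith, ?_⟩
    have e : (‖deriv x t‖⁻¹) • deriv x t - (‖w‖⁻¹) • w =
        ((‖deriv x t‖⁻¹) • deriv x t - (‖deriv γ t‖⁻¹) • deriv γ t) +
        ((‖deriv γ t‖⁻¹) • deriv γ t - (‖w‖⁻¹) • w) := by abel
    rw [e]
    have h5 := norm_add_le ((‖deriv x t‖⁻¹) • deriv x t - (‖deriv γ t‖⁻¹) • deriv γ t)
      ((‖deriv γ t‖⁻¹) • deriv γ t - (‖w‖⁻¹) • w)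
    linarith [h2.2]
  · have h4 := norm_sub_norm_le (deriv γ t1) (deriv x t1)
    rw [norm_sub_rev] at h4
    rw [hx0]
    linarith [hxd t1 h1m]
  · refine hμ5' _ ?_
    exact (abs_norm_sub_norm_le _ _).trans ((hxd t1 h1m).trans hμ0')

theorem dense_Gt {k : ℕ} {B : Fin n → Fin n → ℝ} {f₀ : (Fin n → ℝ) → ℝ → ℝ}
    {R : ℝ} {L : (Fin n → ℝ) → (Fin n → ℝ) → ℝ → ℝ} (hL : ∀ x v t, R ≤ ‖v‖ → L x v t = LagB B f₀ x v t)
    (hD : DenseT k R L) (φ : ℝ → ℝ) {w : Fin n → ℝ} (hw : w ≠ 0) {ρ : ℝ} (hρ : 0 < ρ) (m : ℝ) :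
    ∀ f, PotK k f → ∀ ε > 0, ∃ g ∈ Gt k B f₀ φ w ρ m, CloseK k ε f g := by
  intro f hf ε hε
  obtain ⟨g, γ, c, hg, hfg, hc, hsp, hR, hdir, hE⟩ := hD f hf w hw (min ε (ρ / 2)) (lt_min hε (by positivity))
  have hk3 : (0 : ℝ) < (k : ℝ) + 3 := by positivity
  have ha : 0 < 1 / ((k : ℝ) + 3) := by positivity
  have htop : Tendsto (fun t => ‖deriv γ t‖) atTop atTop := by
    have h1 : Tendsto (fun t : ℝ => c * t ^ (1 / ((k : ℝ) + 3))) atTop atTop :=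
      (tendsto_rpow_atTop ha).const_mul_atTop hc
    refine tendsto_atTop_mono' _ ?_ h1
    filter_upwards [eventually_ge_atTop 0] with t ht using hsp t ht
  obtain ⟨T, hT⟩ := eventually_atTop.1 (htop.eventually_ge_atTop (m + 1))
  obtain ⟨t0, h0, h1⟩ : ∃ t0 : ℝ, T ≤ t0 ∧ 0 < t0 := ⟨max T 1, le_max_left _ _, lt_max_of_lt_right one_pos⟩
  have hbig : ∀ᶠ t in atTop, (c ^ ((k : ℝ) + 3))⁻¹ < ‖deriv γ t‖ ^ ρ :=
    ((tendsto_rpow_atTop hρ).comp htop).eventually_gt_atTop _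
  obtain ⟨t1, ⟨h2, h3⟩, h4⟩ := (((htop.eventually_gt_atTop (φ ‖deriv γ t0‖)).and (eventually_gt_atTop t0)).and
    (hbig.and (htop.eventually_gt_atTop 0))).exists
  refine ⟨g, ⟨hg, γ, t0, t1, h3, fun t ht => ?_, ⟨min 1 (ρ / 2), lt_min one_pos (by positivity), fun t ht => ?_⟩, h2,
    ?_⟩, fun i hi q => (hfg i hi q).trans (min_le_left _ _)⟩
  · have htp : 0 < t := h1.trans_le ht.1
    refine Fn.loc (L' := fun x v t => L x v t + g x t) (R := R) (fun x v t hv => ?_) ?_ (hE t htp)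
    · simp only [hL x v t hv, LagB]
      ring
    · filter_upwards [lt_mem_nhds htp] with s hs using hR s hs.le
  · have htp : 0 ≤ t := (h1.trans_le ht.1).le
    have h4 := hT t (h0.trans ht.1)
    have h5 := hdir t htp
    have h6 := min_le_left (1 : ℝ) (ρ / 2)
    have h7 := min_le_right (1 : ℝ) (ρ / 2)
    have h8 := min_le_right ε (ρ / 2)
    exact ⟨by linarith, by linarith⟩
  · -- the time
    obtain ⟨h5, h6⟩ := h4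
    have ht1 : 0 < t1 := h1.trans h3
    have h7 := hsp t1 ht1.le
    have h8 : (c * t1 ^ (1 / ((k : ℝ) + 3))) ^ ((k : ℝ) + 3) ≤ ‖deriv γ t1‖ ^ ((k : ℝ) + 3) :=
      Real.rpow_le_rpow (by positivity) h7 hk3.le
    have h9 : (c * t1 ^ (1 / ((k : ℝ) + 3))) ^ ((k : ℝ) + 3) = c ^ ((k : ℝ) + 3) * t1 := by
      rw [Real.mul_rpow hc.le (by positivity), ← Real.rpow_mul ht1.le, one_div_mul_cancel hk3.ne', Real.rpow_one]
    rw [h9] at h8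
    have hcp : 0 < c ^ ((k : ℝ) + 3) := Real.rpow_pos_of_pos hc _
    rw [Real.rpow_add h6]
    have h10 : t1 ≤ ‖deriv γ t1‖ ^ ((k : ℝ) + 3) * (c ^ ((k : ℝ) + 3))⁻¹ := by
      rw [← div_eq_mul_inv, le_div_iff₀ hcp]
      linarith
    have h11 : ‖deriv γ t1‖ ^ ((k : ℝ) + 3) * (c ^ ((k : ℝ) + 3))⁻¹ ≤
        ‖deriv γ t1‖ ^ ((k : ℝ) + 3) * ‖deriv γ t1‖ ^ ρ :=
      mul_le_mul_of_nonneg_left h5.le (by positivity)
    linarith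

/-- genericity with bounds on the time -/
theorem gent_all (k n : ℕ) (hk : 2 ≤ k) (B Q : Fin n → Fin n → ℝ) (hB : ∀ i j, B i j = B j i)
    (hBQ : ∀ i k, ∑ j, B i j * Q j k = if i = k then 1 else 0)
    (R : ℝ) (L : (Fin n → ℝ) → (Fin n → ℝ) → ℝ → ℝ) (f₀ : (Fin n → ℝ) → ℝ → ℝ)
    (hf₀ : PotK k f₀) (hL : ∀ x v t, R ≤ ‖v‖ → L x v t = LagB B f₀ x v t) (hD : DenseT k R L) (φ : ℝ → ℝ) :
    ∃ O : ℕ → Set ((Fin n → ℝ) → ℝ → ℝ), (∀ m, OpenDenseK k (O m)) ∧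
      ∀ f, (∀ m, f ∈ O m) → ∀ (K : ℝ) (u : Fin n → ℝ) (ε : ℝ), u ≠ 0 → 0 < ε →
        ∃ (γ : ℝ → Fin n → ℝ) (t0 t1 : ℝ), t0 < t1 ∧
        (∀ t ∈ Icc t0 t1, EulerLagrange (fun x v t => L x v t + f x t) γ t) ∧
        (∀ t ∈ Icc t0 t1, K ≤ ‖deriv γ t‖ ∧ ‖(‖deriv γ t‖⁻¹) • deriv γ t - (‖u‖⁻¹) • u‖ ≤ ε) ∧
        φ ‖deriv γ t0‖ < ‖deriv γ t1‖ ∧ t1 - t0 ≤ ‖deriv γ t1‖ ^ ((k : ℝ) + 3 + ε) := by
  obtain ⟨e, he⟩ := exists_surjective_nat ((Fin n → ℤ) × ℕ × ℕ)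
  obtain ⟨Rn, hRn⟩ := exists_nat_ge (max R 1)
  have hRn1 : (1 : ℝ) ≤ Rn := (le_max_right _ _).trans hRn
  have hRnR : R ≤ Rn := (le_max_left _ _).trans hRn
  obtain ⟨O, hO⟩ : ∃ O : ((Fin n → ℤ) × ℕ × ℕ) → Set ((Fin n → ℝ) → ℝ → ℝ), O = fun z =>
      open scoped Classical in
      if (fun i => (z.1 i : ℝ)) = 0 then {f | PotK k f} else
        Gt k B f₀ φ (fun i => (z.1 i : ℝ)) (1 / ((z.2.1 : ℝ) + 1)) ((z.2.2 : ℝ) + Rn) := ⟨_, rfl⟩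
  refine ⟨fun m => O (e m), fun m => ?_, fun f hf K u ε hu hε => ?_⟩
  · obtain ⟨z, hz⟩ : ∃ z, z = e m := ⟨_, rfl⟩
    show OpenDenseK k (O (e m))
    rw [← hz]
    by_cases h0 : (fun i => (z.1 i : ℝ)) = 0
    · have e1 : O z = {f | PotK k f} := by
        rw [hO]
        simp only [if_pos h0]
      rw [e1]
      refine ⟨fun f hf => ⟨hf, 1, one_pos, fun g hg _ => hg⟩, fun f hf ε hε => ⟨f, hf, fun i _ q => ?_⟩⟩
      have e2 : (fun q : (Fin n → ℝ) × ℝ => f q.1 q.2 - f q.1 q.2) = fun _ => 0 := by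
        funext q; ring
      rw [e2, iteratedFDeriv_fun_zero]
      simp only [Pi.zero_apply, norm_zero]
      exact hε.le
    · have e1 : O z = Gt k B f₀ φ (fun i => (z.1 i : ℝ)) (1 / ((z.2.1 : ℝ) + 1)) ((z.2.2 : ℝ) + Rn) := by
        rw [hO]
        simp only [if_neg h0]
      rw [e1]
      have hm0 : (0 : ℝ) ≤ (z.2.2 : ℝ) := Nat.cast_nonneg _
      exact ⟨open_Gt hk hB hBQ hf₀ φ _ (by linarith), dense_Gt hL hD φ h0 (by positivity) _⟩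
  · obtain ⟨w, hw0, hw⟩ := Gk.int_dir hu (by positivity : 0 < ε / 2)
    obtain ⟨p, hp⟩ := exists_nat_gt (2 / ε)
    obtain ⟨M, hM⟩ := exists_nat_ge K
    obtain ⟨m, hm⟩ := he (w, p, M)
    have h1 : f ∈ O (e m) := hf m
    have e1 : O (e m) = Gt k B f₀ φ (fun i => (w i : ℝ)) (1 / ((p : ℝ) + 1)) ((M : ℝ) + Rn) := by
      rw [hm, hO]
      simp only [if_neg hw0]
    rw [e1] at h1
    obtain ⟨hfp, γ, t0, t1, h01, hE, ⟨μ, hμ, hmu⟩, hφ, htime⟩ := h1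
    have hM0 : (0 : ℝ) ≤ M := Nat.cast_nonneg _
    have hp' : 1 / ((p : ℝ) + 1) ≤ ε / 2 := by
      rw [div_le_div_iff₀ (by positivity) (by norm_num)]
      rw [div_lt_iff₀ hε] at hp
      nlinarith
    refine ⟨γ, t0, t1, h01, fun t ht => ?_, fun t ht => ?_, hφ, ?_⟩
    · refine Fn.loc (L' := LagB B (fun x t => f₀ x t + f x t)) (R := R) (fun x v t hv => ?_) ?_ (hE t ht)
      · simp only [hL x v t hv, LagB]
        ring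
      · have h2 := (Gq.el_B hB hBQ (Gk.PotK.pot hk (Gk.PotK.add hf₀ hfp)).1).1 γ t (hE t ht)
        have h3 : ContinuousAt (fun s => ‖deriv γ s‖) t := h2.2.continuousAt.norm
        refine h3.eventually (lt_mem_nhds ?_)
        have := (hmu t ht).1
        linarith
    · obtain ⟨a1, a2⟩ := hmu t ht
      refine ⟨by linarith, ?_⟩
      have e2 : (‖deriv γ t‖⁻¹) • deriv γ t - (‖u‖⁻¹) • u =
          ((‖deriv γ t‖⁻¹) • deriv γ t - (‖(fun i => (w i : ℝ))‖⁻¹) • (fun i => (w i : ℝ))) +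
          ((‖(fun i => (w i : ℝ))‖⁻¹) • (fun i => (w i : ℝ)) - (‖u‖⁻¹) • u) := by abel
      rw [e2]
      refine (norm_add_le _ _).trans ?_
      linarith
    · refine htime.le.trans (Real.rpow_le_rpow_of_exponent_le ?_ (by linarith))
      have := (hmu t1 ⟨h01.le, le_rfl⟩).1
      linarith

end Pool.Agent.K9h32.SM
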