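import Pool.Agent.K9h32.SM.Pass4

/-!
# The passage: the components of the velocity transversal to `p` are adiabatic invariants
-/

set_option autoImplicit false
set_option linter.unusedSectionVars false

open Set Filter Topology
open scoped ContDiff NNReal

noncomputable section

namespace Pool.Agent.K9h32.SM

open Pool.Agent.N980.TL

variable {n : ℕ} [Lat n]

theorem slow_ss_ev (p : Fin n → ℤ) (A : ℝ → ℝ → ℝ) (S : ℝ) (x P : E n) (t : ℝ) :
    gv p ({ (slowAt A : TS n) with a := SM.d1 (slowAt A : TS n).a }) S x P t = deriv (fun u => A u t) S := by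
  simp [gv, slowAt, tp_nil, dot_zero_left, SM.d1]

/-- the chain rule for the averaged force at the shifted slow position -/
theorem ff_deriv {𝓖 : List (Fin n → ℤ)} (p : Fin n → ℤ) (BB VV : List (TS n)) (gB : SGood 𝓖 BB) (gV : SGood 𝓖 VV)
    (P : E n) {x : ℝ → E n} {x' : E n} {ρ τ : ℝ → ℝ} {ρ' τ' u : ℝ} {s : Set ℝ}
    (hx : ∀ i, HasDerivWithinAt (fun u => x u i) (x' i) s u) (hρ : HasDerivWithinAt ρ ρ' s u)
    (hτ : HasDerivWithinAt τ τ' s u) (hP : ∀ f ∈ 𝓖, dot f (P + ρ u • rv p) ≠ 0) :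
    HasDerivWithinAt (fun u => gev p BB (dot p (x u) + gev p VV (dot p (x u)) (x u) (P + ρ u • rv p) (τ u)) 0
        (P + ρ u • rv p) (τ u))
      (((∑ i, (rv p i) * x' i) + ((∑ i, (rv p i) * x' i) * gev p (ss VV) (dot p (x u)) (x u) (P + ρ u • rv p) (τ u) +
        ∑ i, x' i * gev p (kx i VV) (dot p (x u)) (x u) (P + ρ u • rv p) (τ u) +
        ρ' * gev p (sp p VV) (dot p (x u)) (x u) (P + ρ u • rv p) (τ u) +
        τ' * gev p (st VV) (dot p (x u)) (x u) (P + ρ u • rv p) (τ u))) *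
          gev p (ss BB) (dot p (x u) + gev p VV (dot p (x u)) (x u) (P + ρ u • rv p) (τ u)) 0 (P + ρ u • rv p) (τ u) +
        ρ' * gev p (sp p BB) (dot p (x u) + gev p VV (dot p (x u)) (x u) (P + ρ u • rv p) (τ u)) 0
          (P + ρ u • rv p) (τ u) +
        τ' * gev p (st BB) (dot p (x u) + gev p VV (dot p (x u)) (x u) (P + ρ u • rv p) (τ u)) 0
          (P + ρ u • rv p) (τ u)) s u := by
  have hS : HasDerivWithinAt (fun u => dot p (x u)) (∑ i, (rv p i) * x' i) s u := by
    unfold dot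
    exact HasDerivWithinAt.fun_sum fun i _ => (hx i).const_mul (rv p i)
  have h1 := gev_chain p VV gV P hS hρ hτ hx hP
  have h2 := gev_chain p BB gB P (hS.add h1) hρ hτ (z := fun _ => (0 : E n)) (z' := 0)
    (fun i => by simpa using hasDerivWithinAt_const u s (0 : ℝ)) hP
  simp only [Pi.zero_apply, zero_mul, Finset.sum_const_zero, add_zero, Pi.add_apply] at h2
  exact h2

namespace Pass

/-- **Leaf PASS.** -/
theorem t : S_HJK → S_PASS := by
  intro hHJK n N _ D w0 M hW
  obtain ⟨hWs, hWl, hWf, -⟩ := hW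
  obtain ⟨R, hR⟩ := hHJK n w0 M hWs hWl hWf
  refine ⟨R, fun 𝓕 e0 hWE p A T K hp hT hA hAper => ?_⟩
  have hAs : ∀ (s t : ℝ) (m : ℤ), A (s + m) t = A s t := fun s t m => by
    have := hAper s t m 0
    simpa using this
  obtain ⟨w, al, e, 𝓖, h𝓖, g0, gw', gal, ge, lw, lal, le, locw, -, hid⟩ := hR p A hA hAs
  obtain ⟨-, ge0, le0, hWE⟩ := hWE
  have gW : SGood 𝓖 (emb w0 ++ w) := g0.app gw'
  have gAA : SGood 𝓖 (slowAt A :: al) := slow_good hA hAs gal
  have kal : K0 al := fun a ha => (lal a ha).1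
  have kAA : K0 (slowAt A :: al) := slow_k0 kal
  have lW : Len 1 (emb w0 ++ w) := by
    refine Len.app ?_ lw
    intro b hb
    obtain ⟨a, ha, rfl⟩ := List.mem_map.1 hb
    exact hWl a ha
  have hT1 : (1 / 100 : ℝ) ≤ T := by linarith
  -- constants
  obtain ⟨CA, hCA0, hCA⟩ : ∃ C : ℝ, 0 ≤ C ∧ ∀ s : ℝ, ∀ t ∈ Icc (1 / 100 : ℝ) T, |deriv (fun u => A u t) s| ≤ C := by
    have h1 : CS (slowAt A : TS n).a := (gAA _ List.mem_cons_self).1
    have h2 : Pr (slowAt A : TS n).a := fun s r t m => hAs s t m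
    obtain ⟨C, hC0, hC⟩ := coefS_bdd h1.d1 h2.d1 0 (1 / 100) T
    exact ⟨C, hC0, fun s t ht => hC s 0 (by simp) t ht⟩
  set ρm : ℝ := CA * T + 1 with hρm
  have hρm0 : 0 ≤ ρm := by positivity
  set K' : ℝ := |K| + ρm * |dot p (rv p)| with hK'
  obtain ⟨B, hB0, hB⟩ : ∃ B : ℝ, 0 ≤ B ∧ ∀ f ∈ 𝓕 ++ 𝓖, |dot f (rv p)| ≤ B := by
    refine ⟨((𝓕 ++ 𝓖).map fun f => |dot f (rv p)|).sum, List.sum_nonneg fun x hx => ?_, fun f hf => ?_⟩
    · obtain ⟨f, -, rfl⟩ := List.mem_map.1 hx
      exact abs_nonneg _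
    · refine List.single_le_sum (fun x hx => ?_) _ (List.mem_map_of_mem (f := fun f => |dot f (rv p)|) hf)
      obtain ⟨f, -, rfl⟩ := List.mem_map.1 hx
      exact abs_nonneg _
  obtain ⟨Cal, hCal0, hCal⟩ := gev_bnd (m := 1) p (ss al) gal.ss (Len.ss fun a ha => (lal a ha).2) K' (1 / 100) T
  obtain ⟨Cη, hCη0, hCη⟩ := gev_bnd (m := 1) p (sp p (emb w0 ++ w)) (gW.sp p) (lW.sp p) K' (1 / 100) T
  have hCj := fun j => gev_bnd (m := 1) p (sx p j (sp p (emb w0 ++ w))) ((gW.sp p).sx p j) ((lW.sp p).sx p j)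
    K' (1 / 100) T
  choose Cj hCj0 hCj using hCj
  have hCij := fun i j => gev_bnd (m := 0) p (sx p i (sx p j (emb w0 ++ w))) ((gW.sx p j).sx p i) (Len.zero _)
    K' (1 / 100) T
  choose Cij hCij0 hCij using hCij
  have hC0j := fun j => tev_bnd (m := M) (tdx j e0) (good_tdx ge0 j) (len_tdx le0 j) (1 / 100 + 1) (T + 1)
  choose C0j hC0j0 hC0j using hC0j
  have hCej := fun j => gev_bnd (m := M) p (sx p j e) (ge.sx p j) (Len.sx le p j) K' (1 / 100) T
  choose Cej hCej0 hCej using hCej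
  obtain ⟨F1, hF10, hF1⟩ := gev_bnd (m := 0) p (ss^[M + 1] (slowAt A :: al)) (gAA.ssi _) (Len.zero _) K' (1 / 100) T
  obtain ⟨F2, hF20, hF2⟩ := gev_bnd (m := 0) p (ss^[M + 2] (slowAt A :: al)) (gAA.ssi _) (Len.zero _) K' (1 / 100) T
  obtain ⟨L1, hL10, hL1⟩ := gev_bnd (m := 0) p (sp p (sp p (emb w0 ++ w))) ((gW.sp p).sp p) (Len.zero _) K' (1 / 100) T
  obtain ⟨L2, hL20, hL2⟩ := gev_bnd (m := 0) p (ss (ss (slowAt A :: al))) gAA.ss.ss (Len.zero _) K' (1 / 100) T
  obtain ⟨L3, hL30, hL3⟩ := gev_bnd (m := 0) p (sp p (ss (slowAt A :: al))) (gAA.ss.sp p) (Len.zero _) K' (1 / 100) T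
  set CF : ℝ := F1 + F2 with hCF
  have hCF0 : 0 ≤ CF := by positivity
  set Ej : Fin n → ℝ := fun j => C0j j + Cej j + |(rv p j)| * (CF * Cη ^ (M + 1)) + Cj j * (CF * Cη ^ M) with hEj
  have hEj0 : ∀ j, 0 ≤ Ej j := fun j => by
    have := hC0j0 j; have := hCej0 j; have := hCj0 j
    positivity
  set EE : ℝ := ∑ j, Ej j with hEE
  have hEE0 : 0 ≤ EE := Finset.sum_nonneg fun j _ => hEj0 j
  set K1 : ℝ := 1 + ∑ j, ∑ i, Cij i j with hK1
  have hK1s : 0 ≤ ∑ j, ∑ i, Cij i j := Finset.sum_nonneg fun j _ => Finset.sum_nonneg fun i _ => hCij0 i j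
  have hK1pos : 0 < K1 := by positivity
  set G : ℝ := Real.exp (K1 * (T - 1 / 100)) with hG
  have hG0 : 0 < G := Real.exp_pos _
  refine ⟨ρm + (|K| + EE * 2 ^ M) * G, 2 + 4 * ρm * B + 2 * Cal * T, by positivity, ?_, ?_⟩
  · have h1 : 0 ≤ 4 * ρm * B := by positivity
    have h2 : 0 ≤ 2 * Cal * T := by positivity
    linarith
  intro lam hlam P hReg hReg2 hpK x v hxv hl1 hl2 hinit
  have h4ρ : 0 ≤ 4 * ρm * B := by positivity
  have h2C : 0 ≤ 2 * Cal * T := by positivity
  have hlam2 : 2 ≤ lam := by linarith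
  have hlamB : ρm * B ≤ lam / 4 := by nlinarith
  have hlamC : Cal * T ≤ lam / 2 := by nlinarith
  set lam' : ℝ := lam / 2 with hlam'
  have hl' : 1 ≤ lam' := by rw [hlam']; linarith
  have hl'0 : 0 < lam' := by linarith
  have hRegG : Reg 𝓖 lam P := fun f hf => hReg2 f (h𝓖 f hf).1 (h𝓖 f hf).2
  -- the region
  have key : ∀ f ∈ 𝓕 ++ 𝓖, lam / 2 ≤ |dot f P| → ∀ r : ℝ, |r| ≤ ρm → lam' / 2 ≤ |dot f (P + r • rv p)| := by
    intro f hf h1 r hr
    rw [dot_add, dot_smul]
    have h2 : |r * dot f (rv p)| ≤ ρm * B := by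
      rw [abs_mul]
      exact mul_le_mul hr (hB f hf) (abs_nonneg _) hρm0
    have h3 : |dot f P| - |r * dot f (rv p)| ≤ |dot f P + r * dot f (rv p)| := by
      have := abs_sub_abs_le_abs_sub (dot f P) (-(r * dot f (rv p)))
      rw [abs_neg, sub_neg_eq_add] at this
      exact this
    rw [hlam']
    linarith
  have regF : ∀ r : ℝ, |r| ≤ ρm → Reg 𝓕 lam' (P + r • rv p) := fun r hr f hf =>
    key f (List.mem_append_left _ hf) (hReg f hf) r hr
  have regG : ∀ r : ℝ, |r| ≤ ρm → Reg 𝓖 lam' (P + r • rv p) := fun r hr f hf =>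
    key f (List.mem_append_right _ hf) (hRegG f hf) r hr
  have regp : ∀ r : ℝ, |r| ≤ ρm → |dot p (P + r • rv p)| ≤ K' := by
    intro r hr
    rw [dot_add, dot_smul]
    refine (abs_add_le _ _).trans ?_
    rw [abs_mul, hK']
    exact add_le_add (hpK.trans (le_abs_self K)) (mul_le_mul_of_nonneg_right hr (abs_nonneg _))
  -- the scalar equation
  set ff : ℝ → ℝ → ℝ := fun t r => gev p (ss (slowAt A :: al))
    (dot p (x t) + gev p (sp p (emb w0 ++ w)) (dot p (x t)) (x t) (P + r • rv p) t) 0 (P + r • rv p) t with hff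
  have hbff : ∀ t ∈ Icc (1 / 100 : ℝ) T, ∀ r, |r| ≤ ρm → |ff t r| ≤ CA + 1 / T := by
    intro t ht r hr
    simp only [hff]
    rw [ss_cons, gev_cons, slow_ss_ev]
    refine (abs_add_le _ _).trans (add_le_add (hCA _ t ht) ?_)
    refine (hCal lam' hl' _ (regG r hr) (regp r hr) _ _ t ht).trans ?_
    rw [pow_one, div_le_div_iff₀ hl'0 (by linarith)]
    linarith
  obtain ⟨ρ, hρ0, hρ⟩ := ode_rho ff (1 / 100) T ρm (CA + 1 / T) (L1 * L2 + L3) hT1 hρm0 (by positivity)
    (by positivity) hbff (by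
      have h1 : (CA + 1 / T) * (T - 1 / 100) ≤ (CA + 1 / T) * T :=
        mul_le_mul_of_nonneg_left (by linarith) (by positivity)
      have h2 : (CA + 1 / T) * T = ρm := by
        rw [hρm]
        field_simp
      linarith)
    (by
      intro t ht r r' hr hr'
      have h1 := Convex.norm_image_sub_le_of_norm_hasDerivWithin_le (f := fun r => ff t r) (s := Icc (-ρm) ρm)
        (C := L1 * L2 + L3)
        (f' := fun r => gev p (sp p (sp p (emb w0 ++ w))) (dot p (x t)) (x t) (P + r • rv p) t *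
            gev p (ss (ss (slowAt A :: al)))
              (dot p (x t) + gev p (sp p (emb w0 ++ w)) (dot p (x t)) (x t) (P + r • rv p) t) 0 (P + r • rv p) t +
          gev p (sp p (ss (slowAt A :: al)))
              (dot p (x t) + gev p (sp p (emb w0 ++ w)) (dot p (x t)) (x t) (P + r • rv p) t) 0 (P + r • rv p) t)
        (fun u hu => by
          have hu' : |u| ≤ ρm := abs_le.2 ⟨hu.1, hu.2⟩
          have h2 := ff_deriv p (ss (slowAt A :: al)) (sp p (emb w0 ++ w)) gAA.ss (gW.sp p) P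
            (x := fun _ => x t) (x' := 0) (ρ := fun u => u) (τ := fun _ => t) (ρ' := 1) (τ' := 0) (u := u)
            (s := Icc (-ρm) ρm)
            (fun i => by simpa using hasDerivWithinAt_const u (Icc (-ρm) ρm) (x t i))
            (hasDerivWithinAt_id u _) (hasDerivWithinAt_const u _ t) ((regG u hu').ne hl'0)
          refine h2.congr_deriv ?_
          simp)
        (fun u hu => by
          have hu' : |u| ≤ ρm := abs_le.2 ⟨hu.1, hu.2⟩
          rw [Real.norm_eq_abs]
          refine (abs_add_le _ _).trans (add_le_add ?_ ?_)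
          · rw [abs_mul]
            have b1 := hL1 lam' hl' _ (regG u hu') (regp u hu') (dot p (x t)) (x t) t ht
            have b2 := hL2 lam' hl' _ (regG u hu') (regp u hu')
              (dot p (x t) + gev p (sp p (emb w0 ++ w)) (dot p (x t)) (x t) (P + u • rv p) t) 0 t ht
            rw [pow_zero, div_one] at b1 b2
            exact mul_le_mul b1 b2 (abs_nonneg _) hL10
          · have b3 := hL3 lam' hl' _ (regG u hu') (regp u hu')
              (dot p (x t) + gev p (sp p (emb w0 ++ w)) (dot p (x t)) (x t) (P + u • rv p) t) 0 t ht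
            rw [pow_zero, div_one] at b3
            exact b3)
        (convex_Icc _ _) (x := r') (y := r) (abs_le.1 hr') (abs_le.1 hr)
      rw [Real.norm_eq_abs, Real.norm_eq_abs] at h1
      exact h1)
    (by
      intro r hr t ht
      have h2 := ff_deriv p (ss (slowAt A :: al)) (sp p (emb w0 ++ w)) gAA.ss (gW.sp p) P
        (x := x) (x' := v t) (ρ := fun _ => r) (τ := fun u => u) (ρ' := 0) (τ' := 1) (u := t)
        (s := Icc (1 / 100 : ℝ) T)
        (fun i => (hasDerivWithinAt_pi.1 (hxv t ht).1.hasDerivWithinAt) i)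
        (hasDerivWithinAt_const t _ r) (hasDerivWithinAt_id t _) ((regG r hr).ne hl'0)
      exact h2.continuousWithinAt)
  -- the difference
  set z : ℝ → E n := fun u j => v u j - (P j + ρ u * rv p j) -
    gev p (sx p j (emb w0 ++ w)) (dot p (x u)) (x u) (P + ρ u • rv p) u with hz
  set zd : ℝ → E n := fun t j => (Dg D (x t) t j + deriv (fun u => A u t) (dot p (x t)) * rv p j) -
    ff t (ρ t) * rv p j -
    (∑ i, v t i * gev p (sx p i (sx p j (emb w0 ++ w))) (dot p (x t)) (x t) (P + ρ t • rv p) t +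
      ff t (ρ t) * gev p (sx p j (sp p (emb w0 ++ w))) (dot p (x t)) (x t) (P + ρ t • rv p) t +
      gev p (st (sx p j (emb w0 ++ w))) (dot p (x t)) (x t) (P + ρ t • rv p) t) with hzd
  have hzder : ∀ t ∈ Icc (1 / 100 : ℝ) T, HasDerivWithinAt z (zd t) (Icc (1 / 100 : ℝ) T) t := by
    intro t ht
    refine hasDerivWithinAt_pi.2 fun j => ?_
    exact z_deriv p (emb w0 ++ w) gW P (hxv t ht).1.hasDerivWithinAt (hxv t ht).2.hasDerivWithinAt (hρ t ht).1
      ((regG _ (hρ t ht).2).ne hl'0) j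
  have hbound : ∀ t ∈ Icc (1 / 100 : ℝ) T, ‖zd t‖ ≤ K1 * ‖z t‖ + EE / lam' ^ M := by
    intro t ht
    have hr := (hρ t ht).2
    have rG := regG _ hr
    have rF := regF _ hr
    have rp := regp _ hr
    have hPG := rG.ne hl'0
    have hPF := rF.ne hl'0
    have ht0 : 0 ≤ t := by linarith [ht.1]
    have hnn : 0 ≤ K1 * ‖z t‖ + EE / lam' ^ M := by positivity
    refine (pi_norm_le_iff_of_nonneg hnn).2 fun j => ?_
    -- the algebra
    have hWEj := hWE (P + ρ t • rv p) hPF (x t) j t ht0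
    have hHJj := hjk_dx p w0 w al e A M g0 gw' gal ge kal hA hAs (P + ρ t • rv p) hPG t
      (fun y => hid (P + ρ t • rv p) hPG y t) (x t) j
    have hemb : ∀ i, sev p (sx p i (emb w0)) (x t) (P + ρ t • rv p) t = tev (tdx i w0) (x t) (P + ρ t • rv p) t :=
      fun i => by rw [sev_eq, emb_sx]
    simp only [hemb] at hHJj
    have halg := alg_z (P + ρ t • rv p) (v t) (fun i => tev (tdx i w0) (x t) (P + ρ t • rv p) t)
      (fun i => sev p (sx p i w) (x t) (P + ρ t • rv p) t) (z t)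
      (fun i => tev (tdx i (tdx j w0)) (x t) (P + ρ t • rv p) t)
      (fun i => sev p (sx p j (sx p i (emb w0))) (x t) (P + ρ t • rv p) t)
      (fun i => sev p (sx p i (sx p j w)) (x t) (P + ρ t • rv p) t)
      (fun i => sev p (sx p j (sx p i w)) (x t) (P + ρ t • rv p) t)
      (fun i => gev p (sx p i (sx p j (emb w0 ++ w))) (dot p (x t)) (x t) (P + ρ t • rv p) t)
      (Dg D (x t) t j) (deriv (fun u => A u t) (dot p (x t))) (rv p j) (ff t (ρ t))
      (gev p (sx p j (sp p (emb w0 ++ w))) (dot p (x t)) (x t) (P + ρ t • rv p) t)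
      (tev (tdt (tdx j w0)) (x t) (P + ρ t • rv p) t)
      (sev p (sx p j (st w)) (x t) (P + ρ t • rv p) t)
      (tev (tdx j e0) (x t) (P + ρ t • rv p) (t + 1)) (sev p (sx p j e) (x t) (P + ρ t • rv p) t)
      (∑ i ∈ Finset.range (M + 1), ((rv p j) * gev p (ss^[i + 1] (slowAt A :: al)) (dot p (x t)) 0
          (P + ρ t • rv p) t * (sev p (sp p (emb w0 ++ w)) (x t) (P + ρ t • rv p) t) ^ i / (i.factorial : ℝ) +
        gev p (ss^[i] (slowAt A :: al)) (dot p (x t)) 0 (P + ρ t • rv p) t *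
          (i * (sev p (sp p (emb w0 ++ w)) (x t) (P + ρ t • rv p) t) ^ (i - 1) *
            sev p (sx p j (sp p (emb w0 ++ w))) (x t) (P + ρ t • rv p) t) / (i.factorial : ℝ)))
      (fun i => by
        simp only [hz]
        rw [sx_append, gev_append, emb_sx, sev_eq]
        have e1 : (P + ρ t • rv p) i = P i + ρ t * rv p i := rfl
        rw [e1]
        ring)
      (fun i => by
        rw [sx_append, sx_append, gev_append, emb_sx_sx, sev_eq])
      (fun i => by
        rw [sev_eq, sx_sx p j i, emb_sx_sx])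
      (fun i => by
        rw [sev_eq, sev_eq, sx_sx p j i])
      hWEj hHJj
    have hst : gev p (st (sx p j (emb w0 ++ w))) (dot p (x t)) (x t) (P + ρ t • rv p) t =
        tev (tdt (tdx j w0)) (x t) (P + ρ t • rv p) t + sev p (sx p j (st w)) (x t) (P + ρ t • rv p) t := by
      rw [sx_append, st_append, gev_append, emb_st_sx p j w0 hWs, st_sx p j w gw'.cs, sev_eq]
    have hzdj : zd t j = -tev (tdx j e0) (x t) (P + ρ t • rv p) (t + 1) - sev p (sx p j e) (x t) (P + ρ t • rv p) t +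
        ((∑ i ∈ Finset.range (M + 1), ((rv p j) * gev p (ss^[i + 1] (slowAt A :: al)) (dot p (x t)) 0
          (P + ρ t • rv p) t * (sev p (sp p (emb w0 ++ w)) (x t) (P + ρ t • rv p) t) ^ i / (i.factorial : ℝ) +
        gev p (ss^[i] (slowAt A :: al)) (dot p (x t)) 0 (P + ρ t • rv p) t *
          (i * (sev p (sp p (emb w0 ++ w)) (x t) (P + ρ t • rv p) t) ^ (i - 1) *
            sev p (sx p j (sp p (emb w0 ++ w))) (x t) (P + ρ t • rv p) t) / (i.factorial : ℝ))) -
          ff t (ρ t) * (rv p j + gev p (sx p j (sp p (emb w0 ++ w))) (dot p (x t)) (x t) (P + ρ t • rv p) t)) -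
        ∑ i, z t i * gev p (sx p i (sx p j (emb w0 ++ w))) (dot p (x t)) (x t) (P + ρ t • rv p) t := by
      rw [← halg]
      simp only [hzd]
      rw [hst]
    have hF1' : ∀ S, |gev p (ss^[M + 1] (slowAt A :: al)) S 0 (P + ρ t • rv p) t| ≤ CF := by
      intro S
      have := hF1 lam' hl' _ rG rp S 0 t ht
      rw [pow_zero, div_one] at this
      linarith
    have hF2' : ∀ S, |gev p (ss^[M + 2] (slowAt A :: al)) S 0 (P + ρ t • rv p) t| ≤ CF := by
      intro S
      have := hF2 lam' hl' _ rG rp S 0 t ht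
      rw [pow_zero, div_one] at this
      linarith
    have htay := tay_est p (slowAt A :: al) gAA M (P + ρ t • rv p) hPG t CF hCF0 hF1' hF2' (dot p (x t))
      (sev p (sp p (emb w0 ++ w)) (x t) (P + ρ t • rv p) t)
      (sev p (sx p j (sp p (emb w0 ++ w))) (x t) (P + ρ t • rv p) t) (rv p j)
    have b1 := hC0j j lam' hl' _ rF (x t) (t + 1) ⟨by linarith [ht.1], by linarith [ht.2]⟩
    have b2 := hCej j lam' hl' _ rG rp (dot p (x t)) (x t) t ht
    have b3 := hCη lam' hl' _ rG rp (dot p (x t)) (x t) t ht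
    have b4 := hCj j lam' hl' _ rG rp (dot p (x t)) (x t) t ht
    rw [pow_one] at b3 b4
    have b5 : |sev p (sp p (emb w0 ++ w)) (x t) (P + ρ t • rv p) t| ^ M ≤ Cη ^ M / lam' ^ M := by
      rw [← div_pow]
      exact pow_le_pow_left₀ (abs_nonneg _) b3 M
    have b5' : |sev p (sp p (emb w0 ++ w)) (x t) (P + ρ t • rv p) t| ^ (M + 1) ≤ Cη ^ (M + 1) / lam' ^ M := by
      have h1 : |sev p (sp p (emb w0 ++ w)) (x t) (P + ρ t • rv p) t| ^ (M + 1) ≤ (Cη / lam') ^ (M + 1) :=
        pow_le_pow_left₀ (abs_nonneg _) b3 (M + 1)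
      refine h1.trans ?_
      rw [div_pow]
      exact div_le_div_of_nonneg_left (by positivity) (by positivity) (pow_le_pow_right₀ hl' (Nat.le_succ M))
    have b6 : |sev p (sx p j (sp p (emb w0 ++ w))) (x t) (P + ρ t • rv p) t| ≤ Cj j := by
      refine b4.trans ?_
      rw [div_le_iff₀ hl'0]
      nlinarith [hCj0 j]
    have b7 : |(rv p j)| * (CF * |sev p (sp p (emb w0 ++ w)) (x t) (P + ρ t • rv p) t| ^ (M + 1)) +
        |sev p (sx p j (sp p (emb w0 ++ w))) (x t) (P + ρ t • rv p) t| *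
          (CF * |sev p (sp p (emb w0 ++ w)) (x t) (P + ρ t • rv p) t| ^ M) ≤
        |(rv p j)| * (CF * (Cη ^ (M + 1) / lam' ^ M)) + Cj j * (CF * (Cη ^ M / lam' ^ M)) := by
      have := hCj0 j
      gcongr
    have b8 : |∑ i, z t i * gev p (sx p i (sx p j (emb w0 ++ w))) (dot p (x t)) (x t) (P + ρ t • rv p) t| ≤
        (∑ i, Cij i j) * ‖z t‖ := by
      rw [Finset.sum_mul]
      refine (Finset.abs_sum_le_sum_abs _ _).trans (Finset.sum_le_sum fun i _ => ?_)
      rw [abs_mul, mul_comm]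
      have h1 := hCij i j lam' hl' _ rG rp (dot p (x t)) (x t) t ht
      rw [pow_zero, div_one] at h1
      exact mul_le_mul h1 (norm_le_pi_norm (z t) i) (abs_nonneg _) (hCij0 i j)
    have b9 : (∑ i, Cij i j) ≤ ∑ j, ∑ i, Cij i j :=
      Finset.single_le_sum (f := fun j => ∑ i, Cij i j)
        (fun j _ => Finset.sum_nonneg fun i _ => hCij0 i j) (Finset.mem_univ j)
    have b10 : Ej j ≤ EE := Finset.single_le_sum (fun j _ => hEj0 j) (Finset.mem_univ j)
    rw [Real.norm_eq_abs, hzdj]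
    have c1 : ∀ a b c d : ℝ, |-a - b + c - d| ≤ |a| + |b| + |c| + |d| := by
      intro a b c d
      have h1 := abs_sub (-a - b + c) d
      have h2 := abs_add_le (-a - b) c
      have h3 := abs_sub (-a) b
      rw [abs_neg] at h3
      linarith
    refine (c1 _ _ _ _).trans ?_
    have c2 : C0j j / lam' ^ M + Cej j / lam' ^ M + (|(rv p j)| * (CF * (Cη ^ (M + 1) / lam' ^ M)) +
        Cj j * (CF * (Cη ^ M / lam' ^ M))) = Ej j / lam' ^ M := by
      simp only [hEj]
      ring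
    have c3 : Ej j / lam' ^ M ≤ EE / lam' ^ M := div_le_div_of_nonneg_right b10 (by positivity)
    have c4 : (∑ i, Cij i j) * ‖z t‖ ≤ K1 * ‖z t‖ := by
      refine mul_le_mul_of_nonneg_right ?_ (norm_nonneg _)
      rw [hK1]
      linarith
    have c5 := htay.trans b7
    have b2' : |sev p (sx p j e) (x t) (P + ρ t • rv p) t| ≤ Cej j / lam' ^ M := b2
    have c6 : ∀ a : ℝ, |a| ≤ |(rv p j)| * (CF * (Cη ^ (M + 1) / lam' ^ M)) + Cj j * (CF * (Cη ^ M / lam' ^ M)) →
        |tev (tdx j e0) (x t) (P + ρ t • rv p) (t + 1)| + |sev p (sx p j e) (x t) (P + ρ t • rv p) t| + |a| +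
          |∑ i, z t i * gev p (sx p i (sx p j (emb w0 ++ w))) (dot p (x t)) (x t) (P + ρ t • rv p) t| ≤
        K1 * ‖z t‖ + EE / lam' ^ M := by
      intro a ha
      linarith
    exact c6 _ c5
  -- the initial value
  have hz0 : ‖z (1 / 100)‖ ≤ |K| / lam ^ M := by
    have e1 : z (1 / 100) = v (1 / 100) - P - gw w0 (x (1 / 100)) P (1 / 100) := by
      funext j
      simp only [hz, hρ0, zero_mul, add_zero, zero_smul, Pi.sub_apply]
      rw [sx_append, gev_append, emb_sx, loc_zero p w locw hl1, add_zero]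
      rfl
    rw [e1]
    refine hinit.trans ?_
    exact div_le_div_of_nonneg_right (le_abs_self K) (by positivity)
  have hfin := gron_pass hT1 hK1pos (δ := |K| / lam ^ M) (ε := EE / lam' ^ M) (by positivity) (by positivity)
    hzder hz0 hbound
  have hTm : T ∈ Icc (1 / 100 : ℝ) T := right_mem_Icc.2 hT1
  refine ⟨ρ T, (hρ T hTm).2.trans ?_, ?_⟩
  · have : 0 ≤ (|K| + EE * 2 ^ M) * G := by positivity
    linarith
  · have e1 : z T = v T - (P + ρ T • rv p) - gw w0 (x T) (P + ρ T • rv p) T := by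
      funext j
      simp only [hz, Pi.sub_apply]
      rw [sx_append, gev_append, emb_sx, loc_zero p w locw hl2, add_zero]
      rfl
    rw [← e1]
    refine hfin.trans ?_
    have hlp : 0 < lam ^ M := by positivity
    have e2 : EE / lam' ^ M = EE * 2 ^ M / lam ^ M := by
      rw [hlam', div_pow]
      field_simp
    have e3 : EE / lam' ^ M / K1 ≤ EE * 2 ^ M / lam ^ M := by
      rw [← e2]
      refine div_le_self (by positivity) ?_
      rw [hK1]
      linarith
    calc (|K| / lam ^ M + EE / lam' ^ M / K1) * Real.exp (K1 * (T - 1 / 100))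
        ≤ (|K| / lam ^ M + EE * 2 ^ M / lam ^ M) * G := by
          rw [← hG]
          exact mul_le_mul_of_nonneg_right (by linarith) hG0.le
      _ = (|K| + EE * 2 ^ M) * G / lam ^ M := by ring
      _ ≤ (ρm + (|K| + EE * 2 ^ M) * G) / lam ^ M := by
          refine div_le_div_of_nonneg_right ?_ hlp.le
          linarith

end Pass

end Pool.Agent.K9h32.SM
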