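import Pool.Agent.K9h32.SM.Lat

/-!
# Leaf QA: a nonresonant frequency in a given direction; leaf PA: a frequency nearly orthogonal to a given one
-/

set_option autoImplicit false

open Set Filter Topology

noncomputable section

namespace Pool.Agent.K9h32.SM.QA

open Pool.Agent.N980.TL Pool.Agent.K9h32.SM

variable {n : ℕ} [Lat n]

/-- `rv` for real vectors -/
def phi (y : E n) : E n := fun i => ∑ j, Lat.W j i * y j

theorem phi_cont : Continuous (phi : E n → E n) := by
  unfold phi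
  fun_prop

theorem phi_int (k : Fin n → ℤ) : phi (fun j => (k j : ℝ)) = rv k := rfl

theorem phi_smul (c : ℝ) (y : E n) : phi (c • y) = c • phi y := by
  funext i
  simp only [phi, Pi.smul_apply, smul_eq_mul, Finset.mul_sum]
  exact Finset.sum_congr rfl fun j _ => by ring

/-- `phi` is surjective -/
theorem phi_surj (u : E n) : phi (fun j => ∑ l, Lat.M l j * u l) = u := by
  funext i
  simp only [phi]
  calc ∑ j, Lat.W j i * ∑ l, Lat.M l j * u l = ∑ l, u l * ∑ j, Lat.M l j * Lat.W j i := by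
        simp only [Finset.mul_sum]
        rw [Finset.sum_comm]
        exact Finset.sum_congr rfl fun l _ => Finset.sum_congr rfl fun j _ => by ring
    _ = ∑ l, u l * (if l = i then 1 else 0) := by
        refine Finset.sum_congr rfl fun l _ => ?_
        rw [Lat.hMW]
    _ = u i := by simp

theorem phi_inj {y : E n} (h : phi y = 0) : y = 0 := by
  funext j
  have h1 : ∑ i, phi y i * Lat.M i j = y j := by
    simp only [phi, Finset.sum_mul]
    rw [Finset.sum_comm]
    calc ∑ l, ∑ i, Lat.W l i * y l * Lat.M i j = ∑ l, y l * ∑ i, Lat.W l i * Lat.M i j := by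
          refine Finset.sum_congr rfl fun l _ => ?_
          rw [Finset.mul_sum]
          exact Finset.sum_congr rfl fun i _ => by ring
      _ = ∑ l, y l * (if l = j then 1 else 0) := by
          refine Finset.sum_congr rfl fun l _ => ?_
          rw [Lat.hWM]
      _ = y j := by simp
  rw [h] at h1
  simp only [Pi.zero_apply, zero_mul, Finset.sum_const_zero] at h1
  exact h1.symm

/-- the rounded multiples of `y` -/
def rd (y : E n) (N : ℕ) : Fin n → ℤ := fun j => ⌊(N : ℝ) * y j⌋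

theorem tend (y : E n) : Tendsto (fun N : ℕ => (N : ℝ)⁻¹ • rv (rd y N)) atTop (𝓝 (phi y)) := by
  have h1 : Tendsto (fun N : ℕ => (fun j => (N : ℝ)⁻¹ * ((rd y N j : ℤ) : ℝ) : E n)) atTop (𝓝 y) := by
    rw [tendsto_pi_nhds]
    intro j
    have hsq : ∀ N : ℕ, 1 ≤ N → |(N : ℝ)⁻¹ * ((rd y N j : ℤ) : ℝ) - y j| ≤ (N : ℝ)⁻¹ := by
      intro N hN
      have hN' : (0 : ℝ) < N := by exact_mod_cast hN
      have e1 : (N : ℝ)⁻¹ * ((rd y N j : ℤ) : ℝ) - y j = (N : ℝ)⁻¹ * (((rd y N j : ℤ) : ℝ) - N * y j) := by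
        field_simp
      rw [e1, abs_mul, abs_of_pos (inv_pos.mpr hN')]
      have e2 : |((rd y N j : ℤ) : ℝ) - N * y j| ≤ 1 := by
        rw [abs_le]
        constructor
        · have := Int.lt_floor_add_one ((N : ℝ) * y j)
          simp only [rd]
          linarith
        · have := Int.floor_le ((N : ℝ) * y j)
          simp only [rd]
          linarith
      calc (N : ℝ)⁻¹ * |((rd y N j : ℤ) : ℝ) - N * y j| ≤ (N : ℝ)⁻¹ * 1 := by
            exact mul_le_mul_of_nonneg_left e2 (inv_nonneg.mpr hN'.le)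
        _ = (N : ℝ)⁻¹ := mul_one _
    rw [tendsto_iff_norm_sub_tendsto_zero]
    refine squeeze_zero' (Eventually.of_forall fun _ => norm_nonneg _) ?_ tendsto_inv_atTop_nhds_zero_nat
    filter_upwards [eventually_ge_atTop 1] with N hN
    rw [Real.norm_eq_abs]
    exact hsq N hN
  have h2 := (phi_cont.tendsto y).comp h1
  refine h2.congr fun N => ?_
  simp only [Function.comp]
  rw [← phi_int, ← phi_smul]
  rfl

theorem dot_cont (g : Fin n → ℤ) : Continuous (fun w : E n => dot g w) := by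
  unfold dot
  fun_prop

theorem dot_add (g : Fin n → ℤ) (v w : E n) : dot g (v + w) = dot g v + dot g w := by
  simp only [dot, Pi.add_apply, mul_add, Finset.sum_add_distrib]

theorem dot_smul (g : Fin n → ℤ) (c : ℝ) (w : E n) : dot g (c • w) = c * dot g w := by
  simp only [dot, Pi.smul_apply, smul_eq_mul, Finset.mul_sum]
  exact Finset.sum_congr rfl fun j _ => by ring

theorem dot_add_left (f g : Fin n → ℤ) (w : E n) : dot (f + g) w = dot f w + dot g w := by
  simp only [dot, rv_add, Pi.add_apply, add_mul, Finset.sum_add_distrib]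

theorem rv_smul (l : ℤ) (f : Fin n → ℤ) : rv (l • f) = (l : ℝ) • rv f := by
  funext i
  simp only [rv, Pi.smul_apply, smul_eq_mul, Int.cast_mul, Finset.mul_sum]
  exact Finset.sum_congr rfl fun j _ => by ring

theorem dot_smul_left (l : ℤ) (f : Fin n → ℤ) (w : E n) : dot (l • f) w = l * dot f w := by
  simp only [dot, rv_smul, Pi.smul_apply, smul_eq_mul, Finset.mul_sum]
  exact Finset.sum_congr rfl fun j _ => by ring

theorem dot_self_pos {g : Fin n → ℤ} (hg : g ≠ 0) : 0 < dot g (rv g) := by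
  have h := rv_ne hg
  have h' : ∃ i, rv g i ≠ 0 := by
    by_contra hc
    push Not at hc
    exact h (funext hc)
  obtain ⟨i, hi⟩ := h'
  simp only [dot]
  refine Finset.sum_pos' (fun j _ => mul_self_nonneg _) ⟨i, Finset.mem_univ _, ?_⟩
  exact mul_self_pos.mpr hi

/-- the complement of a hyperplane is dense -/
theorem dense_one {g : Fin n → ℤ} (hg : g ≠ 0) : Dense {w : E n | dot g w ≠ 0} := by
  intro w
  by_cases h0 : dot g w ≠ 0
  · exact subset_closure h0
  push Not at h0
  rw [mem_closure_iff_seq_limit]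
  refine ⟨fun N => w + ((N : ℝ) + 1)⁻¹ • rv g, fun N => ?_, ?_⟩
  · simp only [mem_ofPred_eq, dot_add, dot_smul, h0, zero_add]
    have h1 := dot_self_pos hg
    have h2 : (0 : ℝ) < (N : ℝ) + 1 := by positivity
    positivity
  · have h3 : Tendsto (fun N : ℕ => ((N : ℝ) + 1)⁻¹ • rv g) atTop (𝓝 ((0 : ℝ) • rv g)) := by
      refine Tendsto.smul_const ?_ _
      have := tendsto_one_div_add_atTop_nhds_zero_nat (𝕜 := ℝ)
      simpa [one_div] using this
    have h4 := (tendsto_const_nhds (x := w)).add h3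
    simpa using h4

/-- the complement of finitely many hyperplanes is open and dense -/
theorem dense_all (S : Finset (Fin n → ℤ)) (hS : ∀ g ∈ S, g ≠ 0) :
    IsOpen {w : E n | ∀ g ∈ S, dot g w ≠ 0} ∧ Dense {w : E n | ∀ g ∈ S, dot g w ≠ 0} := by
  classical
  induction S using Finset.induction_on with
  | empty => simp
  | insert a s ha ih =>
    obtain ⟨h1, h2⟩ := ih fun g hg => hS g (Finset.mem_insert_of_mem hg)
    have ha0 : a ≠ 0 := hS a (Finset.mem_insert_self _ _)
    have ho : IsOpen {w : E n | dot a w ≠ 0} := isOpen_ne_fun (dot_cont a) continuous_const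
    have he : {w : E n | ∀ g ∈ insert a s, dot g w ≠ 0} = {w : E n | dot a w ≠ 0} ∩
        {w : E n | ∀ g ∈ s, dot g w ≠ 0} := by
      ext w
      simp [Finset.forall_mem_insert]
    rw [he]
    exact ⟨ho.inter h1, (dense_one ha0).inter_of_isOpen_left h2 ho⟩

omit [Lat n] in
theorem dir_smul {c : ℝ} (hc : 0 < c) (w : E n) : (‖c • w‖⁻¹) • (c • w) = (‖w‖⁻¹) • w := by
  rw [norm_smul, Real.norm_eq_abs, abs_of_pos hc, smul_smul, mul_inv]
  congr 1
  field_simp

/-- leaf QA -/
theorem qa : S_QA := by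
  classical
  intro n R _ hn u hu η hη
  -- the finite set of small vectors
  let Bx : Finset (Fin n → ℤ) := (Finset.Icc (fun _ => -(R : ℤ)) (fun _ => (R : ℤ))).filter fun g => g ≠ 0
  have hB0 : ∀ g ∈ Bx, g ≠ 0 := fun g hg => (Finset.mem_filter.mp hg).2
  have hBm : ∀ g : Fin n → ℤ, g ≠ 0 → (∀ i, |g i| ≤ (R : ℤ)) → g ∈ Bx := by
    intro g hg h
    refine Finset.mem_filter.mpr ⟨Finset.mem_Icc.mpr ⟨fun i => ?_, fun i => ?_⟩, hg⟩
    · exact (abs_le.mp (h i)).1
    · exact (abs_le.mp (h i)).2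
  obtain ⟨hD1, hD2⟩ := dense_all Bx hB0
  -- the open set of directions
  have hU : ∀ᶠ w in 𝓝 u, ‖(‖w‖⁻¹) • w - (‖u‖⁻¹) • u‖ < η ∧ w ≠ 0 := by
    have hc : ContinuousAt (fun w : E n => ‖(‖w‖⁻¹) • w - (‖u‖⁻¹) • u‖) u := by
      refine ContinuousAt.norm (ContinuousAt.sub (ContinuousAt.smul (ContinuousAt.inv₀ continuous_norm.continuousAt
        (norm_ne_zero_iff.mpr hu)) continuousAt_id) continuousAt_const)
    have h1 : ∀ᶠ w in 𝓝 u, ‖(‖w‖⁻¹) • w - (‖u‖⁻¹) • u‖ < η := by
      refine hc.eventually_lt continuousAt_const ?_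
      simpa using hη
    exact h1.and (eventually_ne_nhds hu)
  obtain ⟨V, hVs, hVo, huV⟩ := eventually_nhds_iff.mp hU
  obtain ⟨w, hwV, hwD⟩ := hD2.inter_open_nonempty V hVo ⟨u, huV⟩
  -- approximation
  have ht := tend (fun j => ∑ l, Lat.M l j * w l)
  rw [phi_surj] at ht
  have hev : ∀ᶠ N : ℕ in atTop, (N : ℝ)⁻¹ • rv (rd (fun j => ∑ l, Lat.M l j * w l) N) ∈
      V ∩ {w : E n | ∀ g ∈ Bx, dot g w ≠ 0} :=
    ht.eventually ((hVo.inter hD1).mem_nhds ⟨hwV, hwD⟩)
  obtain ⟨N, hN1, hN2⟩ := (hev.and (eventually_ge_atTop 1)).exists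
  set q1 : Fin n → ℤ := rd (fun j => ∑ l, Lat.M l j * w l) N with hq1
  have hNp : (0 : ℝ) < (N : ℝ)⁻¹ := by
    have : (0 : ℝ) < N := by exact_mod_cast hN2
    positivity
  obtain ⟨hNV, hND⟩ := hN1
  have hrq : rv q1 ≠ 0 := by
    intro h
    have := (hVs _ hNV).2
    rw [h, smul_zero] at this
    exact this rfl
  have hq0 : q1 ≠ 0 := by
    intro h
    rw [h, rv_zero] at hrq
    exact hrq rfl
  have hgq : ∀ g ∈ Bx, dot g (rv q1) ≠ 0 := by
    intro g hg h
    have := hND g hg
    rw [dot_smul, h, mul_zero] at this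
    exact this rfl
  have hdir : ‖(‖rv q1‖⁻¹) • rv q1 - (‖u‖⁻¹) • u‖ < η := by
    have := (hVs _ hNV).1
    rwa [dir_smul hNp] at this
  -- choose K
  have hK1 : ∀ᶠ K : ℕ in atTop, ∀ g ∈ Bx, 1 ≤ (K : ℝ) * |dot g (rv q1)| := by
    rw [Filter.eventually_all_finset]
    intro g hg
    have h1 : 0 < |dot g (rv q1)| := abs_pos.mpr (hgq g hg)
    have h2 : Tendsto (fun K : ℕ => (K : ℝ) * |dot g (rv q1)|) atTop atTop :=
      tendsto_natCast_atTop_atTop.atTop_mul_const h1
    exact h2.eventually_ge_atTop 1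
  have hS : 0 < dot q1 (rv q1) := dot_self_pos hq0
  have hK2 : ∀ᶠ K : ℕ in atTop, ∀ g ∈ Bx, 1 ≤ (K : ℝ) * dot q1 (rv q1) - |dot g (rv q1)| := by
    rw [Filter.eventually_all_finset]
    intro g hg
    have h2 : Tendsto (fun K : ℕ => (K : ℝ) * dot q1 (rv q1)) atTop atTop :=
      tendsto_natCast_atTop_atTop.atTop_mul_const hS
    filter_upwards [h2.eventually_ge_atTop (1 + |dot g (rv q1)|)] with K hK
    linarith
  have hK3 : ∀ᶠ K : ℕ in atTop, 1 ≤ (K : ℝ) * ‖rv q1‖ := by
    have h2 : Tendsto (fun K : ℕ => (K : ℝ) * ‖rv q1‖) atTop atTop :=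
      tendsto_natCast_atTop_atTop.atTop_mul_const (norm_pos_iff.mpr hrq)
    exact h2.eventually_ge_atTop 1
  have hK4 : ∀ᶠ K : ℕ in atTop, 1 ≤ (K : ℝ) * dot q1 (rv q1) := by
    have h2 : Tendsto (fun K : ℕ => (K : ℝ) * dot q1 (rv q1)) atTop atTop :=
      tendsto_natCast_atTop_atTop.atTop_mul_const hS
    exact h2.eventually_ge_atTop 1
  obtain ⟨K, ⟨⟨⟨⟨k1, k2⟩, k3⟩, k4⟩, k5⟩⟩ := ((((hK1.and hK2).and hK3).and hK4).and (eventually_ge_atTop 1)).exists
  have hKr : (1 : ℝ) ≤ (K : ℝ) := by exact_mod_cast k5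
  have hKp : (0 : ℝ) < (K : ℝ) := by linarith
  have erv : rv ((K : ℤ) • q1) = (K : ℝ) • rv q1 := by
    rw [rv_smul]
    push_cast
    rfl
  refine ⟨(K : ℤ) • q1, ?_, ?_, ?_, ?_⟩
  · intro h
    rw [h, rv_zero] at erv
    have := smul_eq_zero.mp erv.symm
    rcases this with h1 | h1
    · linarith
    · exact hrq h1
  · intro f hf ⟨g, l, hg, hl, hfe⟩
    have hfe' : f = g + l • ((K : ℤ) • q1) := by
      rw [hfe]
      funext i
      simp
    rw [hfe', erv, dot_add_left, dot_smul_left, dot_smul_left, dot_smul, dot_smul]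
    by_cases hl0 : l = 0
    · subst hl0
      have hg0 : g ≠ 0 := by
        intro h
        apply hf
        rw [hfe', h]
        simp
      have := k1 g (hBm g hg0 hg)
      simp only [Int.cast_zero, zero_mul, add_zero]
      rw [abs_mul, abs_of_pos hKp]
      exact this
    · have hl1 : (1 : ℝ) ≤ |(l : ℝ)| := by
        have : 1 ≤ |l| := Int.one_le_abs hl0
        exact_mod_cast this
      have hmain : |dot g (rv q1)| + 1 ≤ (K : ℝ) * dot q1 (rv q1) := by
        by_cases hg0 : g = 0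
        · subst hg0
          have : dot (0 : Fin n → ℤ) (rv q1) = 0 := by
            simp [dot, rv_zero]
          rw [this, abs_zero, zero_add]
          exact k4
        · have := k2 g (hBm g hg0 hg)
          linarith
      have e1 : (K : ℝ) * dot g (rv q1) + l * (((K : ℤ) : ℝ) * ((K : ℝ) * dot q1 (rv q1))) =
          (K : ℝ) * (dot g (rv q1) + l * ((K : ℝ) * dot q1 (rv q1))) := by
        push_cast
        ring
      rw [e1, abs_mul, abs_of_pos hKp]
      have h5 : |(l : ℝ) * ((K : ℝ) * dot q1 (rv q1))| - |dot g (rv q1)| ≤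
          |dot g (rv q1) + l * ((K : ℝ) * dot q1 (rv q1))| := by
        have := abs_sub_abs_le_abs_sub ((l : ℝ) * ((K : ℝ) * dot q1 (rv q1))) (-dot g (rv q1))
        rw [abs_neg] at this
        refine this.trans (le_of_eq ?_)
        congr 1
        ring
      have h6 : (K : ℝ) * dot q1 (rv q1) ≤ |(l : ℝ) * ((K : ℝ) * dot q1 (rv q1))| := by
        rw [abs_mul, abs_of_pos (by positivity : (0 : ℝ) < (K : ℝ) * dot q1 (rv q1))]
        exact le_mul_of_one_le_left (by positivity) hl1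
      have h7 : 1 ≤ |dot g (rv q1) + l * ((K : ℝ) * dot q1 (rv q1))| := by linarith
      calc (1 : ℝ) = 1 * 1 := by ring
        _ ≤ (K : ℝ) * |dot g (rv q1) + l * ((K : ℝ) * dot q1 (rv q1))| :=
          mul_le_mul hKr h7 zero_le_one hKp.le
  · rw [erv, norm_smul, Real.norm_eq_abs, abs_of_pos hKp]
    exact k3
  · rw [erv, dir_smul hKp]
    exact hdir.le

/-- leaf PA -/
theorem pa : S_PA := by
  classical
  intro n _ hn q η hη
  set a : E n := tox (rv q) with ha
  -- a real vector orthogonal to `a`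
  have hex : ∃ e : E n, e ≠ 0 ∧ ∑ j, e j * a j = 0 := by
    let i0 : Fin n := ⟨0, by omega⟩
    let i1 : Fin n := ⟨1, by omega⟩
    have h01 : i0 ≠ i1 := by
      intro h
      have := congrArg Fin.val h
      simp [i0, i1] at this
    by_cases h : a i0 = 0
    · refine ⟨Pi.single i0 1, ?_, ?_⟩
      · intro hc
        have := congrFun hc i0
        simp at this
      · simp [Pi.single_apply, h]
    · refine ⟨Pi.single i0 (a i1) - Pi.single i1 (a i0), ?_, ?_⟩
      · intro hc
        have := congrFun hc i1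
        simp [h01.symm] at this
        exact h this
      · simp only [Pi.sub_apply, sub_mul, Finset.sum_sub_distrib, Pi.single_apply, ite_mul, zero_mul,
          Finset.sum_ite_eq', Finset.sum_ite_eq, Finset.mem_univ, if_true]
        ring
  obtain ⟨e, he0, he⟩ := hex
  have hphi : phi e ≠ 0 := fun h => he0 (phi_inj h)
  have hlim : Tendsto (fun N : ℕ => ‖(N : ℝ)⁻¹ • rv (rd e N)‖) atTop (𝓝 ‖phi e‖) := (tend e).norm
  have hpos : 0 < ‖phi e‖ := norm_pos_iff.mpr hphi
  have h1 : ∀ᶠ N : ℕ in atTop, ‖phi e‖ / 2 < ‖(N : ℝ)⁻¹ • rv (rd e N)‖ :=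
    hlim.eventually (eventually_gt_nhds (by linarith))
  set A : ℝ := ∑ j, |a j| with hA
  have hA0 : 0 ≤ A := Finset.sum_nonneg fun _ _ => abs_nonneg _
  have h2 : ∀ᶠ N : ℕ in atTop, 1 + A / η ≤ (N : ℝ) * (‖phi e‖ / 2) := by
    have : Tendsto (fun N : ℕ => (N : ℝ) * (‖phi e‖ / 2)) atTop atTop :=
      tendsto_natCast_atTop_atTop.atTop_mul_const (by linarith)
    exact this.eventually_ge_atTop _
  obtain ⟨N, ⟨n1, n2⟩, n3⟩ := ((h1.and h2).and (eventually_ge_atTop 1)).exists
  have hNp : (0 : ℝ) < N := by exact_mod_cast n3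
  have hAη : 0 ≤ A / η := div_nonneg hA0 hη.le
  have hbig : 1 + A / η ≤ ‖rv (rd e N)‖ := by
    rw [norm_smul, Real.norm_eq_abs, abs_of_pos (inv_pos.mpr hNp)] at n1
    have : (N : ℝ) * (‖phi e‖ / 2) ≤ (N : ℝ) * ((N : ℝ)⁻¹ * ‖rv (rd e N)‖) :=
      mul_le_mul_of_nonneg_left n1.le hNp.le
    rw [← mul_assoc, mul_inv_cancel₀ hNp.ne', one_mul] at this
    linarith
  refine ⟨rd e N, ?_, by linarith, ?_⟩
  · intro h
    rw [h, rv_zero, norm_zero] at hbig
    linarith
  · have h3 : dot (rd e N) (rv q) = ∑ j, (((rd e N j : ℤ) : ℝ) - N * e j) * a j := by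
      rw [dot_eq_tox]
      have : ∑ j, (((rd e N j : ℤ) : ℝ) - N * e j) * a j = ∑ j, ((rd e N j : ℤ) : ℝ) * a j - N * ∑ j, e j * a j := by
        rw [Finset.mul_sum, ← Finset.sum_sub_distrib]
        exact Finset.sum_congr rfl fun j _ => by ring
      rw [this, he, mul_zero, sub_zero]
    have h4 : |dot (rd e N) (rv q)| ≤ A := by
      rw [h3]
      refine (Finset.abs_sum_le_sum_abs _ _).trans ?_
      refine Finset.sum_le_sum fun j _ => ?_
      rw [abs_mul]
      have e2 : |((rd e N j : ℤ) : ℝ) - N * e j| ≤ 1 := by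
        rw [abs_le]
        constructor
        · have := Int.lt_floor_add_one ((N : ℝ) * e j)
          simp only [rd]
          linarith
        · have := Int.floor_le ((N : ℝ) * e j)
          simp only [rd]
          linarith
      calc |((rd e N j : ℤ) : ℝ) - N * e j| * |a j| ≤ 1 * |a j| :=
            mul_le_mul_of_nonneg_right e2 (abs_nonneg _)
        _ = |a j| := one_mul _
    calc |dot (rd e N) (rv q)| ≤ A := h4
      _ = η * (A / η) := by field_simp
      _ ≤ η * ‖rv (rd e N)‖ := by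
        refine mul_le_mul_of_nonneg_left ?_ hη.le
        linarith

/-- leaf QA -/
theorem t : S_QA := qa

end Pool.Agent.K9h32.SM.QA

/-- leaf PA -/
theorem Pool.Agent.K9h32.SM.PA.t : Pool.Agent.K9h32.SM.S_PA := Pool.Agent.K9h32.SM.QA.pa

end
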