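import Pool.Agent.K9h32.SM.Step4
import Pool.Agent.K9h32.SM.QA

/-!
# Leaf STEP
-/

set_option autoImplicit false

open Set Filter Topology
open scoped ContDiff NNReal

noncomputable section

namespace Pool.Agent.K9h32.SM

open Pool.Agent.N980.TL
open Pool.Agent.K9h32.SP (Sol bt Chi UHd)

theorem Step.mono {n N : ℕ} [Lat n] {k : ℕ} {D : Trig n N} {p q : Fin n → ℤ} {w0 : List (TA n)} {A : ℝ → ℝ → ℝ}
    {χ : Fin 3 → ℝ → ℝ} {b' : ℝ → ℝ} {δ : ℝ} {sg mu κ a b κf : ℝ} {T : ℕ} {c1 lam0 lam1 c' C η : ℝ}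
    (h : Step k D p q w0 A χ b' δ sg mu κ a b κf T c1 lam0 c' C η) (h0 : 0 ≤ lam0) (h1 : lam0 ≤ lam1) :
    Step k D p q w0 A χ b' δ sg mu κ a b κf T c1 lam1 c' C η :=
  fun m Λ hΛ => h m Λ ((pow_le_pow_left₀ h0 h1 _).trans hΛ)

theorem l1_le {n : ℕ} [Lat n] (R : ℕ) : ∃ K : ℝ, 0 ≤ K ∧ ∀ f : Fin n → ℤ, (∀ i, |f i| ≤ R) → l1 f ≤ K := by
  obtain ⟨Kw, hKw⟩ : ∃ Kw : ℝ, Kw = ∑ i : Fin n, ∑ j : Fin n, |Lat.W j i| := ⟨_, rfl⟩
  refine ⟨Kw * R, ?_, fun f hf => ?_⟩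
  · rw [hKw]
    exact mul_nonneg (Finset.sum_nonneg fun i _ => Finset.sum_nonneg fun j _ => abs_nonneg _) (Nat.cast_nonneg _)
  · rw [hKw, Finset.sum_mul]
    unfold l1
    refine Finset.sum_le_sum fun i _ => ?_
    rw [Finset.sum_mul]
    unfold rv
    refine (Finset.abs_sum_le_sum_abs _ _).trans (Finset.sum_le_sum fun j _ => ?_)
    rw [abs_mul]
    refine mul_le_mul_of_nonneg_left ?_ (abs_nonneg _)
    have h2 : ((|f j| : ℤ) : ℝ) ≤ ((R : ℤ) : ℝ) := by exact_mod_cast hf j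
    rw [Int.cast_abs] at h2
    exact_mod_cast h2

theorem Stp.t : S_GATE → S_PASS → S_STEP := by
  intro hGATE hPASS n N _ D k B hn hB u hu η hη
  obtain ⟨R1, w0, hw0, hG⟩ := hGATE n N D k B hB
  obtain ⟨R2, hP⟩ := hPASS n N D w0 (k + 3) hw0
  obtain ⟨q, hq0, hqn, hq1, hqu⟩ := QA.t n (R1 + R2 + 1) (by omega) u hu η hη
  have hNR : NonRes R1 q := by
    rintro f hf ⟨g, l, hg, hl, e⟩
    refine hqn f hf ⟨g, l, fun i => (hg i).trans ?_, hl.trans ?_, e⟩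
    · push_cast; omega
    · push_cast; omega
  have hR2 : ∀ f : Fin n → ℤ, f ≠ 0 → (∀ i, |f i| ≤ R2) → 1 ≤ |dot f (rv q)| := by
    intro f hf h
    refine hqn f hf ⟨f, 0, fun i => (h i).trans ?_, by simp; positivity, by funext i; simp⟩
    push_cast; omega
  obtain ⟨𝓕, e0, hq𝓕, hWE, hF, hδ⟩ := hG q hq0 hNR
  -- the constants
  obtain ⟨K𝓕, hK𝓕0, hK𝓕⟩ := l1_bd 𝓕
  obtain ⟨K2, hK20, hK2⟩ := l1_le (n := n) R2
  have hl1q := l1_nonneg q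
  obtain ⟨K1, hK1⟩ : ∃ K1 : ℝ, K1 = K𝓕 + K2 := ⟨_, rfl⟩
  have hK10 : 0 ≤ K1 := by rw [hK1]; positivity
  have hK𝓕' : ∀ f ∈ 𝓕, l1 f ≤ K1 := fun f hf => (hK𝓕 f hf).trans (by rw [hK1]; linarith)
  have hKR : ∀ f : Fin n → ℤ, (∀ i, |f i| ≤ R2) → l1 f ≤ K1 := fun f hf => (hK2 f hf).trans (by rw [hK1]; linarith)
  obtain ⟨c1, hc1⟩ : ∃ c1 : ℝ, c1 = min (1 / 32) (min (1 / (16 * (K1 + 1))) (η / 2)) := ⟨_, rfl⟩
  have hc10 : 0 < c1 := by rw [hc1]; exact lt_min (by norm_num) (lt_min (by positivity) (by positivity))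
  have hc132 : c1 ≤ 1 / 32 := by rw [hc1]; exact min_le_left _ _
  have hc1η : c1 ≤ η / 2 := by rw [hc1]; exact (min_le_right _ _).trans (min_le_right _ _)
  have hc1K : c1 * K1 ≤ 1 / 16 := by
    have h1 : c1 ≤ 1 / (16 * (K1 + 1)) := by rw [hc1]; exact (min_le_right _ _).trans (min_le_left _ _)
    refine (mul_le_mul_of_nonneg_right h1 hK10).trans ?_
    rw [div_mul_eq_mul_div, div_le_div_iff₀ (by positivity) (by norm_num)]
    linarith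
  obtain ⟨p, hp0, hp1, hpq⟩ := PA.t n hn q c1 hc10
  have hN : NO p q c1 := ⟨hp1, hq1, hpq, hc10.le, by linarith⟩
  refine ⟨p, q, w0, hp0, hp1, hq1, hqu, fun ε A χ T sg mu κ ρ a b aj bj G hU hgf => ?_⟩
  obtain ⟨Cf, hCf, hgfc⟩ := hgf
  obtain ⟨hT, hsg, hsg1, hmu, hmu1, hκ, hκ1, hρ, hρ1, ha, hb, hab, hAs, hAp, -, hχs, hχp, hA0, -⟩ := id hU
  have hA : SP2 A := ⟨hAs, hAp⟩
  have hpp := pp_pos hp1
  have hT1 : (1 : ℝ) ≤ T := by
    have : 1 ≤ T := by omega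
    exact_mod_cast this
  have hpi := Real.pi_gt_three
  obtain ⟨κf, hκf⟩ : ∃ κf : ℝ, κf = 1 / (8 * Real.pi * (l1 q + 1)) := ⟨_, rfl⟩
  have hκf0 : 0 < κf := by rw [hκf]; positivity
  have hκf1 : κf ≤ 1 := by
    rw [hκf, div_le_one (by positivity)]
    nlinarith
  have hκf2 : 2 * Real.pi * (l1 q * κf) ≤ 1 / 4 := by
    have e : 2 * Real.pi * (l1 q * κf) = l1 q / (l1 q + 1) * (1 / 4) := by
      rw [hκf]; field_simp; ring
    rw [e]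
    have : l1 q / (l1 q + 1) ≤ 1 := by rw [div_le_one (by positivity)]; linarith
    linarith
  obtain ⟨δ1, hδ10, hst⟩ := stage hw0 hWE hB hN hF hc10 hc1K hc1K hK10 hK𝓕' hU hCf hgfc hκf0 hκf1 hκf2 hc132
    (ηd := η) (by linarith)
  refine ⟨δ1, hδ10, fun δ hδp hδ1 => ?_⟩
  have hPD : PassD D w0 (k + 3) 𝓕 R2 p (fun s t => A s t / dot p (rv p)) T := fun K =>
    hP 𝓕 e0 hWE p (fun s t => A s t / dot p (rv p)) T K hp0 hT1 (hAs.div_const _)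
      (fun s t m l => by simp only [hAp])
  obtain ⟨lamw, c', hlamw, hc', hgrow⟩ := grow hw0 hWE hB hN hF hR2 (hδ δ hδp) hA hA0 hT hPD hc10 hc1K hc1K hK𝓕'
    (hK𝓕' q hq𝓕) hKR
  obtain ⟨lam0, C, hlam0, hC, hstep⟩ := hst δ hδp hδ1 lamw c' hlamw hc' hgrow
  have hab0 := hab 0
  obtain ⟨lami, hlami, hinit⟩ := initial hw0 hWE hN hF hc10 hc1K hc1K hK10 hK𝓕' (T := T) (a := a) (b := b)
    hsg hsg1 hmu hκ hκf0 (by linarith [hab0.1, hab0.2.1, hab0.2.2])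
  refine ⟨κf, c1, lam0 + lami, c', C, by linarith, hc', hC, fun lam hlam => hinit lam (by linarith),
    hstep.mono (by linarith) (by linarith)⟩

end Pool.Agent.K9h32.SM
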