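import Pool.Agent.K9h32.SM.Iter
import Pool.Agent.K9h32.SM.Fin
import Pool.Agent.K9h32.SM.HJT
import Pool.Agent.K9h32.SM.Gate
import Pool.Agent.K9h32.SM.Pass
import Pool.Agent.K9h32.SM.Step
import Pool.Agent.K9h32.SM.GenT
import Pool.Agent.K9h32.SP.UH

/-!
# The assembly of the leaves
-/

set_option autoImplicit false

open Set Filter Topology
open scoped ContDiff

noncomputable section

namespace Pool.Agent.K9h32.SM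

open Pool.Agent.N980.TL

/-- the theorem from the leaves FRC, HJK -/
theorem all_of (hF : S_FRC) (hK : S_HJK) : ∀ (n k : ℕ), 2 ≤ n → 2 ≤ k →
    ∀ (B : Matrix (Fin n) (Fin n) ℝ), B.PosDef → ∀ (R : ℝ)
    (L : (Fin n → ℝ) → (Fin n → ℝ) → ℝ → ℝ) (f₀ : (Fin n → ℝ) → ℝ → ℝ), HJ.PotK k f₀ →
    (∀ x v t, R ≤ ‖v‖ → L x v t = (∑ i, ∑ j, B i j * v i * v j) / 2 + f₀ x t) →
    ∀ f₁ : (Fin n → ℝ) → ℝ → ℝ, HJ.PotK k f₁ → ∀ u : Fin n → ℝ, u ≠ 0 → ∀ ε : ℝ, 0 < ε →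
    ∃ (f : (Fin n → ℝ) → ℝ → ℝ) (γ : ℝ → Fin n → ℝ) (c : ℝ), HJ.PotK k f ∧ HJ.CloseK k ε f₁ f ∧ 0 < c ∧
      (∀ t, 0 ≤ t → c * t ^ (1 / ((k : ℝ) + 3)) ≤ ‖deriv γ t‖) ∧ (∀ t, 0 ≤ t → R < ‖deriv γ t‖) ∧
      (∀ t, 0 ≤ t → ‖(‖deriv γ t‖⁻¹) • deriv γ t - (‖u‖⁻¹) • u‖ ≤ ε) ∧
      ∀ t, 0 < t → EulerLagrange (fun x v t => L x v t + f x t) γ t :=
  Fin3.t (Iter.t SP.UH.t hF (Stp.t (Gate.t HJT.t) (Pass.t hK)))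

end Pool.Agent.K9h32.SM
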