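import Pool.Agent.K9h32.SM.StmA

/-!
# Leaf EXA: the exact velocity
-/

set_option autoImplicit false

open Set Filter Topology
open scoped ContDiff NNReal

noncomputable section

namespace Pool.Agent.K9h32.SM

open Pool.Agent.N980.TL

variable {n N : ℕ} [Lat n]

/-- a common bound -/
theorem l1_bd (𝓕 : List (Fin n → ℤ)) : ∃ K : ℝ, 0 ≤ K ∧ ∀ f ∈ 𝓕, l1 f ≤ K := by
  refine ⟨(𝓕.map l1).sum, List.sum_nonneg fun x hx => ?_, fun f hf => ?_⟩
  · obtain ⟨f, -, rfl⟩ := List.mem_map.1 hx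
    exact l1_nonneg f
  · refine List.single_le_sum (fun x hx => ?_) _ (List.mem_map_of_mem hf)
    obtain ⟨f, -, rfl⟩ := List.mem_map.1 hx
    exact l1_nonneg f

/-- regular velocities are stable -/
theorem Reg.near {𝓕 : List (Fin n → ℤ)} {K lam r : ℝ} (hK : ∀ f ∈ 𝓕, l1 f ≤ K) {P0 P : E n}
    (h : Reg 𝓕 lam P0) (hr : ‖P - P0‖ ≤ r) (hl : K * r ≤ lam / 4) : Reg 𝓕 (lam / 2) P := by
  intro f hf
  have h1 := h f hf
  have h2 := dot_le f (P - P0)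
  rw [dot_sub] at h2
  have h3 : |dot f P0| ≤ |dot f P| + |dot f P - dot f P0| := by
    have := abs_sub_abs_le_abs_sub (dot f P0) (dot f P)
    rw [abs_sub_comm (dot f P) (dot f P0)]
    linarith
  have h4 : l1 f * ‖P - P0‖ ≤ K * r :=
    mul_le_mul (hK f hf) hr (norm_nonneg _) ((l1_nonneg f).trans (hK f hf))
  linarith

/-- the Lipschitz bound of `gw` in `P` -/
theorem gw_lipP {w0 : List (TA n)} {𝓕 : List (Fin n → ℤ)} (hw : W0 w0) (hg : Good 𝓕 w0) (T : ℝ) :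
    ∃ C : ℝ, 0 ≤ C ∧ ∀ lam : ℝ, 1 ≤ lam → ∀ P P' : E n, Reg 𝓕 lam P → Reg 𝓕 lam P' →
      ∀ t ∈ Icc (0 : ℝ) T, ∀ x : E n, ‖gw w0 x P t - gw w0 x P' t‖ ≤ C / lam ^ 2 * ‖P - P'‖ := by
  have h1 : ∃ C, 0 ≤ C ∧ ∀ i : Fin n, ∀ lam : ℝ, 1 ≤ lam → ∀ P P' : E n, Reg 𝓕 lam P → Reg 𝓕 lam P' →
      ∀ t ∈ Icc (0 : ℝ) T, ∀ x : E n, |tev (tdx i w0) x P t - tev (tdx i w0) x P' t| ≤ C / lam ^ 2 * ‖P - P'‖ := by
    refine exists_bound (P := fun (i : Fin n) C => ∀ lam : ℝ, 1 ≤ lam → ∀ P P' : E n, Reg 𝓕 lam P → Reg 𝓕 lam P' →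
      ∀ t ∈ Icc (0 : ℝ) T, ∀ x : E n, |tev (tdx i w0) x P t - tev (tdx i w0) x P' t| ≤ C / lam ^ 2 * ‖P - P'‖) ?_ ?_
    · intro i C C' hC h lam hl P P' hP hP' t ht x
      have hl0 : (0 : ℝ) < lam := by linarith
      exact (h lam hl P P' hP hP' t ht x).trans (by gcongr)
    · intro i
      obtain ⟨C, hC, h⟩ := tev_lip (m := 1) (tdx i w0) (good_tdx hg i) (len_tdx hw.2.1 i) 0 T
      exact ⟨C, hC, fun lam hl P P' hP hP' t ht x => h lam hl P P' hP hP' x t ht⟩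
  obtain ⟨C, hC, h⟩ := h1
  refine ⟨C, hC, fun lam hl P P' hP hP' t ht x => ?_⟩
  refine (pi_norm_le_iff_of_nonneg (by positivity)).2 fun i => ?_
  exact h i lam hl P P' hP hP' t ht x

theorem exa {D : Trig n N} {w0 e0 : List (TA n)} {𝓕 : List (Fin n → ℤ)} {M : ℕ} (hw : W0 w0)
    (hW : WE D w0 M 𝓕 e0) (T : ℝ) :
    ∃ lam0 : ℝ, 1 ≤ lam0 ∧ ∀ lam : ℝ, lam0 ≤ lam → ∀ P0 : E n, Reg 𝓕 lam P0 → ∀ (x v : E n) (t η : ℝ),
      t ∈ Icc (0 : ℝ) T → 0 ≤ η → η ≤ 1 / 2 → ‖v - P0 - gw w0 x P0 t‖ ≤ η →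
      ∃ P : E n, v = P + gw w0 x P t ∧ ‖P - P0‖ ≤ 2 * η := by
  obtain ⟨C, hC, hlip⟩ := gw_lipP hw hW.1 T
  obtain ⟨K, hK0, hK⟩ := l1_bd 𝓕
  refine ⟨4 * K + 8 * C + 2, by linarith, fun lam hl P0 hP0 x v t η ht hη hη1 hv => ?_⟩
  have hl1 : 1 ≤ lam / 2 := by linarith
  have hreg : ∀ P : E n, ‖P - P0‖ ≤ 1 → Reg 𝓕 (lam / 2) P := fun P hP =>
    Reg.near hK hP0 hP (by linarith)
  have hl2 : C / (lam / 2) ^ 2 ≤ 1 / 2 := by
    rw [div_le_iff₀ (by positivity)]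
    nlinarith
  have hL : ∀ P P' : E n, ‖P - P0‖ ≤ 1 → ‖P' - P0‖ ≤ 1 → ‖gw w0 x P t - gw w0 x P' t‖ ≤ 1 / 2 * ‖P - P'‖ := by
    intro P P' hP hP'
    refine (hlip (lam / 2) hl1 P P' (hreg P hP) (hreg P' hP') t ht x).trans ?_
    exact mul_le_mul_of_nonneg_right hl2 (norm_nonneg _)
  obtain ⟨g, hg⟩ : ∃ g : E n → E n, g = fun P => v - gw w0 x P t := ⟨_, rfl⟩
  have hmem : ∀ P, P ∈ Metric.closedBall P0 (2 * η) → ‖P - P0‖ ≤ 2 * η := fun P hP => by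
    rwa [mem_closedBall_iff_norm] at hP
  have h00 : ‖P0 - P0‖ ≤ 1 := by simp
  have hmaps : MapsTo g (Metric.closedBall P0 (2 * η)) (Metric.closedBall P0 (2 * η)) := by
    intro P hP
    have h1 := hmem P hP
    rw [mem_closedBall_iff_norm, hg]
    have e : v - gw w0 x P t - P0 = (v - P0 - gw w0 x P0 t) + (gw w0 x P0 t - gw w0 x P t) := by abel
    show ‖v - gw w0 x P t - P0‖ ≤ _
    rw [e]
    refine (norm_add_le _ _).trans ?_
    have h2 := hL P0 P h00 (by linarith)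
    rw [norm_sub_rev P0 P] at h2
    linarith
  have hcon : ContractingWith (1 / 2 : ℝ≥0) (hmaps.restrict g _ _) := by
    refine ⟨?_, ?_⟩
    · rw [← NNReal.coe_lt_coe]
      push_cast
      norm_num
    · refine LipschitzWith.of_dist_le_mul fun P P' => ?_
      rw [Subtype.dist_eq, Subtype.dist_eq, dist_eq_norm, dist_eq_norm]
      have h1 := hmem _ P.2
      have h2 := hmem _ P'.2
      have h3 := hL P P' (by linarith) (by linarith)
      have e : ((hmaps.restrict g _ _ P : E n)) - (hmaps.restrict g _ _ P' : E n) =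
          gw w0 x P' t - gw w0 x P t := by
        rw [MapsTo.val_restrict_apply, MapsTo.val_restrict_apply, hg]
        show v - gw w0 x P t - (v - gw w0 x P' t) = _
        abel
      rw [e, norm_sub_rev]
      push_cast
      linarith
  obtain ⟨P, hP, hfix, -⟩ := hcon.exists_fixedPoint' (Metric.isClosed_closedBall.isComplete) hmaps
    (Metric.mem_closedBall_self (by positivity)) (edist_ne_top P0 (g P0))
  refine ⟨P, ?_, hmem P hP⟩
  have h1 : g P = P := hfix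
  rw [hg] at h1
  have h2 : v - gw w0 x P t = P := h1
  exact sub_eq_iff_eq_add.1 h2

end Pool.Agent.K9h32.SM
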