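import Pool.Agent.K9h32.SM.Lat

/-!
# Values of sums of atoms with smooth coefficients: derivatives along curves, bounds
-/

set_option autoImplicit false

open Set Filter Topology
open scoped ContDiff

noncomputable section

namespace Pool.Agent.K9h32.SM

open Pool.Agent.N980.TL

variable {n : ℕ} [Lat n]

@[simp] theorem tev_nil (x v : E n) (t : ℝ) : tev ([] : List (TA n)) x v t = 0 := rfl

@[simp] theorem tev_cons (a : TA n) (L : List (TA n)) (x v : E n) (t : ℝ) :
    tev (a :: L) x v t = a.ev x v t + tev L x v t := by simp [tev]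

/-- one atom of `tdx` -/
def ax (i : Fin n) (a : TA n) : TA n :=
  { a with a := fun t => a.a t * (2 * Real.pi * rv a.k i), φ := a.φ + Real.pi / 2 }

/-- one atom of `tdt` -/
def at' (a : TA n) : TA n := { a with a := deriv a.a }

theorem tdx_cons (i : Fin n) (a : TA n) (L : List (TA n)) : tdx i (a :: L) = ax i a :: tdx i L := rfl
theorem tdt_cons (a : TA n) (L : List (TA n)) : tdt (a :: L) = at' a :: tdt L := rfl

/-- the product of the inverses -/
def tp (F : List (Fin n → ℤ)) (v : E n) : ℝ := (F.map fun f => (dot f v)⁻¹).prod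

theorem tp_nil (v : E n) : tp ([] : List (Fin n → ℤ)) v = 1 := rfl

theorem tp_cons (f : Fin n → ℤ) (F : List (Fin n → ℤ)) (v : E n) : tp (f :: F) v = (dot f v)⁻¹ * tp F v := by
  simp [tp]

theorem ev_eq (a : TA n) (x v : E n) (t : ℝ) :
    a.ev x v t = a.a t * tp a.F v * Real.cos (2 * Real.pi * dot a.k x + a.φ) := rfl

theorem ev_ax (i : Fin n) (a : TA n) (x v : E n) (t : ℝ) :
    (ax i a).ev x v t =
      -(a.a t * tp a.F v * (2 * Real.pi * rv a.k i) * Real.sin (2 * Real.pi * dot a.k x + a.φ)) := by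
  have e : (ax i a).ev x v t = a.a t * (2 * Real.pi * rv a.k i) * tp a.F v *
      Real.cos (2 * Real.pi * dot a.k x + (a.φ + Real.pi / 2)) := rfl
  rw [e, ← add_assoc, Real.cos_add_pi_div_two]
  ring

theorem good_cons {𝓕 : List (Fin n → ℤ)} {a : TA n} {L : List (TA n)} (h : Good 𝓕 (a :: L)) :
    (ContDiff ℝ ∞ a.a ∧ ∀ f ∈ a.F, f ∈ 𝓕) ∧ Good 𝓕 L :=
  ⟨h a List.mem_cons_self, fun b hb => h b (List.mem_cons_of_mem _ hb)⟩

theorem good_tdx {𝓕 : List (Fin n → ℤ)} {L : List (TA n)} (h : Good 𝓕 L) (i : Fin n) : Good 𝓕 (tdx i L) := by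
  intro b hb
  obtain ⟨a, ha, rfl⟩ := List.mem_map.1 hb
  exact ⟨(h a ha).1.mul contDiff_const, (h a ha).2⟩

theorem len_tdx {m : ℕ} {L : List (TA n)} (h : ∀ a ∈ L, m ≤ a.F.length) (i : Fin n) :
    ∀ a ∈ tdx i L, m ≤ a.F.length := by
  intro b hb
  obtain ⟨a, ha, rfl⟩ := List.mem_map.1 hb
  exact h a ha

theorem dot_hasDerivAt (k : Fin n → ℤ) {z : ℝ → E n} {z' : E n} {s : ℝ}
    (hz : ∀ i, HasDerivAt (fun s => z s i) (z' i) s) :
    HasDerivAt (fun s => dot k (z s)) (dot k z') s := by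
  unfold dot
  exact HasDerivAt.fun_sum fun i _ => (hz i).const_mul (rv k i)

/-- the chain rule, `v` frozen -/
theorem tev_hasDerivAt {𝓕 : List (Fin n → ℤ)} (L : List (TA n)) (hL : Good 𝓕 L) (v : E n) {z : ℝ → E n}
    {z' : E n} {s : ℝ} (hz : ∀ i, HasDerivAt (fun s => z s i) (z' i) s) :
    HasDerivAt (fun s => tev L (z s) v s)
      (tev (tdt L) (z s) v s + ∑ i, z' i * tev (tdx i L) (z s) v s) s := by
  induction L with
  | nil =>
    have e : ∀ i : Fin n, tdx i ([] : List (TA n)) = [] := fun i => rfl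
    have e2 : tdt ([] : List (TA n)) = [] := rfl
    simp only [e, e2, tev_nil, mul_zero, Finset.sum_const_zero, add_zero]
    exact hasDerivAt_const _ _
  | cons a L ih =>
    obtain ⟨ha, hL'⟩ := good_cons hL
    have h1 : HasDerivAt (fun s => a.ev (z s) v s)
        ((at' a).ev (z s) v s + ∑ i, z' i * (ax i a).ev (z s) v s) s := by
      have d1 : HasDerivAt a.a (deriv a.a s) s :=
        ((ha.1.differentiable (by simp)) s).hasDerivAt
      have d2 := (((dot_hasDerivAt a.k hz).const_mul (2 * Real.pi)).add_const a.φ).cos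
      have d3 := (d1.mul_const (tp a.F v)).mul d2
      refine d3.congr_deriv ?_
      simp only [ev_ax]
      have e : (at' a).ev (z s) v s = deriv a.a s * tp a.F v *
        Real.cos (2 * Real.pi * dot a.k (z s) + a.φ) := rfl
      rw [e]
      have e3 : ∑ i, z' i * -(a.a s * tp a.F v * (2 * Real.pi * rv a.k i) *
          Real.sin (2 * Real.pi * dot a.k (z s) + a.φ)) =
          -(a.a s * tp a.F v * (2 * Real.pi) * Real.sin (2 * Real.pi * dot a.k (z s) + a.φ)) * dot a.k z' := by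
        have e4 : dot a.k z' = ∑ i, (rv a.k i : ℝ) * z' i := rfl
        rw [e4, Finset.mul_sum]
        refine Finset.sum_congr rfl fun i _ => ?_
        ring
      rw [e3]
      ring
    have h2 := h1.add (ih hL')
    have e : (fun s => tev (a :: L) (z s) v s) = fun s => a.ev (z s) v s + tev L (z s) v s := by
      funext s; exact tev_cons a L _ _ _
    rw [e]
    refine h2.congr_deriv ?_
    simp only [tdx_cons, tdt_cons, tev_cons, mul_add, Finset.sum_add_distrib]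
    ring

theorem Reg.ne {𝓕 : List (Fin n → ℤ)} {lam : ℝ} {v : E n} (hl : 0 < lam) (h : Reg 𝓕 lam v) :
    ∀ f ∈ 𝓕, dot f v ≠ 0 := by
  intro f hf h0
  have := h f hf
  rw [h0, abs_zero] at this
  linarith

theorem tp_le {𝓕 : List (Fin n → ℤ)} {lam : ℝ} {v : E n} (hl : 0 < lam) (h : Reg 𝓕 lam v)
    (F : List (Fin n → ℤ)) (hF : ∀ f ∈ F, f ∈ 𝓕) : |tp F v| ≤ (2 / lam) ^ F.length := by
  induction F with
  | nil => simp [tp_nil]
  | cons f F ih =>
    rw [tp_cons, abs_mul, List.length_cons, pow_succ, mul_comm]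
    have h1 : |(dot f v)⁻¹| ≤ 2 / lam := by
      rw [abs_inv]
      have h2 := h f (hF f List.mem_cons_self)
      have h3 : (0 : ℝ) < lam / 2 := by linarith
      calc |dot f v|⁻¹ ≤ (lam / 2)⁻¹ := inv_anti₀ h3 h2
        _ = 2 / lam := by rw [inv_div]
    have h2 := ih fun g hg => hF g (List.mem_cons_of_mem _ hg)
    exact mul_le_mul h2 h1 (abs_nonneg _) (by positivity)

/-- the sum of the absolute values of a vector of integers -/
def l1 (f : Fin n → ℤ) : ℝ := ∑ i, |(rv f i)|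

theorem l1_nonneg (f : Fin n → ℤ) : 0 ≤ l1 f := Finset.sum_nonneg fun _ _ => abs_nonneg _

theorem dot_le (f : Fin n → ℤ) (v : E n) : |dot f v| ≤ l1 f * ‖v‖ := by
  unfold dot l1
  rw [Finset.sum_mul]
  refine (Finset.abs_sum_le_sum_abs _ _).trans (Finset.sum_le_sum fun i _ => ?_)
  rw [abs_mul]
  exact mul_le_mul_of_nonneg_left (norm_le_pi_norm v i) (abs_nonneg _)

theorem dot_sub (f : Fin n → ℤ) (v w : E n) : dot f (v - w) = dot f v - dot f w := by
  simp [dot, mul_sub, Finset.sum_sub_distrib]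

theorem dot_add (f : Fin n → ℤ) (v w : E n) : dot f (v + w) = dot f v + dot f w := by
  simp [dot, mul_add, Finset.sum_add_distrib]

theorem dot_smul (f : Fin n → ℤ) (c : ℝ) (v : E n) : dot f (c • v) = c * dot f v := by
  simp only [dot, Pi.smul_apply, smul_eq_mul, Finset.mul_sum]
  exact Finset.sum_congr rfl fun i _ => by ring

theorem tp_lip {𝓕 : List (Fin n → ℤ)} {lam K : ℝ} {v w : E n} (hl : 0 < lam) (h : Reg 𝓕 lam v)
    (h' : Reg 𝓕 lam w) (hK : ∀ f ∈ 𝓕, l1 f ≤ K) (hK0 : 0 ≤ K)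
    (F : List (Fin n → ℤ)) (hF : ∀ f ∈ F, f ∈ 𝓕) :
    |tp F v - tp F w| ≤ F.length * K * (2 / lam) ^ (F.length + 1) * ‖v - w‖ := by
  induction F with
  | nil => simp [tp_nil]
  | cons f F ih =>
    have hf := hF f List.mem_cons_self
    have hF' : ∀ g ∈ F, g ∈ 𝓕 := fun g hg => hF g (List.mem_cons_of_mem _ hg)
    have h1 := ih hF'
    have h2 := tp_le hl h' F hF'
    have h3 : (0 : ℝ) < lam / 2 := by linarith
    have hv : |(dot f v)⁻¹| ≤ 2 / lam := by
      rw [abs_inv]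
      calc |dot f v|⁻¹ ≤ (lam / 2)⁻¹ := inv_anti₀ h3 (h f hf)
        _ = 2 / lam := by rw [inv_div]
    have hw : |(dot f w)⁻¹| ≤ 2 / lam := by
      rw [abs_inv]
      calc |dot f w|⁻¹ ≤ (lam / 2)⁻¹ := inv_anti₀ h3 (h' f hf)
        _ = 2 / lam := by rw [inv_div]
    have hd : |(dot f v)⁻¹ - (dot f w)⁻¹| ≤ K * ‖v - w‖ * (2 / lam) ^ 2 := by
      have e : (dot f v)⁻¹ - (dot f w)⁻¹ = -dot f (v - w) * ((dot f v)⁻¹ * (dot f w)⁻¹) := by
        rw [dot_sub]
        have a1 := h.ne hl f hf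
        have a2 := h'.ne hl f hf
        field_simp
        ring
      rw [e, abs_mul, abs_neg, abs_mul]
      have b1 : |dot f (v - w)| ≤ K * ‖v - w‖ :=
        (dot_le f _).trans (mul_le_mul_of_nonneg_right (hK f hf) (norm_nonneg _))
      have b2 : |(dot f v)⁻¹| * |(dot f w)⁻¹| ≤ (2 / lam) ^ 2 := by
        rw [sq]
        exact mul_le_mul hv hw (abs_nonneg _) (by positivity)
      exact mul_le_mul b1 b2 (by positivity) (by positivity)
    rw [tp_cons, tp_cons, List.length_cons]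
    have e : (dot f v)⁻¹ * tp F v - (dot f w)⁻¹ * tp F w =
        (dot f v)⁻¹ * (tp F v - tp F w) + ((dot f v)⁻¹ - (dot f w)⁻¹) * tp F w := by ring
    rw [e]
    refine (abs_add_le _ _).trans ?_
    rw [abs_mul, abs_mul]
    have c1 := mul_le_mul hv h1 (abs_nonneg _) (by positivity)
    have c2 := mul_le_mul hd h2 (abs_nonneg _) (by positivity)
    refine (add_le_add c1 c2).trans (le_of_eq ?_)
    push_cast
    ring

theorem pow_bnd {lam : ℝ} (hl : 1 ≤ lam) {m p : ℕ} (h : m ≤ p) : (2 / lam) ^ p ≤ 2 ^ p / lam ^ m := by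
  rw [div_pow]
  exact div_le_div_of_nonneg_left (by positivity) (by positivity) (pow_le_pow_right₀ hl h)

/-- coefficients are bounded on compact intervals -/
theorem coef_bdd {a : ℝ → ℝ} (ha : ContDiff ℝ ∞ a) (T0 T : ℝ) : ∃ C : ℝ, 0 ≤ C ∧ ∀ t ∈ Icc T0 T, |a t| ≤ C := by
  obtain ⟨C, hC⟩ := (isCompact_Icc (a := T0) (b := T)).exists_bound_of_continuousOn ha.continuous.continuousOn
  exact ⟨max C 0, le_max_right _ _, fun t ht => (hC t ht).trans (le_max_left _ _)⟩

/-- the bound of the values -/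
theorem tev_bnd {𝓕 : List (Fin n → ℤ)} {m : ℕ} (L : List (TA n)) (hL : Good 𝓕 L)
    (hm : ∀ a ∈ L, m ≤ a.F.length) (T0 T : ℝ) : ∃ C : ℝ, 0 ≤ C ∧ ∀ lam : ℝ, 1 ≤ lam → ∀ v : E n, Reg 𝓕 lam v →
      ∀ (x : E n), ∀ t ∈ Icc T0 T, |tev L x v t| ≤ C / lam ^ m := by
  induction L with
  | nil => exact ⟨0, le_refl _, fun lam hl v hv x t ht => by simp⟩
  | cons a L ih =>
    obtain ⟨ha, hL'⟩ := good_cons hL
    obtain ⟨C1, hC1, h1⟩ := ih hL' fun b hb => hm b (List.mem_cons_of_mem _ hb)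
    obtain ⟨A, hA, hA'⟩ := coef_bdd ha.1 T0 T
    refine ⟨A * 2 ^ a.F.length + C1, by positivity, fun lam hl v hv x t ht => ?_⟩
    rw [tev_cons, add_div]
    refine (abs_add_le _ _).trans (add_le_add ?_ (h1 lam hl v hv x t ht))
    rw [ev_eq, abs_mul, abs_mul]
    have h2 := tp_le (by linarith) hv a.F ha.2
    have h3 := (h2.trans (pow_bnd hl (hm a List.mem_cons_self)))
    have h4 : |Real.cos (2 * Real.pi * dot a.k x + a.φ)| ≤ 1 := Real.abs_cos_le_one _
    calc |a.a t| * |tp a.F v| * |Real.cos (2 * Real.pi * dot a.k x + a.φ)|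
        ≤ A * (2 ^ a.F.length / lam ^ m) * 1 :=
          mul_le_mul (mul_le_mul (hA' t ht) h3 (abs_nonneg _) hA) h4 (abs_nonneg _) (by positivity)
      _ = A * 2 ^ a.F.length / lam ^ m := by ring

/-- the Lipschitz bound in `v` -/
theorem tev_lip {𝓕 : List (Fin n → ℤ)} {m : ℕ} (L : List (TA n)) (hL : Good 𝓕 L)
    (hm : ∀ a ∈ L, m ≤ a.F.length) (T0 T : ℝ) : ∃ C : ℝ, 0 ≤ C ∧ ∀ lam : ℝ, 1 ≤ lam → ∀ v w : E n, Reg 𝓕 lam v →
      Reg 𝓕 lam w → ∀ (x : E n), ∀ t ∈ Icc T0 T, |tev L x v t - tev L x w t| ≤ C / lam ^ (m + 1) * ‖v - w‖ := by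
  obtain ⟨K, hK0, hK⟩ : ∃ K : ℝ, 0 ≤ K ∧ ∀ f ∈ 𝓕, l1 f ≤ K := by
    refine ⟨(𝓕.map l1).sum, List.sum_nonneg fun x hx => ?_, fun f hf => ?_⟩
    · obtain ⟨f, -, rfl⟩ := List.mem_map.1 hx
      exact l1_nonneg f
    · refine List.single_le_sum (fun x hx => ?_) _ (List.mem_map_of_mem hf)
      obtain ⟨f, -, rfl⟩ := List.mem_map.1 hx
      exact l1_nonneg f
  induction L with
  | nil => exact ⟨0, le_refl _, fun lam hl v w hv hw x t ht => by simp⟩
  | cons a L ih =>
    obtain ⟨ha, hL'⟩ := good_cons hL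
    obtain ⟨C1, hC1, h1⟩ := ih hL' fun b hb => hm b (List.mem_cons_of_mem _ hb)
    obtain ⟨A, hA, hA'⟩ := coef_bdd ha.1 T0 T
    refine ⟨A * (a.F.length * K * 2 ^ (a.F.length + 1)) + C1, by positivity, fun lam hl v w hv hw x t ht => ?_⟩
    rw [tev_cons, tev_cons, add_div, add_mul]
    have e : a.ev x v t + tev L x v t - (a.ev x w t + tev L x w t) =
        a.a t * (tp a.F v - tp a.F w) * Real.cos (2 * Real.pi * dot a.k x + a.φ) +
          (tev L x v t - tev L x w t) := by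
      rw [ev_eq, ev_eq]; ring
    rw [e]
    refine (abs_add_le _ _).trans (add_le_add ?_ (h1 lam hl v w hv hw x t ht))
    rw [abs_mul, abs_mul]
    have h2 := tp_lip (by linarith) hv hw hK hK0 a.F ha.2
    have h3 : (2 / lam) ^ (a.F.length + 1) ≤ 2 ^ (a.F.length + 1) / lam ^ (m + 1) :=
      pow_bnd hl (by have := hm a List.mem_cons_self; omega)
    have h4 : |Real.cos (2 * Real.pi * dot a.k x + a.φ)| ≤ 1 := Real.abs_cos_le_one _
    have h5 : |tp a.F v - tp a.F w| ≤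
        a.F.length * K * (2 ^ (a.F.length + 1) / lam ^ (m + 1)) * ‖v - w‖ :=
      h2.trans (by gcongr)
    calc |a.a t| * |tp a.F v - tp a.F w| * |Real.cos (2 * Real.pi * dot a.k x + a.φ)|
        ≤ A * (a.F.length * K * (2 ^ (a.F.length + 1) / lam ^ (m + 1)) * ‖v - w‖) * 1 :=
          mul_le_mul (mul_le_mul (hA' t ht) h5 (abs_nonneg _) hA) h4 (abs_nonneg _) (by positivity)
      _ = A * (a.F.length * K * 2 ^ (a.F.length + 1)) / lam ^ (m + 1) * ‖v - w‖ := by ring

end Pool.Agent.K9h32.SM
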