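import Pool.Agent.K9h32.SM.Lat
import Pool.Agent.K9h32.SM.TEV

/-!
# Leaf GATE: tools, the error of the approximate solution, Gronwall
-/

set_option autoImplicit false
set_option linter.unusedSectionVars false

open Set Filter Topology
open scoped ContDiff

noncomputable section

namespace Pool.Agent.K9h32.SM.Gate

open Pool.Agent.N980.TL Pool.Agent.K9h32.SM

variable {n : ℕ} [Lat n] {𝓕 : List (Fin n → ℤ)}

/-- values which agree have the same derivatives -/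
theorem tev_shift {𝓕' : List (Fin n → ℤ)} {L L' : List (TA n)} (hL : Good 𝓕 L) (hL' : Good 𝓕' L') (v : E n)
    (c t : ℝ) (h : ∀ᶠ s in 𝓝 t, ∀ x : E n, tev L x v (s + c) = tev L' x v s) (x : E n) :
    tev (tdt L) x v (t + c) = tev (tdt L') x v t ∧
      ∀ i, tev (tdx i L) x v (t + c) = tev (tdx i L') x v t := by
  have key : ∀ u : E n, tev (tdt L) x v (t + c) + ∑ i, u i * tev (tdx i L) x v (t + c) =
      tev (tdt L') x v t + ∑ i, u i * tev (tdx i L') x v t := by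
    intro u
    set z : ℝ → E n := fun s => x + (s - t) • u with hz
    have hzd : ∀ (s : ℝ) (i : Fin n), HasDerivAt (fun s => z s i) (u i) s := by
      intro s i
      have h1 : HasDerivAt (fun s : ℝ => x i + (s - t) * u i) (1 * u i) s :=
        (((hasDerivAt_id s).sub_const t).mul_const (u i)).const_add (x i)
      rw [one_mul] at h1
      exact h1
    have hzt : z t = x := by simp [hz]
    have H2 := tev_hasDerivAt L' hL' v (z := z) (z' := u) (s := t) (hzd t)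
    have hzd' : ∀ i : Fin n, HasDerivAt (fun s => z (s - c) i) (u i) (t + c) := by
      intro i
      have h1 := hzd (t + c - c) i
      exact HasDerivAt.comp_sub_const (t + c) c h1
    have H1 := tev_hasDerivAt L hL v (z := fun s => z (s - c)) (z' := u) (s := t + c) hzd'
    have H3 := HasDerivAt.comp_add_const t c H1
    simp only [add_sub_cancel_right] at H3
    rw [hzt] at H2 H3
    have H4 : (fun s => tev L (z s) v (s + c)) =ᶠ[𝓝 t] fun s => tev L' (z s) v s :=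
      h.mono fun s hs => hs (z s)
    exact (H3.congr_of_eventuallyEq H4.symm).unique H2
  have k0 := key 0
  simp only [Pi.zero_apply, zero_mul, Finset.sum_const_zero, add_zero] at k0
  refine ⟨k0, fun i => ?_⟩
  classical
  have k1 := key (Pi.single i 1)
  rw [k0] at k1
  have e : ∀ (g : Fin n → ℝ), ∑ j, (Pi.single i (1 : ℝ) : E n) j * g j = g i := by
    intro g
    rw [Finset.sum_eq_single i]
    · simp
    · intro j _ hj
      rw [Pi.single_eq_of_ne hj, zero_mul]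
    · intro hi
      exact absurd (Finset.mem_univ i) hi
  rw [e, e] at k1
  linarith

theorem good_tdt {L : List (TA n)} (h : Good 𝓕 L) : Good 𝓕 (tdt L) := by
  intro b hb
  obtain ⟨a, ha, rfl⟩ := List.mem_map.1 hb
  refine ⟨?_, (h a ha).2⟩
  have h1 : ContDiff ℝ (∞ + 1) a.a := (h a ha).1
  exact (contDiff_succ_iff_deriv.1 h1).2.2

theorem grad_per {N : ℕ} (D : Trig n N) (x : E n) (t : ℝ) (j : Fin n) :
    D.grad x (t + 1) j = D.grad x t j := by
  unfold Trig.grad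
  congr 1
  refine Finset.sum_congr rfl fun μ _ => ?_
  congr 1
  have : D.phase μ x (t + 1) = D.phase μ x t + D.m μ * (2 * Real.pi) := by
    unfold Trig.phase; ring
  rw [this, Real.sin_add_int_mul_two_pi]

theorem Dg_per {N : ℕ} (D : Trig n N) (x : E n) (t : ℝ) (j : Fin n) :
    Dg D x (t + 1) j = Dg D x t j := by
  unfold Dg
  exact Finset.sum_congr rfl fun l _ => by rw [grad_per]

/-- the error `e0` -/
theorem we {N : ℕ} (D : Trig n N) (w0 w1 e1 : List (TA n)) (M : ℕ) (q : Fin n → ℤ) (B : ℝ → ℝ) (φ : ℝ)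
    (g0 : Good 𝓕 w0) (g1 : Good 𝓕 w1) (ge : Good 𝓕 e1) (oe : ∀ a ∈ e1, M ≤ a.F.length)
    (hper : ∀ (x v : E n) (t : ℝ) (i : Fin n), tev (tdx i w0) x v (t + 1) = tev (tdx i w0) x v t)
    (hI : ∀ v : E n, (∀ f ∈ 𝓕, dot f v ≠ 0) → ∀ (x : E n) (j : Fin n),
      (∀ t : ℝ, tev (tdt (tdx j w1)) x v t +
        ∑ i, (v i + tev (tdx i w1) x v t) * tev (tdx i (tdx j w1)) x v t =
        Dg D x t j - (0 : ℝ) * B t * (2 * Real.pi * rv q j) * Real.sin (2 * Real.pi * dot q x + φ) +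
          tev (tdx j e1) x v t) ∧
      (∀ t : ℝ, 1 / 100 ≤ t → tev (tdx j w1) x v t = tev (tdx j w0) x v t)) :
    WE D w0 M 𝓕 e1 := by
  refine ⟨g0, ge, oe, fun P hP x j t ht => ?_⟩
  have h1 := (hI P hP x j).1 (t + 1)
  -- from `w1` to `w0` at the time `t + 1`
  have a1 : ∀ j, tev (tdx j w1) x P (t + 1) = tev (tdx j w0) x P (t + 1) := fun j =>
    (hI P hP x j).2 (t + 1) (by linarith)
  have a2 := tev_shift (good_tdx g1 j) (good_tdx g0 j) P 0 (t + 1) (by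
    have : ∀ᶠ s : ℝ in 𝓝 (t + 1), 1 / 100 < s := lt_mem_nhds (by linarith)
    exact this.mono fun s hs y => by rw [add_zero]; exact (hI P hP y j).2 s hs.le) x
  rw [add_zero] at a2
  have a3 := tev_shift (good_tdx g0 j) (good_tdx g0 j) P 1 t
    (Eventually.of_forall fun s y => hper y P s j) x
  rw [a2.1, a3.1, Dg_per] at h1
  have a4 : ∀ i, (P i + tev (tdx i w1) x P (t + 1)) * tev (tdx i (tdx j w1)) x P (t + 1) =
      (P i + tev (tdx i w0) x P t) * tev (tdx i (tdx j w0)) x P t := by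
    intro i
    rw [a1, a2.2, a3.2, hper]
  rw [Finset.sum_congr rfl fun i _ => a4 i] at h1
  rw [h1]
  ring

/-! ## uniform bounds -/

theorem bnd_fam {ι : Type*} [Fintype ι] {m : ℕ} (L : ι → List (TA n)) (hL : ∀ i, Good 𝓕 (L i))
    (hm : ∀ i, ∀ a ∈ L i, m ≤ a.F.length) (T0 T : ℝ) : ∃ C : ℝ, 0 ≤ C ∧ ∀ lam : ℝ, 1 ≤ lam → ∀ v : E n,
      Reg 𝓕 lam v → ∀ (x : E n), ∀ t ∈ Icc T0 T, ∀ i, |tev (L i) x v t| ≤ C / lam ^ m := by
  choose C hC0 hC using fun i => tev_bnd (L i) (hL i) (hm i) T0 T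
  refine ⟨∑ i, C i, Finset.sum_nonneg fun i _ => hC0 i, fun lam hl v hv x t ht i => ?_⟩
  refine (hC i lam hl v hv x t ht).trans ?_
  have h1 : C i ≤ ∑ i, C i := Finset.single_le_sum (fun i _ => hC0 i) (Finset.mem_univ i)
  have h2 : (0 : ℝ) < lam ^ m := by positivity
  exact div_le_div_of_nonneg_right h1 h2.le

theorem lip_fam {ι : Type*} [Fintype ι] {m : ℕ} (L : ι → List (TA n)) (hL : ∀ i, Good 𝓕 (L i))
    (hm : ∀ i, ∀ a ∈ L i, m ≤ a.F.length) (T0 T : ℝ) : ∃ C : ℝ, 0 ≤ C ∧ ∀ lam : ℝ, 1 ≤ lam → ∀ v w : E n,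
      Reg 𝓕 lam v → Reg 𝓕 lam w → ∀ (x : E n), ∀ t ∈ Icc T0 T, ∀ i,
        |tev (L i) x v t - tev (L i) x w t| ≤ C / lam ^ (m + 1) * ‖v - w‖ := by
  choose C hC0 hC using fun i => tev_lip (L i) (hL i) (hm i) T0 T
  refine ⟨∑ i, C i, Finset.sum_nonneg fun i _ => hC0 i, fun lam hl v w hv hw x t ht i => ?_⟩
  refine (hC i lam hl v w hv hw x t ht).trans ?_
  have h1 : C i ≤ ∑ i, C i := Finset.single_le_sum (fun i _ => hC0 i) (Finset.mem_univ i)
  have h2 : (0 : ℝ) < lam ^ (m + 1) := by positivity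
  exact mul_le_mul_of_nonneg_right (div_le_div_of_nonneg_right h1 h2.le) (norm_nonneg _)

/-- a bound of the sizes of the factors -/
theorem exists_l1 (𝓕 : List (Fin n → ℤ)) : ∃ K : ℝ, 0 ≤ K ∧ ∀ f ∈ 𝓕, l1 f ≤ K := by
  refine ⟨(𝓕.map l1).sum, List.sum_nonneg fun x hx => ?_, fun f hf => ?_⟩
  · obtain ⟨f, -, rfl⟩ := List.mem_map.1 hx
    exact l1_nonneg f
  · refine List.single_le_sum (fun x hx => ?_) _ (List.mem_map_of_mem hf)
    obtain ⟨f, -, rfl⟩ := List.mem_map.1 hx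
    exact l1_nonneg f

theorem reg_near {K lam : ℝ} (hK : ∀ f ∈ 𝓕, l1 f ≤ K) (hl : 4 * K ≤ lam) {P Q : E n} (hP : Reg 𝓕 lam P)
    (h : ‖Q - P‖ ≤ 1) : Reg 𝓕 (lam / 2) Q := by
  intro f hf
  have h1 := hP f hf
  have h2 := dot_le f (Q - P)
  rw [dot_sub] at h2
  have h3 : l1 f * ‖Q - P‖ ≤ K := by
    calc l1 f * ‖Q - P‖ ≤ l1 f * 1 := mul_le_mul_of_nonneg_left h (l1_nonneg f)
      _ ≤ K := by rw [mul_one]; exact hK f hf
  have h4 := abs_sub_abs_le_abs_sub (dot f P) (dot f Q)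
  rw [abs_sub_comm] at h4
  linarith

/-! ## Gronwall -/

theorem gron {z z' : ℝ → E n} {ε : ℝ} (hε : 0 ≤ ε) (hz : ∀ t ∈ Icc (0 : ℝ) (1 / 100), HasDerivAt z (z' t) t)
    (h0 : z 0 = 0) (hb : ∀ t ∈ Icc (0 : ℝ) (1 / 100), ‖z' t‖ ≤ ‖z t‖ + ε) :
    ‖z (1 / 100)‖ ≤ 2 * ε := by
  have h1 := norm_le_gronwallBound_of_norm_deriv_right_le (f := z) (f' := z') (δ := 0) (K := 1) (ε := ε)
    (a := 0) (b := 1 / 100) (fun t ht => (hz t ht).continuousAt.continuousWithinAt)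
    (fun t ht => (hz t ⟨ht.1, ht.2.le⟩).hasDerivWithinAt) (by rw [h0, norm_zero])
    (fun t ht => by rw [one_mul]; exact hb t ⟨ht.1, ht.2.le⟩) (1 / 100) ⟨by norm_num, le_rfl⟩
  refine h1.trans ?_
  rw [gronwallBound_of_K_ne_0 one_ne_zero]
  simp only [zero_mul, zero_add, div_one, sub_zero, one_mul]
  have h2 : Real.exp (1 / 100) ≤ 3 := by
    have h3 : Real.exp (1 / 100) ≤ Real.exp 1 := Real.exp_le_exp.2 (by norm_num)
    have h4 := Real.exp_one_lt_d9
    linarith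
  nlinarith

theorem evol {N : ℕ} (D : Trig n N) (w1 e1 : List (TA n)) (q : Fin n → ℤ) (B : ℝ → ℝ) (δ φ : ℝ)
    (g1 : Good 𝓕 w1) (P : E n)
    (hI : ∀ (x : E n) (j : Fin n) (t : ℝ), tev (tdt (tdx j w1)) x P t +
        ∑ i, (P i + tev (tdx i w1) x P t) * tev (tdx i (tdx j w1)) x P t =
        Dg D x t j - δ * B t * (2 * Real.pi * rv q j) * Real.sin (2 * Real.pi * dot q x + φ) +
          tev (tdx j e1) x P t) {x v : ℝ → E n}
    (hx : ∀ t ∈ Icc (0 : ℝ) (1 / 100), HasDerivAt x (v t) t ∧ HasDerivAt v (fun i => Dg D (x t) t i -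
      δ * B t * (2 * Real.pi * rv q i) * Real.sin (2 * Real.pi * dot q (x t) + φ)) t)
    (h0 : v 0 = P + gw w1 (x 0) P 0) {ε b : ℝ} (hε : 0 ≤ ε)
    (hb1 : ∀ (x : E n), ∀ t ∈ Icc (0 : ℝ) (1 / 100), ∀ j, |tev (tdx j e1) x P t| ≤ ε)
    (hb2 : ∀ (x : E n), ∀ t ∈ Icc (0 : ℝ) (1 / 100), ∀ j i, |tev (tdx i (tdx j w1)) x P t| ≤ b)
    (hb : n * b ≤ 1) :
    ‖v (1 / 100) - P - gw w1 (x (1 / 100)) P (1 / 100)‖ ≤ 2 * ε := by
  set z : ℝ → E n := fun t => v t - P - gw w1 (x t) P t with hz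
  refine gron (z := z) (z' := fun t j => -tev (tdx j e1) (x t) P t -
    ∑ i, z t i * tev (tdx i (tdx j w1)) (x t) P t) hε ?_ ?_ ?_
  · intro t ht
    obtain ⟨h1, h2⟩ := hx t ht
    rw [hasDerivAt_pi] at h1 h2 ⊢
    intro j
    have h3 := tev_hasDerivAt (tdx j w1) (good_tdx g1 j) P (z := x) (z' := v t) (s := t) h1
    have h4 := ((h2 j).sub_const (P j)).sub h3
    refine h4.congr_deriv ?_
    have h5 := hI (x t) j t
    have h6 : ∑ i, z t i * tev (tdx i (tdx j w1)) (x t) P t =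
        ∑ i, v t i * tev (tdx i (tdx j w1)) (x t) P t -
          ∑ i, (P i + tev (tdx i w1) (x t) P t) * tev (tdx i (tdx j w1)) (x t) P t := by
      rw [← Finset.sum_sub_distrib]
      refine Finset.sum_congr rfl fun i _ => ?_
      simp only [hz, Pi.sub_apply, gw]
      ring
    rw [h6]
    linarith
  · simp only [hz]
    rw [h0]
    abel
  · intro t ht
    have hz0 : 0 ≤ ‖z t‖ := norm_nonneg _
    rw [pi_norm_le_iff_of_nonneg (by positivity)]
    intro j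
    rw [Real.norm_eq_abs]
    refine (abs_sub _ _).trans ?_
    rw [abs_neg, add_comm]
    refine add_le_add ?_ (hb1 (x t) t ht j)
    refine (Finset.abs_sum_le_sum_abs _ _).trans ?_
    have h1 : ∀ i ∈ Finset.univ, |z t i * tev (tdx i (tdx j w1)) (x t) P t| ≤ ‖z t‖ * b := by
      intro i _
      rw [abs_mul]
      exact mul_le_mul (norm_le_pi_norm (z t) i) (hb2 (x t) t ht j i) (abs_nonneg _) hz0
    refine (Finset.sum_le_sum h1).trans ?_
    rw [Finset.sum_const, Finset.card_univ, Fintype.card_fin, nsmul_eq_mul]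
    nlinarith

end Pool.Agent.K9h32.SM.Gate
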