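import Pool.Agent.K9h32.SM.Lat

/-!
# Formal perturbation series with smooth coefficients in time: operations on lists of atoms
-/

set_option autoImplicit false

open Set Filter Topology
open scoped ContDiff

noncomputable section

namespace Pool.Agent.K9h32.SM.HJT

open Pool.Agent.N980.TL Pool.Agent.K9h32.SM

variable {n : ℕ} [Lat n]

/-! ## evaluation -/

@[simp] theorem tev_nil (x v : E n) (t : ℝ) : tev ([] : List (TA n)) x v t = 0 := rfl

@[simp] theorem tev_cons (a : TA n) (L : List (TA n)) (x v : E n) (t : ℝ) :
    tev (a :: L) x v t = a.ev x v t + tev L x v t := by simp [tev]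

theorem tev_append (L L' : List (TA n)) (x v : E n) (t : ℝ) :
    tev (L ++ L') x v t = tev L x v t + tev L' x v t := by simp [tev]

theorem tev_flatMap {ι : Type*} (S : List ι) (f : ι → List (TA n)) (x v : E n) (t : ℝ) :
    tev (S.flatMap f) x v t = (S.map fun s => tev (f s) x v t).sum := by
  induction S with
  | nil => rfl
  | cons s S ih => rw [List.flatMap_cons, tev_append, ih, List.map_cons, List.sum_cons]

/-- the product of the factors -/
def pin (F : List (Fin n → ℤ)) (v : E n) : ℝ := (F.map fun f => (dot f v)⁻¹).prod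

/-- the phase -/
def phs (a : TA n) (x : E n) : ℝ := 2 * Real.pi * dot a.k x + a.φ

theorem ev_def (a : TA n) (x v : E n) (t : ℝ) : a.ev x v t = a.a t * pin a.F v * Real.cos (phs a x) := rfl

/-- `∂/∂x_i` of an atom -/
def adx (i : Fin n) (a : TA n) : TA n :=
  { a with a := fun t => a.a t * (2 * Real.pi * rv a.k i), φ := a.φ + Real.pi / 2 }

theorem tdx_eq (i : Fin n) (L : List (TA n)) : tdx i L = L.map (adx i) := rfl

theorem adx_ev (i : Fin n) (a : TA n) (x v : E n) (t : ℝ) :
    (adx i a).ev x v t = -(a.a t * pin a.F v * (2 * Real.pi * rv a.k i) * Real.sin (phs a x)) := by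
  have h : phs (adx i a) x = phs a x + Real.pi / 2 := by
    simp only [phs, adx]; ring
  rw [ev_def, h, Real.cos_add_pi_div_two]
  simp only [adx]
  ring

theorem adx_adx_ev (i j : Fin n) (a : TA n) (x v : E n) (t : ℝ) :
    (adx i (adx j a)).ev x v t =
      -(a.a t * pin a.F v * (2 * Real.pi * rv a.k i) * (2 * Real.pi * rv a.k j) * Real.cos (phs a x)) := by
  have h : phs (adx j a) x = phs a x + Real.pi / 2 := by
    simp only [phs, adx]; ring
  rw [adx_ev, h, Real.sin_add_pi_div_two]
  simp only [adx]
  ring

@[simp] theorem tdx_nil (i : Fin n) : tdx i ([] : List (TA n)) = [] := rfl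
@[simp] theorem tdt_nil : tdt ([] : List (TA n)) = [] := rfl

theorem tdx_cons (i : Fin n) (a : TA n) (L : List (TA n)) : tdx i (a :: L) = adx i a :: tdx i L := rfl

theorem tdx_append (i : Fin n) (L L' : List (TA n)) : tdx i (L ++ L') = tdx i L ++ tdx i L' := by
  simp [tdx]

theorem tdt_append (L L' : List (TA n)) : tdt (L ++ L') = tdt L ++ tdt L' := by simp [tdt]

theorem tdx_flatMap {ι : Type*} (i : Fin n) (S : List ι) (f : ι → List (TA n)) :
    tdx i (S.flatMap f) = S.flatMap fun s => tdx i (f s) := by
  simp [tdx, List.map_flatMap]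

theorem tdt_flatMap {ι : Type*} (S : List ι) (f : ι → List (TA n)) :
    tdt (S.flatMap f) = S.flatMap fun s => tdt (f s) := by
  simp [tdt, List.map_flatMap]

/-- `∂_t` and `∂_{x_j}` commute -/
theorem tdt_tdx (j : Fin n) (L : List (TA n)) (x v : E n) (t : ℝ) :
    tev (tdt (tdx j L)) x v t = tev (tdx j (tdt L)) x v t := by
  induction L with
  | nil => rfl
  | cons a L ih =>
    have h1 : tdt (tdx j (a :: L)) = { adx j a with a := deriv (adx j a).a } :: tdt (tdx j L) := rfl
    have h2 : tdx j (tdt (a :: L)) = adx j { a with a := deriv a.a } :: tdx j (tdt L) := rfl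
    rw [h1, h2, tev_cons, tev_cons, ih]
    congr 1
    have h3 : deriv (adx j a).a t = deriv a.a t * (2 * Real.pi * rv a.k j) := by
      simp only [adx]
      exact deriv_mul_const_field _
    simp only [TA.ev, adx] at h3 ⊢
    rw [h3]

theorem tdx_comm (i j : Fin n) (L : List (TA n)) (x v : E n) (t : ℝ) :
    tev (tdx i (tdx j L)) x v t = tev (tdx j (tdx i L)) x v t := by
  induction L with
  | nil => rfl
  | cons a L ih =>
    rw [tdx_cons, tdx_cons, tdx_cons, tdx_cons, tev_cons, tev_cons, ih, adx_adx_ev, adx_adx_ev]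
    ring

/-! ## products -/

/-- `k·k'` -/
def kk (k k' : Fin n → ℤ) : ℝ := ∑ i, rv k i * rv k' i

/-- the sum term of the product -/
def aPp (a b : TA n) : TA n where
  a := fun t => a.a t * b.a t * ((2 * Real.pi) ^ 2 * kk a.k b.k / 4)
  F := a.F ++ b.F
  k := a.k + b.k
  φ := a.φ + b.φ + Real.pi

/-- the difference term of the product -/
def aPm (a b : TA n) : TA n where
  a := fun t => a.a t * b.a t * ((2 * Real.pi) ^ 2 * kk a.k b.k / 4)
  F := a.F ++ b.F
  k := a.k - b.k
  φ := a.φ - b.φ

/-- one half of the scalar product of the gradients, of two atoms -/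
def aP (a b : TA n) : List (TA n) := [aPp a b, aPm a b]

/-- one half of the scalar product of the gradients -/
def tP (L L' : List (TA n)) : List (TA n) := L.flatMap fun a => L'.flatMap fun b => aP a b

theorem pin_append (F F' : List (Fin n → ℤ)) (v : E n) : pin (F ++ F') v = pin F v * pin F' v := by
  simp [pin]

theorem dot_add (k k' : Fin n → ℤ) (x : E n) : dot (k + k') x = dot k x + dot k' x := by
  simp only [dot, rv_add, Pi.add_apply, add_mul, Finset.sum_add_distrib]

theorem dot_sub (k k' : Fin n → ℤ) (x : E n) : dot (k - k') x = dot k x - dot k' x := by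
  simp only [dot, rv_sub, Pi.sub_apply, sub_mul, Finset.sum_sub_distrib]

theorem aP_ev (a b : TA n) (x v : E n) (t : ℝ) :
    tev (aP a b) x v t = (∑ i, (adx i a).ev x v t * (adx i b).ev x v t) / 2 := by
  have hs : ∑ i, (adx i a).ev x v t * (adx i b).ev x v t =
      a.a t * b.a t * (pin a.F v * pin b.F v) * ((2 * Real.pi) ^ 2 * kk a.k b.k) *
        (Real.sin (phs a x) * Real.sin (phs b x)) := by
    have : ∀ i, (adx i a).ev x v t * (adx i b).ev x v t =
        (a.a t * b.a t * (pin a.F v * pin b.F v) * (2 * Real.pi) ^ 2 *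
          (Real.sin (phs a x) * Real.sin (phs b x))) * ((rv a.k i : ℝ) * rv b.k i) := by
      intro i
      rw [adx_ev, adx_ev]
      ring
    rw [Finset.sum_congr rfl fun i _ => this i, ← Finset.mul_sum]
    unfold kk
    ring
  rw [hs]
  simp only [aP, tev_cons, tev_nil, add_zero, ev_def]
  have e1 : Real.cos (phs (aPp a b) x) = -Real.cos (phs a x + phs b x) := by
    rw [← Real.cos_add_pi]
    congr 1
    simp only [phs, aPp, dot_add]
    ring
  have e2 : Real.cos (phs (aPm a b) x) = Real.cos (phs a x - phs b x) := by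
    congr 1
    simp only [phs, aPm, dot_sub]
    ring
  rw [e1, e2, Real.cos_add, Real.cos_sub]
  simp only [aPp, aPm, pin_append]
  ring

theorem tP_ev (L L' : List (TA n)) (x v : E n) (t : ℝ) :
    tev (tP L L') x v t = (∑ i, tev (tdx i L) x v t * tev (tdx i L') x v t) / 2 := by
  induction L with
  | nil => simp [tP]
  | cons a L ih =>
    have h1 : tP (a :: L) L' = (L'.flatMap fun b => aP a b) ++ tP L L' := rfl
    rw [h1, tev_append, ih]
    have h2 : tev (L'.flatMap fun b => aP a b) x v t =
        (∑ i, (adx i a).ev x v t * tev (tdx i L') x v t) / 2 := by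
      clear ih h1
      induction L' with
      | nil => simp
      | cons b L' ih' =>
        rw [List.flatMap_cons, tev_append, ih', aP_ev, ← add_div, ← Finset.sum_add_distrib]
        congr 1
        refine Finset.sum_congr rfl fun i _ => ?_
        rw [tdx_cons, tev_cons]
        ring
    rw [h2, ← add_div, ← Finset.sum_add_distrib]
    congr 1
    refine Finset.sum_congr rfl fun i _ => ?_
    rw [tdx_cons, tev_cons]
    ring

/-! ## derivatives in `x` -/

theorem upd_hasDerivAt (x : E n) (j : Fin n) (u : ℝ) (i : Fin n) :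
    HasDerivAt (fun u => Function.update x j u i) ((Pi.single j 1 : E n) i) u := by
  by_cases h : i = j
  · subst h
    simp only [Function.update_self, Pi.single_eq_same]
    exact hasDerivAt_id u
  · simp only [Function.update_of_ne h, Pi.single_eq_of_ne h]
    exact hasDerivAt_const _ _

theorem dot_hasDerivAt (k : Fin n → ℤ) (x : E n) (j : Fin n) (u : ℝ) :
    HasDerivAt (fun u => dot k (Function.update x j u)) (rv k j) u := by
  have h := HasDerivAt.fun_sum (u := Finset.univ) fun i _ =>
    (upd_hasDerivAt x j u i).const_mul (rv k i)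
  refine h.congr_deriv ?_
  rw [Finset.sum_eq_single j]
  · simp
  · intro i _ hi; simp [Pi.single_eq_of_ne hi]
  · simp

theorem aev_hasDerivAt (a : TA n) (x v : E n) (t : ℝ) (j : Fin n) :
    HasDerivAt (fun u => a.ev (Function.update x j u) v t) ((adx j a).ev x v t) (x j) := by
  have h1 : HasDerivAt (fun u => phs a (Function.update x j u)) (2 * Real.pi * rv a.k j) (x j) :=
    ((dot_hasDerivAt a.k x j (x j)).const_mul (2 * Real.pi)).add_const a.φ
  have h2 := h1.cos.const_mul (a.a t * pin a.F v)
  refine h2.congr_deriv ?_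
  rw [adx_ev, Function.update_eq_self]
  ring

theorem tev_hasDerivAt (L : List (TA n)) (x v : E n) (t : ℝ) (j : Fin n) :
    HasDerivAt (fun u => tev L (Function.update x j u) v t) (tev (tdx j L) x v t) (x j) := by
  induction L with
  | nil => exact hasDerivAt_const _ _
  | cons a L ih =>
    have h := (aev_hasDerivAt a x v t j).fun_add ih
    simp only [tdx_cons, tev_cons]
    exact h

/-- the derivative of the product -/
theorem tdx_tP (L L' : List (TA n)) (x v : E n) (t : ℝ) (j : Fin n) :
    tev (tdx j (tP L L')) x v t = (∑ i, (tev (tdx i (tdx j L)) x v t * tev (tdx i L') x v t +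
      tev (tdx i L) x v t * tev (tdx i (tdx j L')) x v t)) / 2 := by
  have h1 := tev_hasDerivAt (tP L L') x v t j
  have h2 := (HasDerivAt.fun_sum (u := Finset.univ) fun i _ =>
    (tev_hasDerivAt (tdx i L) x v t j).fun_mul (tev_hasDerivAt (tdx i L') x v t j)).div_const 2
  have h3 : (fun u => tev (tP L L') (Function.update x j u) v t) = fun u =>
      (∑ i, tev (tdx i L) (Function.update x j u) v t * tev (tdx i L') (Function.update x j u) v t) / 2 := by
    funext u
    exact tP_ev L L' _ v t
  rw [h3] at h1
  rw [h1.unique h2]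
  congr 1
  refine Finset.sum_congr rfl fun i _ => ?_
  rw [Function.update_eq_self, tdx_comm j i L, tdx_comm j i L']

/-! ## the inverse of `-v·∂_x` -/

/-- the inverse of `-v·∂_x` on an atom -/
def ainv (a : TA n) : TA n :=
  { a := fun t => a.a t * (-(1 / (2 * Real.pi))), F := a.k :: a.F, k := a.k, φ := a.φ - Real.pi / 2 }

open Classical in
/-- the inverse of `-v·∂_x` -/
def ninv (L : List (TA n)) : List (TA n) := (L.filter fun a => a.k ≠ 0).map ainv

/-- negation -/
def neg (L : List (TA n)) : List (TA n) := L.map fun a => { a with a := fun t => -a.a t }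

theorem neg_ev (L : List (TA n)) (x v : E n) (t : ℝ) (j : Fin n) :
    tev (tdx j (neg L)) x v t = -tev (tdx j L) x v t := by
  induction L with
  | nil => simp [neg]
  | cons a L ih =>
    have h : neg (a :: L) = { a with a := fun t => -a.a t } :: neg L := rfl
    rw [h, tdx_cons, tdx_cons, tev_cons, tev_cons, ih, adx_ev, adx_ev]
    simp only [phs]
    ring

theorem ninv_ev (L : List (TA n)) (x v : E n) (t : ℝ) (j : Fin n)
    (hv : ∀ a ∈ L, a.k ≠ 0 → dot a.k v ≠ 0) :
    ∑ i, v i * tev (tdx i (tdx j (ninv L))) x v t = -tev (tdx j L) x v t := by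
  classical
  induction L with
  | nil => simp [ninv]
  | cons a L ih =>
    have ih' := ih fun b hb => hv b (List.mem_cons_of_mem _ hb)
    by_cases h : a.k = 0
    · have h1 : ninv (a :: L) = ninv L := by simp [ninv, h]
      rw [h1, ih', tdx_cons, tev_cons, adx_ev]
      simp [h, rv_zero]
    · have h1 : ninv (a :: L) = ainv a :: ninv L := by simp [ninv, h]
      have h2 : ∀ i, v i * tev (tdx i (tdx j (ninv (a :: L)))) x v t =
          v i * (adx i (adx j (ainv a))).ev x v t + v i * tev (tdx i (tdx j (ninv L))) x v t := by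
        intro i
        rw [h1, tdx_cons, tdx_cons, tev_cons]
        ring
      rw [Finset.sum_congr rfl fun i _ => h2 i, Finset.sum_add_distrib, ih', tdx_cons, tev_cons]
      have h3 : ∑ i, v i * (adx i (adx j (ainv a))).ev x v t = -(adx j a).ev x v t := by
        have hd := hv a List.mem_cons_self h
        have h4 : ∀ i, v i * (adx i (adx j (ainv a))).ev x v t =
            (a.a t * pin a.F v * (dot a.k v)⁻¹ * (2 * Real.pi * rv a.k j) * Real.sin (phs a x)) *
              ((rv a.k i : ℝ) * v i) := by
          intro i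
          have h5 : phs (ainv a) x = phs a x - Real.pi / 2 := by simp only [phs, ainv]; ring
          have h6 : pin (ainv a).F v = (dot a.k v)⁻¹ * pin a.F v := by simp [pin, ainv]
          rw [adx_adx_ev, h5, Real.cos_sub_pi_div_two, h6]
          simp only [ainv]
          field_simp
        rw [Finset.sum_congr rfl fun i _ => h4 i, ← Finset.mul_sum, adx_ev]
        change _ * dot a.k v = _
        field_simp
      rw [h3]
      ring

end Pool.Agent.K9h32.SM.HJT
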