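import Pool.Agent.K9h32.SM.HJT1

/-!
# Formal perturbation series with smooth coefficients in time: properties kept by the operations
-/

set_option autoImplicit false

open Set Filter Topology
open scoped ContDiff

noncomputable section

namespace Pool.Agent.K9h32.SM.HJT

open Pool.Agent.N980.TL Pool.Agent.K9h32.SM

variable {n : ℕ} [Lat n]

/-! ## membership -/

theorem mem_tdt {a : TA n} {L : List (TA n)} (h : a ∈ tdt L) : ∃ b ∈ L, a = { b with a := deriv b.a } := by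
  obtain ⟨b, hb, e⟩ := List.mem_map.1 h
  exact ⟨b, hb, e.symm⟩

theorem mem_neg {a : TA n} {L : List (TA n)} (h : a ∈ neg L) :
    ∃ b ∈ L, a = { b with a := fun t => -b.a t } := by
  obtain ⟨b, hb, e⟩ := List.mem_map.1 h
  exact ⟨b, hb, e.symm⟩

theorem mem_ninv {a : TA n} {L : List (TA n)} (h : a ∈ ninv L) : ∃ b ∈ L, b.k ≠ 0 ∧ a = ainv b := by
  classical
  obtain ⟨b, hb, e⟩ := List.mem_map.1 h
  rw [List.mem_filter] at hb
  exact ⟨b, hb.1, by simpa using hb.2, e.symm⟩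

theorem mem_tP {a : TA n} {L L' : List (TA n)} (h : a ∈ tP L L') :
    ∃ b ∈ L, ∃ c ∈ L', a = aPp b c ∨ a = aPm b c := by
  unfold tP at h
  rw [List.mem_flatMap] at h
  obtain ⟨b, hb, h⟩ := h
  rw [List.mem_flatMap] at h
  obtain ⟨c, hc, h⟩ := h
  refine ⟨b, hb, c, hc, ?_⟩
  simpa [aP] using h

/-- a property of the coefficients -/
def CP (p : (ℝ → ℝ) → Prop) (L : List (TA n)) : Prop := ∀ a ∈ L, p a.a

theorem CP.append {p : (ℝ → ℝ) → Prop} {L L' : List (TA n)} (h : CP p L) (h' : CP p L') : CP p (L ++ L') := by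
  intro a ha
  rcases List.mem_append.1 ha with ha | ha
  · exact h a ha
  · exact h' a ha

theorem CP.flatMap {p : (ℝ → ℝ) → Prop} {ι : Type*} {S : List ι} {f : ι → List (TA n)}
    (h : ∀ s ∈ S, CP p (f s)) : CP p (S.flatMap f) := by
  intro a ha
  obtain ⟨s, hs, ha⟩ := List.mem_flatMap.1 ha
  exact h s hs a ha

theorem CP.mono {p p' : (ℝ → ℝ) → Prop} {L : List (TA n)} (h : CP p L) (hp : ∀ f, p f → p' f) : CP p' L :=
  fun a ha => hp _ (h a ha)

theorem CP.ninv {p : (ℝ → ℝ) → Prop} {L : List (TA n)} (h : CP p L)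
    (hp : ∀ (f : ℝ → ℝ) (c : ℝ), p f → p fun t => f t * c) : CP p (ninv L) := by
  intro a ha
  obtain ⟨b, hb, -, rfl⟩ := mem_ninv ha
  exact hp _ _ (h b hb)

theorem CP.neg {p : (ℝ → ℝ) → Prop} {L : List (TA n)} (h : CP p L)
    (hp : ∀ (f : ℝ → ℝ) (c : ℝ), p f → p fun t => f t * c) : CP p (neg L) := by
  intro a ha
  obtain ⟨b, hb, rfl⟩ := mem_neg ha
  have := hp _ (-1) (h b hb)
  simpa using this

theorem CP.tdt {p p' : (ℝ → ℝ) → Prop} {L : List (TA n)} (h : CP p L) (hp : ∀ f : ℝ → ℝ, p f → p' (deriv f)) :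
    CP p' (tdt L) := by
  intro a ha
  obtain ⟨b, hb, rfl⟩ := mem_tdt ha
  exact hp _ (h b hb)

theorem CP.tP {p p' p'' : (ℝ → ℝ) → Prop} {L L' : List (TA n)} (h : CP p L) (h' : CP p' L')
    (hp : ∀ (f g : ℝ → ℝ) (c : ℝ), p f → p' g → p'' fun t => f t * g t * c) : CP p'' (tP L L') := by
  intro a ha
  obtain ⟨b, hb, c, hc, rfl | rfl⟩ := mem_tP ha
  · exact hp _ _ _ (h b hb) (h' c hc)
  · exact hp _ _ _ (h b hb) (h' c hc)

/-! ### smoothness -/

/-- smooth -/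
def Sm (f : ℝ → ℝ) : Prop := ContDiff ℝ ∞ f

theorem Sm.smul {f : ℝ → ℝ} (h : Sm f) (c : ℝ) : Sm fun t => f t * c := ContDiff.mul h contDiff_const

theorem Sm.deriv {f : ℝ → ℝ} (h : Sm f) : Sm (deriv f) := by
  have : ContDiff ℝ (∞ + 1) f := h
  exact (contDiff_succ_iff_deriv.1 this).2.2

theorem Sm.mul {f g : ℝ → ℝ} (h : Sm f) (h' : Sm g) : Sm fun t => f t * g t := ContDiff.mul h h'

theorem Sm.mul3 {f g : ℝ → ℝ} (h : Sm f) (h' : Sm g) (c : ℝ) : Sm fun t => f t * g t * c :=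
  (h.mul h').smul c

theorem Sm.diff {f : ℝ → ℝ} (h : Sm f) : Differentiable ℝ f := by
  have h' : ContDiff ℝ ∞ f := h
  exact h'.differentiable (by simp)

/-! ### order of vanishing at `0` -/

/-- vanishing to the order `m` at `0`, smooth -/
def Vn : ℕ → (ℝ → ℝ) → Prop
  | 0, f => Sm f
  | m + 1, f => Sm f ∧ f 0 = 0 ∧ Vn m (deriv f)

theorem Vn.sm {m : ℕ} {f : ℝ → ℝ} (h : Vn m f) : Sm f := by
  cases m with
  | zero => exact h
  | succ m => exact h.1

theorem Vn.pred {m : ℕ} : ∀ {f : ℝ → ℝ}, Vn (m + 1) f → Vn m f := by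
  induction m with
  | zero => intro f h; exact h.1
  | succ m ih => intro f h; exact ⟨h.1, h.2.1, ih h.2.2⟩

theorem Vn.mono {m m' : ℕ} (hm : m' ≤ m) {f : ℝ → ℝ} (h : Vn m f) : Vn m' f := by
  obtain ⟨d, rfl⟩ := Nat.exists_eq_add_of_le hm
  induction d with
  | zero => exact h
  | succ d ih => exact ih (by omega) (Vn.pred h)

theorem Vn.deriv' {m : ℕ} {f : ℝ → ℝ} (h : Vn m f) : Vn (m - 1) (_root_.deriv f) := by
  cases m with
  | zero => exact h.sm.deriv
  | succ m => exact h.2.2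

theorem Vn.add {m : ℕ} : ∀ {f g : ℝ → ℝ}, Vn m f → Vn m g → Vn m fun t => f t + g t := by
  induction m with
  | zero => intro f g hf hg; exact ContDiff.add (Vn.sm hf) (Vn.sm hg)
  | succ m ih =>
    intro f g hf hg
    refine ⟨ContDiff.add hf.1 hg.1, ?_, ?_⟩
    · change f 0 + g 0 = 0
      rw [hf.2.1, hg.2.1, add_zero]
    have h1 : _root_.deriv (fun t => f t + g t) = fun t => _root_.deriv f t + _root_.deriv g t := by
      funext t
      exact deriv_fun_add (hf.1.diff t) (hg.1.diff t)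
    rw [h1]
    exact ih hf.2.2 hg.2.2

theorem Vn.mul {m : ℕ} : ∀ {f g : ℝ → ℝ}, Vn m f → Sm g → Vn m fun t => f t * g t := by
  induction m with
  | zero => intro f g hf hg; exact Sm.mul (Vn.sm hf) hg
  | succ m ih =>
    intro f g hf hg
    refine ⟨ContDiff.mul hf.1 hg, ?_, ?_⟩
    · change f 0 * g 0 = 0
      rw [hf.2.1, zero_mul]
    have h1 : _root_.deriv (fun t => f t * g t) =
        fun t => _root_.deriv f t * g t + f t * _root_.deriv g t := by
      funext t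
      exact deriv_fun_mul (hf.1.diff t) (hg.diff t)
    rw [h1]
    exact (ih hf.2.2 hg).add (ih hf.pred hg.deriv)

theorem Vn.smul {m : ℕ} {f : ℝ → ℝ} (h : Vn m f) (c : ℝ) : Vn m fun t => f t * c :=
  h.mul contDiff_const

theorem Vn.mul3 {m : ℕ} {f g : ℝ → ℝ} (h : Vn m f) (h' : Sm g) (c : ℝ) : Vn m fun t => f t * g t * c :=
  (h.mul h').smul c

theorem Vn.mul3' {m : ℕ} {f g : ℝ → ℝ} (h : Sm f) (h' : Vn m g) (c : ℝ) : Vn m fun t => f t * g t * c := by
  have h1 := (h'.mul h).smul c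
  have h2 : (fun t => g t * f t * c) = fun t => f t * g t * c := by funext t; ring
  rwa [h2] at h1

theorem vn_of_iter {m : ℕ} : ∀ {f : ℝ → ℝ}, Sm f → (∀ i < m, iteratedDeriv i f 0 = 0) → Vn m f := by
  induction m with
  | zero => intro f hf _; exact hf
  | succ m ih =>
    intro f hf h
    refine ⟨hf, by simpa using h 0 (Nat.succ_pos m), ih hf.deriv fun i hi => ?_⟩
    have := h (i + 1) (by omega)
    rwa [iteratedDeriv_succ'] at this

/-! ### zero for `t ≥ 1/100` -/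

/-- zero for `t ≥ 1/100`, smooth -/
def Zr (f : ℝ → ℝ) : Prop := Sm f ∧ ∀ t, 1 / 100 ≤ t → f t = 0

theorem Zr.smul {f : ℝ → ℝ} (h : Zr f) (c : ℝ) : Zr fun t => f t * c :=
  ⟨h.1.smul c, fun t ht => by
    change f t * c = 0
    rw [h.2 t ht, zero_mul]⟩

theorem Zr.deriv {f : ℝ → ℝ} (h : Zr f) : Zr (deriv f) := by
  refine ⟨h.1.deriv, fun t ht => ?_⟩
  have h1 : HasDerivWithinAt f (_root_.deriv f t) (Ici t) t := (h.1.diff t).hasDerivAt.hasDerivWithinAt
  have h2 : HasDerivWithinAt f 0 (Ici t) t := by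
    refine (hasDerivWithinAt_const t (Ici t) (0 : ℝ)).congr (fun s hs => ?_) ?_
    · exact h.2 s (ht.trans hs)
    · exact h.2 t ht
  exact (uniqueDiffWithinAt_Ici t).eq_deriv _ h1 h2

theorem Zr.mul3 {f g : ℝ → ℝ} (h : Zr f) (h' : Sm g) (c : ℝ) : Zr fun t => f t * g t * c :=
  ⟨h.1.mul3 h' c, fun t ht => by
    change f t * g t * c = 0
    rw [h.2 t ht, zero_mul, zero_mul]⟩

theorem Zr.mul3' {f g : ℝ → ℝ} (h : Sm f) (h' : Zr g) (c : ℝ) : Zr fun t => f t * g t * c :=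
  ⟨h.mul3 h'.1 c, fun t ht => by
    change f t * g t * c = 0
    rw [h'.2 t ht, mul_zero, zero_mul]⟩

theorem tev_zero {L : List (TA n)} {t : ℝ} (h : ∀ a ∈ L, a.a t = 0) (x v : E n) (j : Fin n) :
    tev (tdx j L) x v t = 0 := by
  induction L with
  | nil => rfl
  | cons a L ih =>
    rw [tdx_cons, tev_cons, ih fun b hb => h b (List.mem_cons_of_mem _ hb), adx_ev,
      h a List.mem_cons_self]
    ring

/-! ### periodicity -/

/-- periodic -/
def Pr (f : ℝ → ℝ) : Prop := ∀ t, f (t + 1) = f t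

theorem Pr.smul {f : ℝ → ℝ} (h : Pr f) (c : ℝ) : Pr fun t => f t * c := fun t => by
  change f (t + 1) * c = f t * c
  rw [h t]

theorem Pr.deriv {f : ℝ → ℝ} (h : Pr f) : Pr (deriv f) := by
  intro t
  have h1 : (fun s => f (s + 1)) = f := funext h
  rw [← deriv_comp_add_const, h1]

theorem Pr.mul3 {f g : ℝ → ℝ} (h : Pr f) (h' : Pr g) (c : ℝ) : Pr fun t => f t * g t * c := fun t => by
  change f (t + 1) * g (t + 1) * c = f t * g t * c
  rw [h t, h' t]

theorem tev_per {L : List (TA n)} (h : CP Pr L) (x v : E n) (t : ℝ) (j : Fin n) :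
    tev (tdx j L) x v (t + 1) = tev (tdx j L) x v t := by
  induction L with
  | nil => rfl
  | cons a L ih =>
    rw [tdx_cons, tev_cons, tev_cons, ih fun b hb => h b (List.mem_cons_of_mem _ hb), adx_ev, adx_ev,
      h a List.mem_cons_self t]

/-! ## number of factors -/

/-- at least `m` factors -/
def Ln (m : ℕ) (L : List (TA n)) : Prop := ∀ a ∈ L, m ≤ a.F.length

theorem Ln.mono {m m' : ℕ} {L : List (TA n)} (h : Ln m L) (hm : m' ≤ m) : Ln m' L :=
  fun a ha => hm.trans (h a ha)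

theorem Ln.append {m : ℕ} {L L' : List (TA n)} (h : Ln m L) (h' : Ln m L') : Ln m (L ++ L') := by
  intro a ha
  rcases List.mem_append.1 ha with ha | ha
  · exact h a ha
  · exact h' a ha

theorem Ln.flatMap {m : ℕ} {ι : Type*} {S : List ι} {f : ι → List (TA n)}
    (h : ∀ s ∈ S, Ln m (f s)) : Ln m (S.flatMap f) := by
  intro a ha
  obtain ⟨s, hs, ha⟩ := List.mem_flatMap.1 ha
  exact h s hs a ha

theorem Ln.ninv {m : ℕ} {L : List (TA n)} (h : Ln m L) : Ln (m + 1) (ninv L) := by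
  intro a ha
  obtain ⟨b, hb, -, rfl⟩ := mem_ninv ha
  simpa [ainv] using h b hb

theorem Ln.neg {m : ℕ} {L : List (TA n)} (h : Ln m L) : Ln m (neg L) := by
  intro a ha
  obtain ⟨b, hb, rfl⟩ := mem_neg ha
  exact h b hb

theorem Ln.tdt {m : ℕ} {L : List (TA n)} (h : Ln m L) : Ln m (tdt L) := by
  intro a ha
  obtain ⟨b, hb, rfl⟩ := mem_tdt ha
  exact h b hb

theorem Ln.tP {m m' : ℕ} {L L' : List (TA n)} (h : Ln m L) (h' : Ln m' L') : Ln (m + m') (tP L L') := by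
  intro a ha
  obtain ⟨b, hb, c, hc, rfl | rfl⟩ := mem_tP ha
  · simpa [aPp] using add_le_add (h b hb) (h' c hc)
  · simpa [aPm] using add_le_add (h b hb) (h' c hc)

/-! ## modes -/

/-- `f = g + l q` with `|g_i|, |l| ≤ r` -/
def Md (r : ℕ) (q f : Fin n → ℤ) : Prop :=
  ∃ (g : Fin n → ℤ) (l : ℤ), (∀ i, |g i| ≤ r) ∧ |l| ≤ r ∧ f = fun i => g i + l * q i

theorem Md.mono {r r' : ℕ} {q f : Fin n → ℤ} (h : Md r q f) (hr : r ≤ r') : Md r' q f := by
  obtain ⟨g, l, h1, h2, h3⟩ := h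
  have hr' : (r : ℤ) ≤ r' := by exact_mod_cast hr
  exact ⟨g, l, fun i => (h1 i).trans hr', h2.trans hr', h3⟩

theorem Md.add {r r' : ℕ} {q f f' : Fin n → ℤ} (h : Md r q f) (h' : Md r' q f') : Md (r + r') q (f + f') := by
  obtain ⟨g, l, h1, h2, h3⟩ := h
  obtain ⟨g', l', h1', h2', h3'⟩ := h'
  refine ⟨g + g', l + l', fun i => ?_, ?_, ?_⟩
  · push_cast
    exact (abs_add_le _ _).trans (add_le_add (h1 i) (h1' i))
  · push_cast
    exact (abs_add_le _ _).trans (add_le_add h2 h2')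
  · rw [h3, h3']
    funext i
    simp only [Pi.add_apply]
    ring

theorem Md.neg {r : ℕ} {q f : Fin n → ℤ} (h : Md r q f) : Md r q (-f) := by
  obtain ⟨g, l, h1, h2, h3⟩ := h
  refine ⟨-g, -l, fun i => ?_, ?_, ?_⟩
  · rw [Pi.neg_apply, abs_neg]; exact h1 i
  · rw [abs_neg]; exact h2
  · rw [h3]
    funext i
    simp only [Pi.neg_apply]
    ring

theorem Md.sub {r r' : ℕ} {q f f' : Fin n → ℤ} (h : Md r q f) (h' : Md r' q f') : Md (r + r') q (f - f') := by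
  rw [sub_eq_add_neg]
  exact h.add h'.neg

/-- the modes and the factors are bounded by `r` -/
def Ms (r : ℕ) (q : Fin n → ℤ) (L : List (TA n)) : Prop :=
  ∀ a ∈ L, Md r q a.k ∧ ∀ f ∈ a.F, f ≠ 0 ∧ Md r q f

theorem Ms.mono {r r' : ℕ} {q : Fin n → ℤ} {L : List (TA n)} (h : Ms r q L) (hr : r ≤ r') : Ms r' q L :=
  fun a ha => ⟨(h a ha).1.mono hr, fun f hf => ⟨((h a ha).2 f hf).1, ((h a ha).2 f hf).2.mono hr⟩⟩

theorem Ms.append {r : ℕ} {q : Fin n → ℤ} {L L' : List (TA n)} (h : Ms r q L) (h' : Ms r q L') :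
    Ms r q (L ++ L') := by
  intro a ha
  rcases List.mem_append.1 ha with ha | ha
  · exact h a ha
  · exact h' a ha

theorem Ms.flatMap {r : ℕ} {q : Fin n → ℤ} {ι : Type*} {S : List ι} {f : ι → List (TA n)}
    (h : ∀ s ∈ S, Ms r q (f s)) : Ms r q (S.flatMap f) := by
  intro a ha
  obtain ⟨s, hs, ha⟩ := List.mem_flatMap.1 ha
  exact h s hs a ha

theorem Ms.ninv {r : ℕ} {q : Fin n → ℤ} {L : List (TA n)} (h : Ms r q L) : Ms r q (ninv L) := by
  intro a ha
  obtain ⟨b, hb, hk, rfl⟩ := mem_ninv ha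
  refine ⟨(h b hb).1, fun f hf => ?_⟩
  rcases List.mem_cons.1 hf with rfl | hf
  · exact ⟨hk, (h b hb).1⟩
  · exact (h b hb).2 f hf

theorem Ms.neg {r : ℕ} {q : Fin n → ℤ} {L : List (TA n)} (h : Ms r q L) : Ms r q (neg L) := by
  intro a ha
  obtain ⟨b, hb, rfl⟩ := mem_neg ha
  exact h b hb

theorem Ms.tdt {r : ℕ} {q : Fin n → ℤ} {L : List (TA n)} (h : Ms r q L) : Ms r q (tdt L) := by
  intro a ha
  obtain ⟨b, hb, rfl⟩ := mem_tdt ha
  exact h b hb

theorem Ms.tP {r r' : ℕ} {q : Fin n → ℤ} {L L' : List (TA n)} (h : Ms r q L) (h' : Ms r' q L') :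
    Ms (r + r') q (tP L L') := by
  intro a ha
  obtain ⟨b, hb, c, hc, he⟩ := mem_tP ha
  have hF : ∀ f ∈ b.F ++ c.F, f ≠ 0 ∧ Md (r + r') q f := by
    intro f hf
    rcases List.mem_append.1 hf with hf | hf
    · exact ⟨((h b hb).2 f hf).1, ((h b hb).2 f hf).2.mono (by omega)⟩
    · exact ⟨((h' c hc).2 f hf).1, ((h' c hc).2 f hf).2.mono (by omega)⟩
  rcases he with rfl | rfl
  · exact ⟨(h b hb).1.add (h' c hc).1, hF⟩
  · exact ⟨(h b hb).1.sub (h' c hc).1, hF⟩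

end Pool.Agent.K9h32.SM.HJT
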