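import Pool.Agent.K9h32.SM.StmA
import Pool.Agent.K9h32.SP.PRT
import Pool.Agent.K9h32.SP.Tim
import Pool.Agent.K9h32.SP.Glob
import Pool.Agent.K9h32.SP.Iter
import Pool.Agent.K9h32.HJ.FinA
import Pool.Agent.K9h32.HJ.GenQ

/-!
# Leaf M-ITER: nested intervals, growth and direction (all flat metrics)
-/

set_option autoImplicit false

open Set Filter Topology
open scoped ContDiff

noncomputable section

namespace Pool.Agent.K9h32.SM

open Pool.Agent.N980.TL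
open Pool.Agent.K9h32.SP (Sol bt Chi UHd S_UH2 S_GLOB S_TIM)

namespace Iter

variable {n : ℕ} [Lat n]

/-- `y = M x` -/
def toy (x : E n) : E n := HJ.mv (Lat.M : Fin n → Fin n → ℝ) x

theorem tox_mv (y : E n) : tox y = HJ.mv (Lat.W : Fin n → Fin n → ℝ) y := rfl

theorem tox_toy (x : E n) : tox (toy x) = x := by
  rw [tox_mv, toy]
  exact HJ.Gq.mv_mv Lat.hWM x

theorem tox_sub (y z : E n) : tox y - tox z = tox (y - z) := by
  rw [tox_mv, tox_mv, tox_mv]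
  exact HJ.Gq.mv_sub _ _ _

theorem tox_smul (c : ℝ) (y : E n) : tox (c • y) = c • tox y := by
  funext i
  simp only [tox, Pi.smul_apply, smul_eq_mul, Finset.mul_sum]
  exact Finset.sum_congr rfl fun j _ => by ring

theorem tox_zero : tox (0 : E n) = 0 := by
  funext i
  simp [tox]

theorem tox_le (y : E n) : ‖tox y‖ ≤ (HJ.nm (Lat.W : Fin n → Fin n → ℝ) + 1) * ‖y‖ := by
  rw [tox_mv]
  refine (HJ.Gq.norm_mv_le _ _).trans ?_
  have := norm_nonneg y
  nlinarith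

/-- the velocity in the coordinates `x` -/
theorem vel (u : E n) (hu : u ≠ 0) (η : ℝ) (hη : 0 < η) : toy u ≠ 0 ∧ ∃ η1 c0 : ℝ, 0 < η1 ∧ 0 < c0 ∧
    ∀ q : Fin n → ℤ, 1 ≤ ‖rv q‖ → ‖(‖rv q‖⁻¹) • rv q - (‖toy u‖⁻¹) • toy u‖ ≤ η1 →
      ∀ (C l : ℝ), 0 ≤ C → 0 < l → C ≤ η1 * l → ∀ V : E n, ‖V - l • rv q‖ ≤ η1 * l + C →
        c0 * l ≤ ‖tox V‖ ∧ ‖(‖tox V‖⁻¹) • tox V - (‖u‖⁻¹) • u‖ ≤ η := by
  have hy : toy u ≠ 0 := by
    intro h
    apply hu
    rw [← tox_toy u, h, tox_zero]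
  refine ⟨hy, ?_⟩
  obtain ⟨a, ha⟩ : ∃ a, a = ‖toy u‖ := ⟨_, rfl⟩
  obtain ⟨b, hb⟩ : ∃ b, b = ‖u‖ := ⟨_, rfl⟩
  have ha0 : 0 < a := by rw [ha]; exact norm_pos_iff.2 hy
  have hb0 : 0 < b := by rw [hb]; exact norm_pos_iff.2 hu
  obtain ⟨N, hN⟩ : ∃ N, N = HJ.nm (Lat.W : Fin n → Fin n → ℝ) + 1 := ⟨_, rfl⟩
  have hN1 : 1 ≤ N := by
    have := HJ.Gq.nm_nonneg (Lat.W : Fin n → Fin n → ℝ)
    rw [hN]; linarith
  have hN0 : 0 < N := by linarith
  have hm0 : 0 < min 1 η := lt_min one_pos hη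
  refine ⟨min 1 η * b / (6 * N * a), b / (2 * a), by positivity, by positivity, ?_⟩
  obtain ⟨η1, hη1⟩ : ∃ η1, η1 = min 1 η * b / (6 * N * a) := ⟨_, rfl⟩
  have hη10 : 0 < η1 := by rw [hη1]; positivity
  rw [← hη1]
  intro q hq hdir C l hC hl hCl V hV
  obtain ⟨r, hr⟩ : ∃ r, r = ‖rv q‖ := ⟨_, rfl⟩
  rw [← hr, ← ha] at hdir
  rw [← hr] at hq
  have hr0 : 0 < r := by linarith
  -- V is close to a multiple of toy u
  have h1 : ‖V - (l * r * a⁻¹) • toy u‖ ≤ 3 * η1 * (l * r) := by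
    have e : V - (l * r * a⁻¹) • toy u = (V - l • rv q) + (l * r) • ((r⁻¹) • rv q - (a⁻¹) • toy u) := by
      rw [smul_sub, smul_smul, smul_smul]
      have e2 : l * r * r⁻¹ = l := by field_simp
      rw [e2]
      abel
    rw [e]
    refine (norm_add_le _ _).trans ?_
    rw [norm_smul, Real.norm_eq_abs, abs_of_pos (by positivity : 0 < l * r)]
    have h2 : l * r * ‖(r⁻¹) • rv q - (a⁻¹) • toy u‖ ≤ l * r * η1 := mul_le_mul_of_nonneg_left hdir (by positivity)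
    have h3 : η1 * l ≤ η1 * (l * r) := by
      refine mul_le_mul_of_nonneg_left ?_ hη10.le
      nlinarith
    linarith
  have h2 : ‖tox V - (l * r * b * a⁻¹) • ((b⁻¹) • u)‖ ≤ min 1 η / 2 * (l * r * b * a⁻¹) := by
    have e : tox V - (l * r * b * a⁻¹) • ((b⁻¹) • u) = tox (V - (l * r * a⁻¹) • toy u) := by
      rw [← tox_sub, tox_smul, tox_toy, smul_smul]
      congr 2
      field_simp
    rw [e]
    refine (tox_le _).trans ?_
    rw [← hN]
    refine (mul_le_mul_of_nonneg_left h1 hN0.le).trans (le_of_eq ?_)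
    rw [hη1]
    field_simp
    ring
  have hΩ : 0 < l * r * b * a⁻¹ := by positivity
  have hy1 : ‖(b⁻¹) • u‖ = 1 := by
    rw [norm_smul, Real.norm_eq_abs, abs_of_pos (by positivity : 0 < b⁻¹), ← hb]
    field_simp
  have h3 := HJ.Fn.dir_close hΩ (by have := min_le_left 1 η; linarith : min 1 η / 2 ≤ 1 / 2) (by rw [hy1]) h2
  rw [hy1, inv_one, one_smul] at h3
  refine ⟨?_, ?_⟩
  · refine le_trans ?_ h3.1
    have h4 : l * r * b * a⁻¹ / 2 = b / (2 * a) * l * r := by field_simp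
    rw [h4]
    have h5 : 0 < b / (2 * a) * l := by positivity
    nlinarith
  · rw [← hb]
    refine h3.2.trans ?_
    have := min_le_right 1 η
    linarith

/-- **Leaf M-ITER.** -/
theorem t : S_ITER := by
  intro hU hFrc hStep n k _ hn hk N D u hu ε R η hε hη
  obtain ⟨B, hBB, hBk⟩ := SP.Tim.t k
  have hBB' : BB k B := hBB
  obtain ⟨hyu, η1, c0, hη1, hc0, hvel⟩ := vel u hu η hη
  obtain ⟨p, q, w0, hp, hp1, hq1, hqu, hSt⟩ := hStep n N D k B hn hBB' (toy u) hyu η1 hη1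
  obtain ⟨ε', hε', hPr⟩ := SP.PRT.t n k p q hp ε hε
  obtain ⟨A, χ, T, sg, mu, κ, ρ, a, b, aj, bj, G, hUH⟩ := SP.S_UH2_iff.1 hU k (ε' / (|cp p| + 1)) (by positivity)
  obtain ⟨hT2, -, -, -, -, -, -, -, -, -, -, -, hAs, hAp, hAe, hχs, hχp, -⟩ := id hUH
  have hSP2 : SP2 A := ⟨hAs, hAp⟩
  have hSP2' : SP.SP2 (fun s t => cp p * A s t) := ⟨contDiff_const.mul hAs, fun s t m l => by
    show cp p * A _ _ = cp p * A _ _
    rw [hAp s t m l]⟩
  have hAe' : ∀ i ≤ k, ∀ z, ‖iteratedFDeriv ℝ i (fun z : ℝ × ℝ => cp p * A z.1 z.2) z‖ ≤ ε' := by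
    intro i hi z
    have e : (fun z : ℝ × ℝ => cp p * A z.1 z.2) = cp p • (fun z : ℝ × ℝ => A z.1 z.2) := rfl
    have hAi : ContDiffAt ℝ i (fun z : ℝ × ℝ => A z.1 z.2) z := (hAs.of_le (by exact_mod_cast le_top)).contDiffAt
    rw [e, iteratedFDeriv_const_smul_apply hAi, norm_smul, Real.norm_eq_abs]
    have h1 := hAe i hi z
    have h2 : 0 ≤ |cp p| := abs_nonneg _
    calc |cp p| * ‖iteratedFDeriv ℝ i (fun z : ℝ × ℝ => A z.1 z.2) z‖
        ≤ (|cp p| + 1) * (ε' / (|cp p| + 1)) := mul_le_mul (by linarith) h1 (norm_nonneg _) (by positivity)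
      _ = ε' := by field_simp
  have hChi : Chi χ := ⟨hχs, hχp⟩
  have hbper : ∀ (t : ℝ) (l : ℤ), bt B (t + l) = bt B t := fun t l => by simp [bt]
  have hb1 : ContDiff ℝ 1 (bt B) := hBk.of_le (by exact_mod_cast (by omega : 1 ≤ k))
  obtain ⟨δ0, hδ0, hPr2⟩ := hPr (fun s t => cp p * A s t) χ (bt B) hSP2' hAe' hChi hBk hbper
  obtain ⟨hgC, hF⟩ := hFrc n N D p q A χ (bt B) hp1 hSP2 hChi hb1 hbper
  obtain ⟨δ1, hδ1, hSt2⟩ := hSt _ A χ T sg mu κ ρ a b aj bj G hUH hgC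
  set δ : ℝ := min δ0 δ1 with hδ
  have hδpos : 0 < δ := lt_min hδ0 hδ1
  obtain ⟨κf, c1, lam0, c', C, hlam0, hc', hC, hInit, hStepp⟩ := hSt2 δ hδpos (min_le_right _ _)
  obtain ⟨hgr, hcont, ⟨CB, hCB0, hCB⟩, ⟨Lb, hLb0, hLb⟩, hper⟩ := hF δ
  obtain ⟨hFk, hFper, hFe⟩ := hPr2 δ hδpos.le (min_le_left _ _)
  obtain ⟨Φ, hΦ0, hΦd, -, -, hΦc⟩ := SP.Glob.t n (fun x t => Frc D p q A χ (bt B) δ x t) CB Lb hCB0 hLb0 hcont
    hCB hLb
  set lam : ℝ := lam0 + |R| / c0 + C / η1 + 1 with hlam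
  have hlamR : 0 ≤ |R| / c0 := by positivity
  have hlamC : 0 ≤ C / η1 := by positivity
  have hlamge : lam0 ≤ lam := by rw [hlam]; linarith
  have hlam1 : 1 ≤ lam := hlam0.trans hlamge
  obtain ⟨x, v, hxc, hvc, hInv⟩ := hInit lam hlamge
  have hTpos : (0 : ℝ) < T := by
    have : 0 < T := by omega
    exact_mod_cast this
  -- the nested intervals
  obtain ⟨τ, hτ⟩ := SP.Iter.nested
    (fun m α β => Inv k p q w0 sg mu κ a b κf T c1 (m : ℤ) (lam ^ (k + 3) + c' * m)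
      (fun τ => (Φ 0 (x τ) (v τ) (T * m)).1) (fun τ => (Φ 0 (x τ) (v τ) (T * m)).2) α β)
    (fun m τ => ∀ t ∈ Icc (0 : ℝ) T, ∃ l : ℝ, 0 < l ∧ lam ^ (k + 3) + c' * m ≤ l ^ (k + 3) ∧
      ‖(Φ 0 (x τ) (v τ) (T * m + t)).2 - l • rv q‖ ≤ η1 * l + C) a b
    (by
      have e1 : (fun τ => (Φ 0 (x τ) (v τ) (T * ((0 : ℕ) : ℝ))).1) = x := by
        funext τ; rw [Nat.cast_zero, mul_zero, hΦ0]
      have e2 : (fun τ => (Φ 0 (x τ) (v τ) (T * ((0 : ℕ) : ℝ))).2) = v := by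
        funext τ; rw [Nat.cast_zero, mul_zero, hΦ0]
      have e3 : lam ^ (k + 3) + c' * ((0 : ℕ) : ℝ) = lam ^ (k + 3) := by simp
      simp only [e1, e2, e3]
      exact_mod_cast hInv)
    (fun m α β h => h.le)
    (by
      intro m α β hI
      have hΛ : lam0 ^ (k + 3) ≤ lam ^ (k + 3) + c' * m := by
        have h1 : lam0 ^ (k + 3) ≤ lam ^ (k + 3) := pow_le_pow_left₀ (by linarith) hlamge _
        have h2 : 0 ≤ c' * m := by positivity
        linarith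
      have hTm : ∀ t : ℝ, (T : ℝ) * m + t = t + (((T * m : ℕ) : ℤ) : ℝ) := by
        intro t
        push_cast
        ring
      obtain ⟨α', β', h1, h2, h3, h4⟩ := hStepp (m : ℤ) (lam ^ (k + 3) + c' * m) hΛ
        (fun τ t => (Φ 0 (x τ) (v τ) (T * m + t)).1) (fun τ t => (Φ 0 (x τ) (v τ) (T * m + t)).2) α β
        (by
          intro τ _ t _
          have hd := hΦd 0 (x τ) (v τ) (T * m + t)
          refine ⟨hd.1.comp_const_add (T * m : ℝ) t, ?_⟩
          have h5 := hd.2.comp_const_add (T * m : ℝ) t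
          have e : Frc D p q A χ (bt B) δ (Φ 0 (x τ) (v τ) (T * m + t)).1 (T * m + t) =
              Frc D p q A χ (bt B) δ (Φ 0 (x τ) (v τ) (T * m + t)).1 t := by
            conv_lhs => rw [hTm t]
            rw [hper, ← hTm t]
          rw [e] at h5
          exact h5)
        (by
          intro t _
          have h5 : Continuous fun τ => Φ 0 (x τ) (v τ) (T * m + t) :=
            (hΦc 0 (T * m + t)).comp (hxc.prodMk hvc)
          exact ⟨h5.fst.continuousOn, h5.snd.continuousOn⟩)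
        (by simpa only [add_zero] using hI)
      refine ⟨α', β', h1, h2, ?_, h4⟩
      have e1 : (T : ℝ) * ((m + 1 : ℕ) : ℝ) = T * m + T := by push_cast; ring
      have e2 : lam ^ (k + 3) + c' * ((m + 1 : ℕ) : ℝ) = lam ^ (k + 3) + c' * m + c' := by push_cast; ring
      have e3 : ((m + 1 : ℕ) : ℤ) = (m : ℤ) + 1 := by push_cast; ring
      simp only [e1, e2, e3]
      exact h3)
  -- the estimate of the velocity
  have key : ∀ t : ℝ, 0 ≤ t → ∃ l : ℝ, lam ≤ l ∧ min 1 c' / T * t ≤ l ^ (k + 3) ∧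
      c0 * l ≤ ‖tox (Φ 0 (x τ) (v τ) t).2‖ ∧
        ‖(‖tox (Φ 0 (x τ) (v τ) t).2‖⁻¹) • tox (Φ 0 (x τ) (v τ) t).2 - (‖u‖⁻¹) • u‖ ≤ η := by
    intro t ht
    set m : ℕ := ⌊t / T⌋₊ with hm
    have h1 : (m : ℝ) ≤ t / T := Nat.floor_le (by positivity)
    have h2 : t / T < m + 1 := Nat.lt_floor_add_one _
    have h3 : (T : ℝ) * m ≤ t := by
      rw [le_div_iff₀ hTpos] at h1
      linarith
    have h4 : t < T * (m + 1) := by
      rw [div_lt_iff₀ hTpos] at h2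
      linarith
    obtain ⟨l, hl0, hl1, hl2⟩ := hτ m (t - T * m) ⟨by linarith, by linarith⟩
    have e : (T : ℝ) * m + (t - T * m) = t := by ring
    rw [e] at hl2
    have hcm : 0 ≤ c' * m := by positivity
    have hll : lam ≤ l := by
      have h5 : lam ^ (k + 3) ≤ l ^ (k + 3) := by linarith
      exact le_of_pow_le_pow_left₀ (by omega) hl0.le h5
    have hCl : C ≤ η1 * l := by
      have h5 : C / η1 ≤ l := by
        refine le_trans ?_ hll
        rw [hlam]; linarith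
      rw [div_le_iff₀ hη1] at h5
      linarith
    obtain ⟨h8, h9⟩ := hvel q hq1 hqu C l hC hl0 hCl _ hl2
    refine ⟨l, hll, ?_, h8, h9⟩
    refine le_trans ?_ hl1
    have h6 : 1 ≤ lam ^ (k + 3) := one_le_pow₀ hlam1
    have h7 : min 1 c' / T * t ≤ min 1 c' * (m + 1) := by
      rw [div_mul_eq_mul_div, div_le_iff₀ hTpos]
      have h8 : 0 < min 1 c' := lt_min one_pos hc'
      nlinarith
    refine h7.trans ?_
    have h9 : min 1 c' * m ≤ c' * m := mul_le_mul_of_nonneg_right (min_le_right _ _) (by positivity)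
    have h10 : min 1 c' ≤ 1 := min_le_left _ _
    linarith
  have hc2 : 0 < min 1 c' / (T : ℝ) := div_pos (lt_min one_pos hc') hTpos
  -- the derivative of a curve in the coordinates `x`
  have htox : ∀ {f : ℝ → E n} {f' : E n} {t : ℝ}, HasDerivAt f f' t → HasDerivAt (fun s => tox (f s)) (tox f') t := by
    intro f f' t h
    rw [hasDerivAt_pi] at h ⊢
    intro i
    simp only [tox]
    exact HasDerivAt.fun_sum fun j _ => (h j).const_mul _
  refine ⟨fun z => SP.prt p q (fun s t => cp p * A s t) χ (bt B) δ z.1 z.2,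
    fun t => tox (Φ 0 (x τ) (v τ) t).1, fun t => tox (Φ 0 (x τ) (v τ) t).2,
    c0 * (min 1 c' / (T : ℝ)) ^ (1 / ((k : ℝ) + 3)), by positivity, hFk, hFper, hFe, ?_, ?_⟩
  · intro t ht
    obtain ⟨l, hl1, hl2, hl3, hl4⟩ := key t ht
    have hR : R ≤ |R| := le_abs_self R
    have hl0 : 0 ≤ l := by linarith
    refine ⟨?_, ?_, hl4⟩
    · refine hR.trans (le_trans ?_ hl3)
      have h5 : |R| / c0 ≤ l := by
        refine le_trans ?_ hl1
        rw [hlam]; linarith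
      rw [div_le_iff₀ hc0] at h5
      linarith
    · refine le_trans ?_ hl3
      have e : (1 : ℝ) / ((k : ℝ) + 3) = ((k + 3 : ℕ) : ℝ)⁻¹ := by push_cast; rw [one_div]
      have h4 : (min 1 c' / (T : ℝ) * t) ^ (1 / ((k : ℝ) + 3)) ≤ l := by
        calc (min 1 c' / (T : ℝ) * t) ^ (1 / ((k : ℝ) + 3)) ≤ (l ^ (k + 3)) ^ (1 / ((k : ℝ) + 3)) :=
              Real.rpow_le_rpow (by positivity) hl2 (by positivity)
          _ = l := by rw [e, Real.pow_rpow_inv_natCast hl0 (by omega)]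
      rw [Real.mul_rpow hc2.le ht] at h4
      calc c0 * (min 1 c' / (T : ℝ)) ^ (1 / ((k : ℝ) + 3)) * t ^ (1 / ((k : ℝ) + 3))
          = c0 * ((min 1 c' / (T : ℝ)) ^ (1 / ((k : ℝ) + 3)) * t ^ (1 / ((k : ℝ) + 3))) := by ring
        _ ≤ c0 * l := mul_le_mul_of_nonneg_left h4 hc0.le
  · intro t
    have hd := hΦd 0 (x τ) (v τ) t
    refine ⟨htox hd.1, ?_⟩
    have h1 := htox hd.2
    have e : tox (Frc D p q A χ (bt B) δ (Φ 0 (x τ) (v τ) t).1 t) = fun i => ∑ j, (∑ l, Lat.W i l * Lat.W j l) *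
        gr (fun x t => D.val x t + SP.prt p q (fun s t => cp p * A s t) χ (bt B) δ x t)
          (tox (Φ 0 (x τ) (v τ) t).1) t j := by
      funext i
      have e2 : ∀ l, Frc D p q A χ (bt B) δ (Φ 0 (x τ) (v τ) t).1 t l = ∑ j, Lat.W j l *
          gr (fun x t => D.val x t + SP.prt p q (fun s t => cp p * A s t) χ (bt B) δ x t)
            (tox (Φ 0 (x τ) (v τ) t).1) t j := fun l => (hgr _ t l).symm
      show ∑ l, Lat.W i l * Frc D p q A χ (bt B) δ (Φ 0 (x τ) (v τ) t).1 t l = _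
      simp only [e2, Finset.mul_sum, Finset.sum_mul]
      rw [Finset.sum_comm]
      refine Finset.sum_congr rfl fun j _ => Finset.sum_congr rfl fun l _ => ?_
      ring
    rw [e] at h1
    exact h1

end Iter

end Pool.Agent.K9h32.SM
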