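import Pool.Agent.K9h32.SP.StmS
import Pool.Agent.K9h32.SP.StmU2

/-!
# `C^k`-density for every `k` and all flat metrics: the coordinates `y = M x` in which the metric is standard

All statements are in the coordinates `y`; a frequency `k ∈ ℤ^n` is the covector `rv k` with
`rv k · y = k · x`, `x = W y`.
-/

set_option autoImplicit false

open Set Filter Topology
open scoped ContDiff

noncomputable section

namespace Pool.Agent.K9h32.SM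

open Pool.Agent.N980.TL

/-- the coordinates `y = M x`, `x = W y` -/
class Lat (n : ℕ) where
  M : Fin n → Fin n → ℝ
  W : Fin n → Fin n → ℝ
  hMW : ∀ i k, ∑ j, M i j * W j k = if i = k then 1 else 0
  hWM : ∀ i k, ∑ j, W i j * M j k = if i = k then 1 else 0

variable {n N : ℕ} [Lat n]

/-- the covector of a frequency -/
def rv (k : Fin n → ℤ) : E n := fun i => ∑ j, Lat.W j i * (k j : ℝ)

/-- `k·x`, `x = W y` -/
def dot (f : Fin n → ℤ) (y : E n) : ℝ := ∑ i, rv f i * y i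

/-- `x = W y` -/
def tox (y : E n) : E n := fun i => ∑ j, Lat.W i j * y j

/-- the gradient in `y` -/
def Dg (D : Trig n N) (y : E n) (t : ℝ) (i : Fin n) : ℝ := ∑ l, Lat.W l i * D.grad (tox y) t l

theorem rv_add (f g : Fin n → ℤ) : rv (f + g) = rv f + rv g := by
  funext i
  simp only [rv, Pi.add_apply, Int.cast_add, mul_add, Finset.sum_add_distrib]

theorem rv_sub (f g : Fin n → ℤ) : rv (f - g) = rv f - rv g := by
  funext i
  simp only [rv, Pi.sub_apply, Int.cast_sub, mul_sub, Finset.sum_sub_distrib]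

theorem rv_zero : rv (0 : Fin n → ℤ) = 0 := by
  funext i
  simp [rv]

theorem dot_eq_tox (f : Fin n → ℤ) (y : E n) : dot f y = ∑ j, (f j : ℝ) * tox y j := by
  simp only [dot, rv, tox, Finset.sum_mul, Finset.mul_sum]
  rw [Finset.sum_comm]
  exact Finset.sum_congr rfl fun j _ => Finset.sum_congr rfl fun i _ => by ring

theorem rv_ne {k : Fin n → ℤ} (hk : k ≠ 0) : rv k ≠ 0 := by
  intro h
  apply hk
  funext j
  have h1 : ∑ i, rv k i * Lat.M i j = (k j : ℝ) := by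
    simp only [rv, Finset.sum_mul]
    rw [Finset.sum_comm]
    calc ∑ l, ∑ i, Lat.W l i * (k l : ℝ) * Lat.M i j = ∑ l, (k l : ℝ) * ∑ i, Lat.W l i * Lat.M i j := by
          refine Finset.sum_congr rfl fun l _ => ?_
          rw [Finset.mul_sum]
          exact Finset.sum_congr rfl fun i _ => by ring
      _ = ∑ l, (k l : ℝ) * (if l = j then 1 else 0) := by
          refine Finset.sum_congr rfl fun l _ => ?_
          rw [Lat.hWM]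
      _ = (k j : ℝ) := by simp
  rw [h] at h1
  simp only [Pi.zero_apply, zero_mul, Finset.sum_const_zero] at h1
  exact_mod_cast h1.symm

/-! ## Atoms with smooth coefficients in time -/

/-- the atom `a(t) ∏_f (f·v)⁻¹ cos (2π k·x + φ)` -/
structure TA (n : ℕ) where
  a : ℝ → ℝ
  F : List (Fin n → ℤ)
  k : Fin n → ℤ
  φ : ℝ

/-- the value of an atom -/
def TA.ev (a : TA n) (x v : E n) (t : ℝ) : ℝ :=
  a.a t * (a.F.map fun f => (dot f v)⁻¹).prod * Real.cos (2 * Real.pi * dot a.k x + a.φ)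

/-- the value of a sum of atoms -/
def tev (L : List (TA n)) (x v : E n) (t : ℝ) : ℝ := (L.map fun a => a.ev x v t).sum

/-- `∂/∂x_i` -/
def tdx (i : Fin n) (L : List (TA n)) : List (TA n) :=
  L.map fun a => { a with a := fun t => a.a t * (2 * Real.pi * rv a.k i), φ := a.φ + Real.pi / 2 }

/-- `∂/∂t` -/
def tdt {n : ℕ} (L : List (TA n)) : List (TA n) := L.map fun a => { a with a := deriv a.a }

/-- smooth coefficients, and factors in `𝓕` -/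
def Good {n : ℕ} (𝓕 : List (Fin n → ℤ)) (L : List (TA n)) : Prop :=
  ∀ a ∈ L, ContDiff ℝ ∞ a.a ∧ ∀ f ∈ a.F, f ∈ 𝓕

/-- Leaf HJT: approximate solutions `w1` of the Hamilton-Jacobi equation (differentiated in `x_j`)
`∂_t w + v·∂_x w + |∂_x w|²/2 = D + δ B(t) cos (2π q·x + φ) + …` where `B` vanishes to the order `k + 1` at `0` and
is `0` for `t ≥ 1/100`. `w0` is the solution for `D`. The last line is the jump of `∂_x w` at the time `0`. -/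
def S_HJT : Prop :=
  ∀ (n N : ℕ) [Lat n] (D : Trig n N) (k M : ℕ) (B : ℝ → ℝ), ContDiff ℝ ∞ B → (∀ i ≤ k, iteratedDeriv i B 0 = 0) →
    iteratedDeriv (k + 1) B 0 = (k + 1).factorial → (∀ t, 1 / 100 ≤ t → B t = 0) →
    ∃ (R : ℕ) (w0 : List (TA n)), (∀ a ∈ w0, 1 ≤ a.F.length) ∧
      (∀ (x v : E n) (t : ℝ) (i : Fin n), tev (tdx i w0) x v (t + 1) = tev (tdx i w0) x v t) ∧
      ∀ q : Fin n → ℤ, q ≠ 0 → ∃ 𝓕 : List (Fin n → ℤ), q ∈ 𝓕 ∧ Good 𝓕 w0 ∧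
        (∀ f ∈ 𝓕, f ≠ 0 ∧ ∃ (g : Fin n → ℤ) (l : ℤ), (∀ i, |g i| ≤ R) ∧ |l| ≤ R ∧ f = fun i => g i + l * q i) ∧
        ∀ δ φ : ℝ, ∃ w1 e1 r : List (TA n), Good 𝓕 w1 ∧ Good 𝓕 e1 ∧ Good 𝓕 r ∧
          (∀ a ∈ w1, 1 ≤ a.F.length) ∧ (∀ a ∈ e1, M ≤ a.F.length) ∧ (∀ a ∈ r, k + 3 ≤ a.F.length) ∧
          ∀ v : E n, (∀ f ∈ 𝓕, dot f v ≠ 0) → ∀ (x : E n) (j : Fin n),
            (∀ t : ℝ, tev (tdt (tdx j w1)) x v t +
              ∑ i, (v i + tev (tdx i w1) x v t) * tev (tdx i (tdx j w1)) x v t =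
              Dg D x t j - δ * B t * (2 * Real.pi * rv q j) * Real.sin (2 * Real.pi * dot q x + φ) +
                tev (tdx j e1) x v t) ∧
            (∀ t : ℝ, 1 / 100 ≤ t → tev (tdx j w1) x v t = tev (tdx j w0) x v t) ∧
            tev (tdx j w1) x v 0 - tev (tdx j w0) x v 0 =
              -((-1) ^ (k + 1) * (k + 1).factorial * δ * (2 * Real.pi * rv q j) *
                Real.sin (2 * Real.pi * dot q x + φ - (k + 2) * (Real.pi / 2)) / (2 * Real.pi * dot q v) ^ (k + 2)) +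
              tev (tdx j r) x v 0

/-! ## Atoms with slow coefficients -/

/-- the atom `a(p·x, p·P, t) ∏_f (f·P)⁻¹ cos (2π k·x + φ)`; the vector `p` is fixed -/
structure TS (n : ℕ) where
  a : ℝ → ℝ → ℝ → ℝ
  F : List (Fin n → ℤ)
  k : Fin n → ℤ
  φ : ℝ

/-- the value of an atom -/
def TS.ev (p : Fin n → ℤ) (a : TS n) (x P : E n) (t : ℝ) : ℝ :=
  a.a (dot p x) (dot p P) t * (a.F.map fun f => (dot f P)⁻¹).prod * Real.cos (2 * Real.pi * dot a.k x + a.φ)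

/-- the value of a sum of atoms -/
def sev (p : Fin n → ℤ) (L : List (TS n)) (x P : E n) (t : ℝ) : ℝ := (L.map fun a => a.ev p x P t).sum

/-- `∂a/∂s` -/
def d1 (a : ℝ → ℝ → ℝ → ℝ) : ℝ → ℝ → ℝ → ℝ := fun s r t => deriv (fun s => a s r t) s
/-- `∂a/∂r` -/
def d2 (a : ℝ → ℝ → ℝ → ℝ) : ℝ → ℝ → ℝ → ℝ := fun s r t => deriv (fun r => a s r t) r
/-- `∂a/∂t` -/
def d3 (a : ℝ → ℝ → ℝ → ℝ) : ℝ → ℝ → ℝ → ℝ := fun s r t => deriv (fun t => a s r t) t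

/-- `∂/∂x_i` -/
def sx (p : Fin n → ℤ) (i : Fin n) (L : List (TS n)) : List (TS n) :=
  L.flatMap fun a => [{ a with a := fun s r t => d1 a.a s r t * rv p i },
    { a with a := fun s r t => a.a s r t * (2 * Real.pi * rv a.k i), φ := a.φ + Real.pi / 2 }]

/-- `∂/∂t` -/
def st {n : ℕ} (L : List (TS n)) : List (TS n) := L.map fun a => { a with a := d3 a.a }

/-- the derivative of the coefficients in the slow position -/
def ss {n : ℕ} (L : List (TS n)) : List (TS n) := L.map fun a => { a with a := d1 a.a }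

/-- the derivative `p·∂/∂P` -/
def sp (p : Fin n → ℤ) (L : List (TS n)) : List (TS n) :=
  L.flatMap fun a => { a with a := fun s r t => d2 a.a s r t * dot p (rv p) } ::
    a.F.map fun f => { a with a := fun s r t => -dot f (rv p) * a.a s r t, F := f :: a.F }

/-- smooth coefficients, 1-periodic in the slow position, and factors in `𝓕` -/
def SGood {n : ℕ} (𝓕 : List (Fin n → ℤ)) (L : List (TS n)) : Prop :=
  ∀ a ∈ L, ContDiff ℝ ∞ (fun z : ℝ × ℝ × ℝ => a.a z.1 z.2.1 z.2.2) ∧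
    (∀ (s r t : ℝ) (m : ℤ), a.a (s + m) r t = a.a s r t) ∧ ∀ f ∈ a.F, f ∈ 𝓕

/-- the coefficients vanish where `A` vanishes locally -/
def Loc {n : ℕ} (A : ℝ → ℝ → ℝ) (L : List (TS n)) : Prop :=
  ∀ a ∈ L, ∀ s t : ℝ, (∀ᶠ z in 𝓝 (s, t), A z.1 z.2 = 0) → ∀ r, a.a s r t = 0

/-- the sum of atoms as a sum of atoms with slow coefficients -/
def emb {n : ℕ} (L : List (TA n)) : List (TS n) :=
  L.map fun a => { a := fun _ _ t => a.a t, F := a.F, k := a.k, φ := a.φ }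

/-- the slow potential -/
def slowAt {n : ℕ} (A : ℝ → ℝ → ℝ) : TS n := { a := fun s _ t => A s t, F := [], k := 0, φ := 0 }

/-- Leaf HJK: `w0` is given; `w = w0 + w'` and the averaged potential `𝒜 = A + al` are an approximate solution of
`∂_t w + P·∂_x w + |∂_x w|²/2 = D + A(p·x,t) - 𝒜(p·x + p·∂_P w, P, t)`. -/
def S_HJK : Prop :=
  ∀ (n : ℕ) [Lat n] (w0 : List (TA n)) (M : ℕ), (∀ a ∈ w0, ContDiff ℝ ∞ a.a) → (∀ a ∈ w0, 1 ≤ a.F.length) →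
    (∀ a ∈ w0, ∀ f ∈ a.F, f ≠ 0) → ∃ R : ℕ, ∀ (p : Fin n → ℤ) (A : ℝ → ℝ → ℝ),
      ContDiff ℝ ∞ (fun q : ℝ × ℝ => A q.1 q.2) → (∀ (s t : ℝ) (m : ℤ), A (s + m) t = A s t) →
      ∃ (w al e : List (TS n)) (𝓕 : List (Fin n → ℤ)),
        (∀ f ∈ 𝓕, f ≠ 0 ∧ ∀ i, |f i| ≤ R) ∧ SGood 𝓕 (emb w0) ∧ SGood 𝓕 w ∧ SGood 𝓕 al ∧ SGood 𝓕 e ∧
        (∀ a ∈ w, 1 ≤ a.F.length) ∧ (∀ a ∈ al, a.k = 0 ∧ 1 ≤ a.F.length) ∧ (∀ a ∈ e, M ≤ a.F.length) ∧
        Loc A w ∧ Loc A al ∧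
        ∀ P : E n, (∀ f ∈ 𝓕, dot f P ≠ 0) → ∀ (x : E n) (t : ℝ),
          sev p (st w) x P t + ∑ i, P i * sev p (sx p i w) x P t +
            ∑ i, sev p (sx p i (emb w0)) x P t * sev p (sx p i w) x P t +
            (∑ i, sev p (sx p i w) x P t ^ 2) / 2 - A (dot p x) t +
            ∑ j ∈ Finset.range (M + 1), sev p (ss^[j] (slowAt A :: al)) x P t *
              (sev p (sp p (emb w0)) x P t + sev p (sp p w) x P t) ^ j / (j.factorial : ℝ) =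
          sev p e x P t

/-! ## the gate and the passage -/

/-- regular velocities -/
def Reg (𝓕 : List (Fin n → ℤ)) (lam : ℝ) (v : E n) : Prop := ∀ f ∈ 𝓕, lam / 2 ≤ |dot f v|

/-- the gradient of the sum of atoms -/
def gw (w0 : List (TA n)) (x P : E n) (t : ℝ) : E n := fun i => tev (tdx i w0) x P t

/-- conditions on the approximate solution `w0` -/
def W0 (w0 : List (TA n)) : Prop :=
  (∀ a ∈ w0, ContDiff ℝ ∞ a.a) ∧ (∀ a ∈ w0, 1 ≤ a.F.length) ∧ (∀ a ∈ w0, ∀ f ∈ a.F, f ≠ 0) ∧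
    ∀ (x P : E n) (t : ℝ), gw w0 x P (t + 1) = gw w0 x P t

/-- `w0` is an approximate solution of the Hamilton-Jacobi equation of `D` (for `t ≥ 0`; the error is taken at the
time `t + 1`) -/
def WE (D : Trig n N) (w0 : List (TA n)) (M : ℕ) (𝓕 : List (Fin n → ℤ)) (e0 : List (TA n)) : Prop :=
  Good 𝓕 w0 ∧ Good 𝓕 e0 ∧ (∀ a ∈ e0, M ≤ a.F.length) ∧
    ∀ P : E n, (∀ f ∈ 𝓕, dot f P ≠ 0) → ∀ (x : E n) (j : Fin n) (t : ℝ), 0 ≤ t →
      tev (tdt (tdx j w0)) x P t + ∑ i, (P i + tev (tdx i w0) x P t) * tev (tdx i (tdx j w0)) x P t =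
        Dg D x t j + tev (tdx j e0) x P (t + 1)

/-- `q` is nonresonant up to the order `R` -/
def NonRes (R : ℕ) (q : Fin n → ℤ) : Prop :=
  ∀ f : Fin n → ℤ, f ≠ 0 →
    (∃ (g : Fin n → ℤ) (l : ℤ), (∀ i, |g i| ≤ R) ∧ |l| ≤ R ∧ f = fun i => g i + l * q i) → 1 ≤ |dot f (rv q)|

/-- the conditions on the function of time `B` -/
def BB (k : ℕ) (B : ℝ → ℝ) : Prop :=
  ContDiff ℝ ∞ B ∧ (∀ i ≤ k, iteratedDeriv i B 0 = 0) ∧ iteratedDeriv (k + 1) B 0 = (k + 1).factorial ∧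
    ∀ t, 1 / 100 ≤ t → B t = 0

/-- the force in the gate number `j` -/
def gateF (D : Trig n N) (q : Fin n → ℤ) (B : ℝ → ℝ) (δ : ℝ) (j : Fin 3) (x : E n) (t : ℝ) : E n :=
  fun i => Dg D x t i - δ * B t * (2 * Real.pi * rv q i) *
    Real.sin (2 * Real.pi * dot q x + 2 * Real.pi * ((j : ℕ) : ℝ) / 3)

/-- Leaf GATE: the kick of one gate. -/
def S_GATE : Prop :=
  ∀ (n N : ℕ) [Lat n] (D : Trig n N) (k : ℕ) (B : ℝ → ℝ), BB k B → ∃ (R : ℕ) (w0 : List (TA n)), W0 w0 ∧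
    ∀ q : Fin n → ℤ, q ≠ 0 → NonRes R q → ∃ (𝓕 : List (Fin n → ℤ)) (e0 : List (TA n)), q ∈ 𝓕 ∧
      WE D w0 (k + 3) 𝓕 e0 ∧ (∀ f ∈ 𝓕, 1 ≤ |dot f (rv q)|) ∧
      ∀ δ : ℝ, 0 < δ → ∃ c C lam0 : ℝ, 0 < c ∧ 0 ≤ C ∧ 1 ≤ lam0 ∧ ∀ lam : ℝ, lam0 ≤ lam → ∀ P : E n, Reg 𝓕 lam P →
        0 < dot q P → dot q P ≤ 2 * lam * dot q (rv q) →
        ∀ (j : Fin 3) (x v : ℝ → E n), (∀ t ∈ Icc (0 : ℝ) (1 / 100), HasDerivAt x (v t) t ∧
          HasDerivAt v (gateF D q B δ j (x t) t) t) → v 0 = P + gw w0 (x 0) P 0 →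
          1 / 4 ≤ (-1) ^ (k + 1) * Real.sin (2 * Real.pi * dot q (x 0) + 2 * Real.pi * ((j : ℕ) : ℝ) / 3 -
            (k + 2) * (Real.pi / 2)) →
          ∃ (P' : E n) (κ : ℝ), c / lam ^ (k + 2) ≤ κ ∧ ‖P' - P - κ • rv q‖ ≤ C / lam ^ (k + 3) ∧ ‖P' - P‖ ≤ 1 ∧
            ‖v (1 / 100) - P' - gw w0 (x (1 / 100)) P' (1 / 100)‖ ≤ C / lam ^ (k + 3)

/-- Leaf PASS: the components of the velocity transversal to `p` are adiabatic invariants. -/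
def S_PASS : Prop :=
  ∀ (n N : ℕ) [Lat n] (D : Trig n N) (w0 : List (TA n)) (M : ℕ), W0 w0 → ∃ R : ℕ,
    ∀ (𝓕 : List (Fin n → ℤ)) (e0 : List (TA n)), WE D w0 M 𝓕 e0 →
    ∀ (p : Fin n → ℤ) (A : ℝ → ℝ → ℝ) (T K : ℝ), p ≠ 0 → 1 ≤ T →
      ContDiff ℝ ∞ (fun q : ℝ × ℝ => A q.1 q.2) → (∀ (s t : ℝ) (m l : ℤ), A (s + m) (t + l) = A s t) →
      ∃ C lam0 : ℝ, 0 ≤ C ∧ 1 ≤ lam0 ∧ ∀ lam : ℝ, lam0 ≤ lam → ∀ P : E n, Reg 𝓕 lam P →
        (∀ f : Fin n → ℤ, f ≠ 0 → (∀ i, |f i| ≤ R) → lam / 2 ≤ |dot f P|) → |dot p P| ≤ K →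
        ∀ x v : ℝ → E n, (∀ t ∈ Icc (1 / 100 : ℝ) T, HasDerivAt x (v t) t ∧
          HasDerivAt v (fun i => Dg D (x t) t i + deriv (fun u => A u t) (dot p (x t)) * rv p i) t) →
          (∀ᶠ z in 𝓝 (dot p (x (1 / 100)), (1 / 100 : ℝ)), A z.1 z.2 = 0) →
          (∀ᶠ z in 𝓝 (dot p (x T), T), A z.1 z.2 = 0) →
          ‖v (1 / 100) - P - gw w0 (x (1 / 100)) P (1 / 100)‖ ≤ K / lam ^ M →
          ∃ ρ : ℝ, |ρ| ≤ C ∧ ‖v T - (P + ρ • rv p) - gw w0 (x T) (P + ρ • rv p) T‖ ≤ C / lam ^ M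

/-- Leaf QA: a nonresonant frequency in a given direction -/
def S_QA : Prop :=
  ∀ (n R : ℕ) [Lat n], 1 ≤ n → ∀ u : E n, u ≠ 0 → ∀ η : ℝ, 0 < η → ∃ q : Fin n → ℤ, q ≠ 0 ∧ NonRes R q ∧
    1 ≤ ‖rv q‖ ∧ ‖(‖rv q‖⁻¹) • rv q - (‖u‖⁻¹) • u‖ ≤ η

/-- Leaf PA: a frequency nearly orthogonal to a given one -/
def S_PA : Prop :=
  ∀ (n : ℕ) [Lat n], 2 ≤ n → ∀ q : Fin n → ℤ, ∀ η : ℝ, 0 < η → ∃ p : Fin n → ℤ, p ≠ 0 ∧ 1 ≤ ‖rv p‖ ∧
    |dot p (rv q)| ≤ η * ‖rv p‖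

end Pool.Agent.K9h32.SM
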