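import Pool.Agent.K9h32.SM.Lat
import Pool.Agent.K9h32.SM.TEV

/-!
# Sums of atoms with slow coefficients: the chain rule and bounds
-/

set_option autoImplicit false
set_option linter.unusedSectionVars false

open Set Filter Topology
open scoped ContDiff

noncomputable section

namespace Pool.Agent.K9h32.SM

open Pool.Agent.N980.TL

/-! ## Coefficients -/

/-- smooth coefficients -/
def CS (a : ℝ → ℝ → ℝ → ℝ) : Prop := ContDiff ℝ ∞ (fun z : ℝ × ℝ × ℝ => a z.1 z.2.1 z.2.2)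

/-- the coefficient as a function of a triple -/
def uc (a : ℝ → ℝ → ℝ → ℝ) : ℝ × ℝ × ℝ → ℝ := fun z => a z.1 z.2.1 z.2.2

theorem CS.diff {a : ℝ → ℝ → ℝ → ℝ} (h : CS a) : Differentiable ℝ (uc a) := h.differentiable (by simp)

theorem CS.cont {a : ℝ → ℝ → ℝ → ℝ} (h : CS a) : Continuous (uc a) := h.continuous

theorem d1_eq {a : ℝ → ℝ → ℝ → ℝ} (h : CS a) (s r t : ℝ) : d1 a s r t = fderiv ℝ (uc a) (s, r, t) (1, 0, 0) := by
  have h1 : HasDerivAt (fun s : ℝ => ((s, r, t) : ℝ × ℝ × ℝ)) (1, 0, 0) s :=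
    (hasDerivAt_id s).prodMk ((hasDerivAt_const s r).prodMk (hasDerivAt_const s t))
  exact ((h.diff (s, r, t)).hasFDerivAt.comp_hasDerivAt s h1).deriv

theorem d2_eq {a : ℝ → ℝ → ℝ → ℝ} (h : CS a) (s r t : ℝ) : d2 a s r t = fderiv ℝ (uc a) (s, r, t) (0, 1, 0) := by
  have h1 : HasDerivAt (fun r : ℝ => ((s, r, t) : ℝ × ℝ × ℝ)) (0, 1, 0) r :=
    (hasDerivAt_const r s).prodMk ((hasDerivAt_id r).prodMk (hasDerivAt_const r t))
  exact ((h.diff (s, r, t)).hasFDerivAt.comp_hasDerivAt r h1).deriv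

theorem d3_eq {a : ℝ → ℝ → ℝ → ℝ} (h : CS a) (s r t : ℝ) : d3 a s r t = fderiv ℝ (uc a) (s, r, t) (0, 0, 1) := by
  have h1 : HasDerivAt (fun t : ℝ => ((s, r, t) : ℝ × ℝ × ℝ)) (0, 0, 1) t :=
    (hasDerivAt_const t s).prodMk ((hasDerivAt_const t r).prodMk (hasDerivAt_id t))
  exact ((h.diff (s, r, t)).hasFDerivAt.comp_hasDerivAt t h1).deriv

theorem CS.fd {a : ℝ → ℝ → ℝ → ℝ} (h : CS a) (e : ℝ × ℝ × ℝ) :
    ContDiff ℝ ∞ (fun z => fderiv ℝ (uc a) z e) :=
  ((ContDiff.fderiv_right (m := ∞) h (by simp)).clm_apply contDiff_const)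

theorem CS.d1 {a : ℝ → ℝ → ℝ → ℝ} (h : CS a) : CS (d1 a) := by
  have e : (fun z : ℝ × ℝ × ℝ => SM.d1 a z.1 z.2.1 z.2.2) = fun z => fderiv ℝ (uc a) z (1, 0, 0) := by
    funext z; exact d1_eq h _ _ _
  unfold CS; rw [e]; exact h.fd _

theorem CS.d2 {a : ℝ → ℝ → ℝ → ℝ} (h : CS a) : CS (d2 a) := by
  have e : (fun z : ℝ × ℝ × ℝ => SM.d2 a z.1 z.2.1 z.2.2) = fun z => fderiv ℝ (uc a) z (0, 1, 0) := by
    funext z; exact d2_eq h _ _ _
  unfold CS; rw [e]; exact h.fd _

theorem CS.d3 {a : ℝ → ℝ → ℝ → ℝ} (h : CS a) : CS (d3 a) := by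
  have e : (fun z : ℝ × ℝ × ℝ => SM.d3 a z.1 z.2.1 z.2.2) = fun z => fderiv ℝ (uc a) z (0, 0, 1) := by
    funext z; exact d3_eq h _ _ _
  unfold CS; rw [e]; exact h.fd _

/-- the chain rule for a coefficient -/
theorem CS.chain {a : ℝ → ℝ → ℝ → ℝ} (h : CS a) {S Q τ : ℝ → ℝ} {S' Q' τ' : ℝ} {u : ℝ} {s : Set ℝ}
    (h1 : HasDerivWithinAt S S' s u) (h2 : HasDerivWithinAt Q Q' s u) (h3 : HasDerivWithinAt τ τ' s u) :
    HasDerivWithinAt (fun u => a (S u) (Q u) (τ u))
      (S' * SM.d1 a (S u) (Q u) (τ u) + Q' * SM.d2 a (S u) (Q u) (τ u) + τ' * SM.d3 a (S u) (Q u) (τ u)) s u := by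
  have h4 : HasDerivWithinAt (fun u => ((S u, Q u, τ u) : ℝ × ℝ × ℝ)) (S', Q', τ') s u := h1.prodMk (h2.prodMk h3)
  have h5 := (h.diff (S u, Q u, τ u)).hasFDerivAt.comp_hasDerivWithinAt u h4
  refine h5.congr_deriv ?_
  rw [d1_eq h, d2_eq h, d3_eq h]
  have e : ((S', Q', τ') : ℝ × ℝ × ℝ) = S' • (1, 0, 0) + Q' • (0, 1, 0) + τ' • (0, 0, 1) := by
    ext <;> simp
  rw [e, map_add, map_add, map_smul, map_smul, map_smul]
  simp [smul_eq_mul]

/-- mixed partial derivatives -/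
theorem fd_comm {a : ℝ → ℝ → ℝ → ℝ} (h : CS a) (z e f : ℝ × ℝ × ℝ) :
    fderiv ℝ (fun w => fderiv ℝ (uc a) w e) z f = fderiv ℝ (fun w => fderiv ℝ (uc a) w f) z e := by
  have hd : Differentiable ℝ (fderiv ℝ (uc a)) :=
    (ContDiff.fderiv_right (m := ∞) h (by simp)).differentiable (by simp)
  have e1 : ∀ g : ℝ × ℝ × ℝ, fderiv ℝ (fun w => fderiv ℝ (uc a) w g) z =
      (ContinuousLinearMap.apply ℝ ℝ g).comp (fderiv ℝ (fderiv ℝ (uc a)) z) := by
    intro g
    have h1 := (ContinuousLinearMap.apply ℝ ℝ g).hasFDerivAt.comp z (hd z).hasFDerivAt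
    exact h1.fderiv
  rw [e1, e1]
  have h' : ContDiff ℝ ∞ (uc a) := h
  have hs := (ContDiffAt.isSymmSndFDerivAt (h'.contDiffAt (x := z))
    (by rw [minSmoothness_of_isRCLikeNormedField]; exact WithTop.coe_le_coe.2 le_top)) f e
  exact hs

theorem d12 {a : ℝ → ℝ → ℝ → ℝ} (h : CS a) : SM.d1 (SM.d2 a) = SM.d2 (SM.d1 a) := by
  funext s r t
  rw [d1_eq h.d2, d2_eq h.d1]
  have e1 : uc (SM.d2 a) = fun z => fderiv ℝ (uc a) z (0, 1, 0) := by funext z; exact d2_eq h _ _ _
  have e2 : uc (SM.d1 a) = fun z => fderiv ℝ (uc a) z (1, 0, 0) := by funext z; exact d1_eq h _ _ _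
  rw [e1, e2]
  exact fd_comm h _ _ _

theorem d13 {a : ℝ → ℝ → ℝ → ℝ} (h : CS a) : SM.d1 (SM.d3 a) = SM.d3 (SM.d1 a) := by
  funext s r t
  rw [d1_eq h.d3, d3_eq h.d1]
  have e1 : uc (SM.d3 a) = fun z => fderiv ℝ (uc a) z (0, 0, 1) := by funext z; exact d3_eq h _ _ _
  have e2 : uc (SM.d1 a) = fun z => fderiv ℝ (uc a) z (1, 0, 0) := by funext z; exact d1_eq h _ _ _
  rw [e1, e2]
  exact fd_comm h _ _ _

theorem CS.mulc {a : ℝ → ℝ → ℝ → ℝ} (h : CS a) (c : ℝ) : CS (fun s r t => a s r t * c) := ContDiff.mul h contDiff_const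

theorem CS.cmul {a : ℝ → ℝ → ℝ → ℝ} (h : CS a) (c : ℝ) : CS (fun s r t => c * a s r t) := ContDiff.mul contDiff_const h

theorem d1_mulc (a : ℝ → ℝ → ℝ → ℝ) (c : ℝ) : SM.d1 (fun s r t => a s r t * c) = fun s r t => SM.d1 a s r t * c := by
  funext s r t; simp only [SM.d1]; exact deriv_mul_const_field c

theorem d2_mulc (a : ℝ → ℝ → ℝ → ℝ) (c : ℝ) : SM.d2 (fun s r t => a s r t * c) = fun s r t => SM.d2 a s r t * c := by
  funext s r t; simp only [SM.d2]; exact deriv_mul_const_field c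

theorem d3_mulc (a : ℝ → ℝ → ℝ → ℝ) (c : ℝ) : SM.d3 (fun s r t => a s r t * c) = fun s r t => SM.d3 a s r t * c := by
  funext s r t; simp only [SM.d3]; exact deriv_mul_const_field c

theorem d1_cmul (a : ℝ → ℝ → ℝ → ℝ) (c : ℝ) : SM.d1 (fun s r t => c * a s r t) = fun s r t => c * SM.d1 a s r t := by
  funext s r t; simp only [SM.d1]; exact deriv_const_mul_field c

theorem d2_cmul (a : ℝ → ℝ → ℝ → ℝ) (c : ℝ) : SM.d2 (fun s r t => c * a s r t) = fun s r t => c * SM.d2 a s r t := by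
  funext s r t; simp only [SM.d2]; exact deriv_const_mul_field c

/-- periodic in the slow position -/
def Pr (a : ℝ → ℝ → ℝ → ℝ) : Prop := ∀ (s r t : ℝ) (m : ℤ), a (s + m) r t = a s r t

theorem Pr.d1 {a : ℝ → ℝ → ℝ → ℝ} (h : Pr a) : Pr (SM.d1 a) := by
  intro s r t m
  have e : (fun s => a s r t) = fun s => a (s + m) r t := by funext s; exact (h s r t m).symm
  have h1 : SM.d1 a s r t = deriv (fun s => a (s + m) r t) s := by
    conv_lhs => rw [SM.d1, e]
  rw [h1, deriv_comp_add_const (f := fun s => a s r t)]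
  rfl

theorem Pr.d2 {a : ℝ → ℝ → ℝ → ℝ} (h : Pr a) : Pr (SM.d2 a) := by
  intro s r t m
  simp only [SM.d2]
  congr 1
  funext r
  exact h s r t m

theorem Pr.d3 {a : ℝ → ℝ → ℝ → ℝ} (h : Pr a) : Pr (SM.d3 a) := by
  intro s r t m
  simp only [SM.d3]
  congr 1
  funext t
  exact h s r t m

/-- bounds of the coefficients -/
theorem coefS_bdd {a : ℝ → ℝ → ℝ → ℝ} (h : CS a) (hp : Pr a) (K T0 T : ℝ) :
    ∃ C : ℝ, 0 ≤ C ∧ ∀ s r : ℝ, |r| ≤ K → ∀ t ∈ Icc T0 T, |a s r t| ≤ C := by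
  have hc : IsCompact (Icc (0 : ℝ) 1 ×ˢ (Icc (-K) K ×ˢ Icc T0 T)) :=
    isCompact_Icc.prod (isCompact_Icc.prod isCompact_Icc)
  obtain ⟨C, hC⟩ := hc.exists_bound_of_continuousOn h.cont.continuousOn
  refine ⟨max C 0, le_max_right _ _, fun s r hr t ht => ?_⟩
  have h1 : a s r t = a (Int.fract s) r t := by
    have := hp (Int.fract s) r t ⌊s⌋
    rw [Int.fract_add_floor] at this
    exact this
  rw [h1]
  refine (hC (Int.fract s, r, t) ⟨⟨Int.fract_nonneg s, (Int.fract_lt_one s).le⟩, ?_, ht⟩).trans (le_max_left _ _)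
  exact ⟨by linarith [neg_abs_le r], by linarith [le_abs_self r]⟩

/-! ## Values with a free slow position -/

variable {n : ℕ} [Lat n]

/-- the value of an atom with the slow position `S` -/
def gv (p : Fin n → ℤ) (a : TS n) (S : ℝ) (x P : E n) (t : ℝ) : ℝ :=
  a.a S (dot p P) t * tp a.F P * Real.cos (2 * Real.pi * dot a.k x + a.φ)

/-- the value of a sum of atoms with the slow position `S` -/
def gev (p : Fin n → ℤ) (L : List (TS n)) (S : ℝ) (x P : E n) (t : ℝ) : ℝ := (L.map fun a => gv p a S x P t).sum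

@[simp] theorem gev_nil (p : Fin n → ℤ) (S : ℝ) (x P : E n) (t : ℝ) : gev p ([] : List (TS n)) S x P t = 0 := rfl

@[simp] theorem gev_cons (p : Fin n → ℤ) (a : TS n) (L : List (TS n)) (S : ℝ) (x P : E n) (t : ℝ) :
    gev p (a :: L) S x P t = gv p a S x P t + gev p L S x P t := by simp [gev]

theorem gev_append (p : Fin n → ℤ) (L L' : List (TS n)) (S : ℝ) (x P : E n) (t : ℝ) :
    gev p (L ++ L') S x P t = gev p L S x P t + gev p L' S x P t := by simp [gev]

theorem sev_eq (p : Fin n → ℤ) (L : List (TS n)) (x P : E n) (t : ℝ) :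
    sev p L x P t = gev p L (dot p x) x P t := rfl

/-- the phase derivative -/
def kx (i : Fin n) (L : List (TS n)) : List (TS n) :=
  L.map fun a => { a with a := fun s r t => a.a s r t * (2 * Real.pi * rv a.k i), φ := a.φ + Real.pi / 2 }

theorem kx_cons (i : Fin n) (a : TS n) (L : List (TS n)) : kx i (a :: L) =
    { a with a := fun s r t => a.a s r t * (2 * Real.pi * rv a.k i), φ := a.φ + Real.pi / 2 } :: kx i L := rfl

theorem ss_cons (a : TS n) (L : List (TS n)) : ss (a :: L) = { a with a := SM.d1 a.a } :: ss L := rfl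
theorem st_cons (a : TS n) (L : List (TS n)) : st (a :: L) = { a with a := SM.d3 a.a } :: st L := rfl

theorem sx_cons (p : Fin n → ℤ) (i : Fin n) (a : TS n) (L : List (TS n)) : sx p i (a :: L) =
    { a with a := fun s r t => SM.d1 a.a s r t * rv p i } ::
    { a with a := fun s r t => a.a s r t * (2 * Real.pi * rv a.k i), φ := a.φ + Real.pi / 2 } :: sx p i L := rfl

/-- the part of `sp` which belongs to one atom -/
def sp1 (p : Fin n → ℤ) (a : TS n) : List (TS n) :=
  { a with a := fun s r t => SM.d2 a.a s r t * dot p (rv p) } ::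
    a.F.map fun f => { a with a := fun s r t => -dot f (rv p) * a.a s r t, F := f :: a.F }

theorem sp_cons (p : Fin n → ℤ) (a : TS n) (L : List (TS n)) : sp p (a :: L) = sp1 p a ++ sp p L := by
  simp [sp, sp1, List.flatMap_cons]

theorem sp_append (p : Fin n → ℤ) (L L' : List (TS n)) : sp p (L ++ L') = sp p L ++ sp p L' := by
  simp [sp, List.flatMap_append]

theorem sx_append (p : Fin n → ℤ) (i : Fin n) (L L' : List (TS n)) : sx p i (L ++ L') = sx p i L ++ sx p i L' := by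
  simp [sx, List.flatMap_append]

theorem st_append (L L' : List (TS n)) : st (L ++ L') = st L ++ st L' := by
  simp [st]

theorem gev_sx (p : Fin n → ℤ) (i : Fin n) (L : List (TS n)) (S : ℝ) (x P : E n) (t : ℝ) :
    gev p (sx p i L) S x P t = rv p i * gev p (ss L) S x P t + gev p (kx i L) S x P t := by
  induction L with
  | nil => simp [sx, ss, kx]
  | cons a L ih =>
    rw [sx_cons, ss_cons, kx_cons, gev_cons, gev_cons, gev_cons, gev_cons, ih]
    simp only [gv]
    ring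

/-- the derivative of the product of the inverses along `P + ρ p` -/
theorem tp_hasDeriv (p : Fin n → ℤ) (P : E n) {ρ : ℝ → ℝ} {ρ' u : ℝ} {s : Set ℝ}
    (hρ : HasDerivWithinAt ρ ρ' s u) (F : List (Fin n → ℤ)) (hF : ∀ f ∈ F, dot f (P + ρ u • rv p) ≠ 0) :
    HasDerivWithinAt (fun u => tp F (P + ρ u • rv p))
      (ρ' * (F.map fun f => -dot f (rv p) * tp (f :: F) (P + ρ u • rv p)).sum) s u := by
  induction F with
  | nil => simpa [tp_nil] using hasDerivWithinAt_const u s (1 : ℝ)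
  | cons g F ih =>
    have h1 := ih fun f hf => hF f (List.mem_cons_of_mem _ hf)
    have hg := hF g List.mem_cons_self
    have h2 : HasDerivWithinAt (fun u => dot g (P + ρ u • rv p)) (ρ' * dot g (rv p)) s u := by
      have e : (fun u => dot g (P + ρ u • rv p)) = fun u => dot g P + ρ u * dot g (rv p) := by
        funext u; rw [dot_add, dot_smul]
      rw [e]
      exact (hρ.mul_const _).const_add _
    have h3 := (h2.inv hg).mul h1
    have e : (fun u => tp (g :: F) (P + ρ u • rv p)) =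
        (fun u => (dot g (P + ρ u • rv p))⁻¹) * fun u => tp F (P + ρ u • rv p) := by
      funext u; exact tp_cons _ _ _
    rw [e]
    refine h3.congr_deriv ?_
    rw [List.map_cons, List.sum_cons]
    have e2 : (F.map fun f => -dot f (rv p) * tp (f :: g :: F) (P + ρ u • rv p)).sum =
        (dot g (P + ρ u • rv p))⁻¹ * (F.map fun f => -dot f (rv p) * tp (f :: F) (P + ρ u • rv p)).sum := by
      rw [← List.sum_map_mul_left]
      congr 1
      refine List.map_congr_left fun f _ => ?_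
      simp only [tp_cons]
      ring
    rw [e2]
    simp only [tp_cons, Pi.inv_apply]
    have e3 : (dot g (P + ρ u • rv p) ^ 2)⁻¹ = (dot g (P + ρ u • rv p))⁻¹ * (dot g (P + ρ u • rv p))⁻¹ := by
      rw [sq, mul_inv]
    rw [div_eq_mul_inv, e3]
    ring

theorem gev_spF (p : Fin n → ℤ) (a : TS n) (S : ℝ) (x P : E n) (t : ℝ) (F : List (Fin n → ℤ)) :
    gev p (F.map fun f => ({ a with a := fun s r t => -dot f (rv p) * a.a s r t, F := f :: a.F } : TS n)) S x P t =
      a.a S (dot p P) t * Real.cos (2 * Real.pi * dot a.k x + a.φ) *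
        (F.map fun f => -dot f (rv p) * tp (f :: a.F) P).sum := by
  induction F with
  | nil => simp
  | cons g F ih =>
    rw [List.map_cons, gev_cons, ih, List.map_cons, List.sum_cons]
    simp only [gv]
    ring

/-- the chain rule -/
theorem gev_chain {𝓕 : List (Fin n → ℤ)} (p : Fin n → ℤ) (L : List (TS n)) (hL : SGood 𝓕 L) (P : E n)
    {S ρ τ : ℝ → ℝ} {S' ρ' τ' : ℝ} {z : ℝ → E n} {z' : E n} {u : ℝ} {s : Set ℝ}
    (hS : HasDerivWithinAt S S' s u) (hρ : HasDerivWithinAt ρ ρ' s u) (hτ : HasDerivWithinAt τ τ' s u)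
    (hz : ∀ i, HasDerivWithinAt (fun u => z u i) (z' i) s u) (hP : ∀ f ∈ 𝓕, dot f (P + ρ u • rv p) ≠ 0) :
    HasDerivWithinAt (fun u => gev p L (S u) (z u) (P + ρ u • rv p) (τ u))
      (S' * gev p (ss L) (S u) (z u) (P + ρ u • rv p) (τ u) +
        ∑ i, z' i * gev p (kx i L) (S u) (z u) (P + ρ u • rv p) (τ u) +
        ρ' * gev p (sp p L) (S u) (z u) (P + ρ u • rv p) (τ u) +
        τ' * gev p (st L) (S u) (z u) (P + ρ u • rv p) (τ u)) s u := by
  induction L with
  | nil =>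
    have e : ∀ i : Fin n, kx i ([] : List (TS n)) = [] := fun i => rfl
    have e2 : ss ([] : List (TS n)) = [] := rfl
    have e3 : st ([] : List (TS n)) = [] := rfl
    have e4 : sp p ([] : List (TS n)) = [] := rfl
    simp only [e, e2, e3, e4, gev_nil, mul_zero, Finset.sum_const_zero, add_zero]
    exact hasDerivWithinAt_const _ _ _
  | cons a L ih =>
    have ha := hL a List.mem_cons_self
    have hL' : SGood 𝓕 L := fun b hb => hL b (List.mem_cons_of_mem _ hb)
    have hCS : CS a.a := ha.1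
    have hF : ∀ f ∈ a.F, dot f (P + ρ u • rv p) ≠ 0 := fun f hf => hP f (ha.2.2 f hf)
    have hQ : HasDerivWithinAt (fun u => dot p (P + ρ u • rv p)) (ρ' * dot p (rv p)) s u := by
      have e : (fun u => dot p (P + ρ u • rv p)) = fun u => dot p P + ρ u * dot p (rv p) := by
        funext u; rw [dot_add, dot_smul]
      rw [e]
      exact (hρ.mul_const _).const_add _
    have h1 := hCS.chain hS hQ hτ
    have h2 := tp_hasDeriv p P hρ a.F hF
    have h3 : HasDerivWithinAt (fun u => Real.cos (2 * Real.pi * dot a.k (z u) + a.φ))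
        (-Real.sin (2 * Real.pi * dot a.k (z u) + a.φ) * (2 * Real.pi * ∑ i, (rv a.k i : ℝ) * z' i)) s u := by
      have h4 : HasDerivWithinAt (fun u => dot a.k (z u)) (∑ i, (rv a.k i : ℝ) * z' i) s u := by
        unfold dot
        exact HasDerivWithinAt.fun_sum fun i _ => (hz i).const_mul (rv a.k i : ℝ)
      exact ((h4.const_mul (2 * Real.pi)).add_const a.φ).cos
    have h5 := (h1.mul h2).mul h3
    have h6 := h5.add (ih hL')
    have e : (fun u => gev p (a :: L) (S u) (z u) (P + ρ u • rv p) (τ u)) =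
        (fun u => a.a (S u) (dot p (P + ρ u • rv p)) (τ u) * tp a.F (P + ρ u • rv p) *
          Real.cos (2 * Real.pi * dot a.k (z u) + a.φ)) +
        fun u => gev p L (S u) (z u) (P + ρ u • rv p) (τ u) := by
      funext u; exact gev_cons p a L _ _ _ _
    rw [e]
    refine h6.congr_deriv ?_
    have e1 : ∑ i, z' i * gev p (kx i (a :: L)) (S u) (z u) (P + ρ u • rv p) (τ u) =
        a.a (S u) (dot p (P + ρ u • rv p)) (τ u) * tp a.F (P + ρ u • rv p) *
          (-Real.sin (2 * Real.pi * dot a.k (z u) + a.φ) * (2 * Real.pi * ∑ i, (rv a.k i : ℝ) * z' i)) +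
        ∑ i, z' i * gev p (kx i L) (S u) (z u) (P + ρ u • rv p) (τ u) := by
      rw [Finset.mul_sum, Finset.mul_sum, Finset.mul_sum, ← Finset.sum_add_distrib]
      refine Finset.sum_congr rfl fun i _ => ?_
      rw [kx_cons, gev_cons]
      simp only [gv]
      rw [← add_assoc, Real.cos_add_pi_div_two]
      ring
    rw [e1, ss_cons, st_cons, sp_cons, gev_cons, gev_cons, gev_append, sp1, gev_cons, gev_spF]
    simp only [gv, Pi.mul_apply]
    ring

end Pool.Agent.K9h32.SM
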