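import Pool.Agent.K9h32.SM.Pass3

/-!
# The passage: lemmas for the main estimate
-/

set_option autoImplicit false
set_option linter.unusedSectionVars false

open Set Filter Topology
open scoped ContDiff NNReal

noncomputable section

namespace Pool.Agent.K9h32.SM

open Pool.Agent.N980.TL

variable {n : ℕ} [Lat n]

/-- the derivative of the difference of the velocity and its approximation -/
theorem z_deriv {𝓖 : List (Fin n → ℤ)} (p : Fin n → ℤ) (W : List (TS n)) (gW : SGood 𝓖 W) (P : E n)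
    {x v : ℝ → E n} {ρ : ℝ → ℝ} {ρ' : ℝ} {a : E n} {t : ℝ} {s : Set ℝ} (hx : HasDerivWithinAt x (v t) s t)
    (hv : HasDerivWithinAt v a s t) (hρ : HasDerivWithinAt ρ ρ' s t)
    (hP : ∀ f ∈ 𝓖, dot f (P + ρ t • rv p) ≠ 0) (j : Fin n) :
    HasDerivWithinAt (fun u => v u j - (P j + ρ u * rv p j) - gev p (sx p j W) (dot p (x u)) (x u) (P + ρ u • rv p) u)
      (a j - ρ' * rv p j - (∑ i, v t i * gev p (sx p i (sx p j W)) (dot p (x t)) (x t) (P + ρ t • rv p) t +
        ρ' * gev p (sx p j (sp p W)) (dot p (x t)) (x t) (P + ρ t • rv p) t +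
        gev p (st (sx p j W)) (dot p (x t)) (x t) (P + ρ t • rv p) t)) s t := by
  have hxi : ∀ i, HasDerivWithinAt (fun u => x u i) (v t i) s t := fun i => (hasDerivWithinAt_pi.1 hx) i
  have hS : HasDerivWithinAt (fun u => dot p (x u)) (∑ i, (rv p i) * v t i) s t := by
    unfold dot
    exact HasDerivWithinAt.fun_sum fun i _ => (hxi i).const_mul (rv p i)
  have h1 := gev_chain p (sx p j W) (gW.sx p j) P hS hρ (hasDerivWithinAt_id t s) hxi hP
  have h2 := (((hasDerivWithinAt_pi.1 hv) j).sub ((hρ.mul_const (rv p j)).const_add (P j))).sub h1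
  refine h2.congr_deriv ?_
  rw [sp_sx p j W gW.cs]
  congr 1
  have e : ∑ i, v t i * gev p (sx p i (sx p j W)) (dot p (x t)) (x t) (P + ρ t • rv p) t =
      (∑ i, (rv p i) * v t i) * gev p (ss (sx p j W)) (dot p (x t)) (x t) (P + ρ t • rv p) t +
      ∑ i, v t i * gev p (kx i (sx p j W)) (dot p (x t)) (x t) (P + ρ t • rv p) t := by
    rw [Finset.sum_mul, ← Finset.sum_add_distrib]
    refine Finset.sum_congr rfl fun i _ => ?_
    rw [gev_sx]
    ring
  rw [e]
  simp only [id, one_mul]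

/-- Taylor's formula for the averaged force -/
theorem tay_est {𝓖 : List (Fin n → ℤ)} (p : Fin n → ℤ) (AA : List (TS n)) (gAA : SGood 𝓖 AA) (M : ℕ) (P : E n)
    (hP : ∀ f ∈ 𝓖, dot f P ≠ 0) (t C : ℝ) (hC0 : 0 ≤ C) (hC : ∀ S, |gev p (ss^[M + 1] AA) S 0 P t| ≤ C)
    (hC' : ∀ S, |gev p (ss^[M + 2] AA) S 0 P t| ≤ C) (S η ηj pj : ℝ) :
    |∑ i ∈ Finset.range (M + 1), (pj * gev p (ss^[i + 1] AA) S 0 P t * η ^ i / (i.factorial : ℝ) +
        gev p (ss^[i] AA) S 0 P t * (i * η ^ (i - 1) * ηj) / (i.factorial : ℝ)) -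
      gev p (ss AA) (S + η) 0 P t * (pj + ηj)| ≤ |pj| * (C * |η| ^ (M + 1)) + |ηj| * (C * |η| ^ M) := by
  set F : ℕ → ℝ → ℝ := fun i S => gev p (ss^[i + 1] AA) S 0 P t with hF
  have hd : ∀ i S, HasDerivAt (F i) (F (i + 1) S) S := by
    intro i S
    have h := gev_chain p (ss^[i + 1] AA) (gAA.ssi (i + 1)) P (hasDerivWithinAt_id S univ)
      (hasDerivWithinAt_const S univ (0 : ℝ)) (hasDerivWithinAt_const S univ t)
      (z := fun _ => (0 : E n)) (z' := 0) (fun i => by simpa using hasDerivWithinAt_const S univ (0 : ℝ))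
      (by simpa using hP)
    simp only [zero_smul, add_zero, zero_mul, Pi.zero_apply, Finset.sum_const_zero, one_mul, id] at h
    rw [hasDerivWithinAt_univ] at h
    have e : ss^[i + 1 + 1] AA = ss (ss^[i + 1] AA) := Function.iterate_succ_apply' _ _ _
    simp only [hF, e]
    exact h
  have t1 := taylor_seq (M + 1) F hd C hC0 hC' S η
  have t2 := taylor_seq M F hd C hC0 hC S η
  have e : ∑ i ∈ Finset.range (M + 1), (pj * gev p (ss^[i + 1] AA) S 0 P t * η ^ i / (i.factorial : ℝ) +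
        gev p (ss^[i] AA) S 0 P t * (i * η ^ (i - 1) * ηj) / (i.factorial : ℝ)) =
      pj * (∑ i ∈ Finset.range (M + 1), F i S * η ^ i / (i.factorial : ℝ)) +
      ηj * (∑ i ∈ Finset.range M, F i S * η ^ i / (i.factorial : ℝ)) := by
    rw [Finset.sum_add_distrib]
    congr 1
    · rw [Finset.mul_sum]
      refine Finset.sum_congr rfl fun i _ => ?_
      simp only [hF]
      ring
    · rw [Finset.sum_range_succ', Finset.mul_sum]
      simp only [Nat.cast_zero, zero_mul, mul_zero, zero_div, add_zero]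
      refine Finset.sum_congr rfl fun i _ => ?_
      rw [Nat.add_sub_cancel, Nat.factorial_succ]
      have : ((i : ℝ) + 1) ≠ 0 := by positivity
      have h3 : (i.factorial : ℝ) ≠ 0 := by positivity
      simp only [hF]
      push_cast
      field_simp
  rw [e]
  have e2 : gev p (ss AA) (S + η) 0 P t = F 0 (S + η) := rfl
  rw [e2]
  have e3 : pj * (∑ i ∈ Finset.range (M + 1), F i S * η ^ i / (i.factorial : ℝ)) +
      ηj * (∑ i ∈ Finset.range M, F i S * η ^ i / (i.factorial : ℝ)) - F 0 (S + η) * (pj + ηj) =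
      -(pj * (F 0 (S + η) - ∑ i ∈ Finset.range (M + 1), F i S * η ^ i / (i.factorial : ℝ))) -
      ηj * (F 0 (S + η) - ∑ i ∈ Finset.range M, F i S * η ^ i / (i.factorial : ℝ)) := by ring
  rw [e3]
  refine (abs_sub _ _).trans ?_
  rw [abs_neg, abs_mul, abs_mul]
  exact add_le_add (mul_le_mul_of_nonneg_left t1 (abs_nonneg _)) (mul_le_mul_of_nonneg_left t2 (abs_nonneg _))

/-- Gronwall -/
theorem gron_pass {z z' : ℝ → E n} {T0 T1 K δ ε : ℝ} (hT : T0 ≤ T1) (hK : 0 < K) (hδ : 0 ≤ δ) (hε : 0 ≤ ε)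
    (hz : ∀ t ∈ Icc T0 T1, HasDerivWithinAt z (z' t) (Icc T0 T1) t) (h0 : ‖z T0‖ ≤ δ)
    (hb : ∀ t ∈ Icc T0 T1, ‖z' t‖ ≤ K * ‖z t‖ + ε) :
    ‖z T1‖ ≤ (δ + ε / K) * Real.exp (K * (T1 - T0)) := by
  have h1 := norm_le_gronwallBound_of_norm_deriv_right_le (f := z) (f' := z') (δ := δ) (K := K) (ε := ε)
    (a := T0) (b := T1) (fun t ht => (hz t ht).continuousWithinAt)
    (fun t ht => by
      have h2 := hz t ⟨ht.1, ht.2.le⟩
      refine h2.mono_of_mem_nhdsWithin ?_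
      exact mem_of_superset (Icc_mem_nhdsGE ht.2) (Icc_subset_Icc_left ht.1))
    h0 (fun t ht => hb t ⟨ht.1, ht.2.le⟩) T1 (right_mem_Icc.2 hT)
  refine h1.trans ?_
  rw [gronwallBound_of_K_ne_0 hK.ne']
  have h3 : 0 ≤ ε / K := by positivity
  nlinarith [Real.exp_pos (K * (T1 - T0))]

/-- the algebra of the equation for the difference -/
theorem alg_z (P v g0 g1 z : Fin n → ℝ) (h0 h0' h1 h1' GG : Fin n → ℝ) (Dg As pj ρ' ηj st0 st1 ε0 ε1 Q : ℝ)
    (hv : ∀ i, v i = P i + (g0 i + g1 i) + z i) (hG : ∀ i, GG i = h0 i + h1 i) (hs0 : ∀ i, h0' i = h0 i)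
    (hs1 : ∀ i, h1' i = h1 i)
    (hWE : st0 + ∑ i, (P i + g0 i) * h0 i = Dg + ε0)
    (hHJ : st1 + ∑ i, P i * h1' i + ∑ i, (h0' i * g1 i + g0 i * h1' i) + ∑ i, g1 i * h1' i - As * pj + Q = ε1) :
    (Dg + As * pj) - ρ' * pj - (∑ i, v i * GG i + ρ' * ηj + (st0 + st1)) =
      -ε0 - ε1 + (Q - ρ' * (pj + ηj)) - ∑ i, z i * GG i := by
  have e : ∑ i, v i * GG i = ∑ i, (P i + g0 i) * h0 i + ∑ i, P i * h1' i +
      ∑ i, (h0' i * g1 i + g0 i * h1' i) + ∑ i, g1 i * h1' i + ∑ i, z i * GG i := by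
    rw [← Finset.sum_add_distrib, ← Finset.sum_add_distrib, ← Finset.sum_add_distrib, ← Finset.sum_add_distrib]
    refine Finset.sum_congr rfl fun i _ => ?_
    rw [hv, hs0, hs1, hG]
    ring
  rw [e]
  linarith

end Pool.Agent.K9h32.SM
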