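import Pool.Agent.K9h32.SM.Lat
import Pool.Agent.K9h32.SM.TEV

/-!
# Corrected velocities: `Q = v - ∂_x w0(x, P0, t)` and its equation
-/

set_option autoImplicit false

open Set Filter Topology
open scoped ContDiff

noncomputable section

namespace Pool.Agent.K9h32.SM

open Pool.Agent.N980.TL

variable {n N : ℕ} [Lat n]

/-- the Lipschitz bound in `x` -/
theorem tev_lipx {𝓕 : List (Fin n → ℤ)} {m : ℕ} (L : List (TA n)) (hL : Good 𝓕 L)
    (hm : ∀ a ∈ L, m ≤ a.F.length) (T0 T : ℝ) : ∃ C : ℝ, 0 ≤ C ∧ ∀ lam : ℝ, 1 ≤ lam → ∀ v : E n, Reg 𝓕 lam v →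
      ∀ (x y : E n), ∀ t ∈ Icc T0 T, |tev L x v t - tev L y v t| ≤ C / lam ^ m * ‖x - y‖ := by
  induction L with
  | nil => exact ⟨0, le_refl _, fun lam hl v hv x y t ht => by simp⟩
  | cons a L ih =>
    obtain ⟨ha, hL'⟩ := good_cons hL
    obtain ⟨C1, hC1, h1⟩ := ih hL' fun b hb => hm b (List.mem_cons_of_mem _ hb)
    obtain ⟨A, hA, hA'⟩ := coef_bdd ha.1 T0 T
    refine ⟨A * 2 ^ a.F.length * (2 * Real.pi * l1 a.k) + C1, ?_, fun lam hl v hv x y t ht => ?_⟩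
    · have := l1_nonneg a.k
      have := Real.pi_pos
      positivity
    rw [tev_cons, tev_cons, add_div, add_mul]
    have e : a.ev x v t + tev L x v t - (a.ev y v t + tev L y v t) =
        a.a t * tp a.F v * (Real.cos (2 * Real.pi * dot a.k x + a.φ) - Real.cos (2 * Real.pi * dot a.k y + a.φ)) +
          (tev L x v t - tev L y v t) := by
      rw [ev_eq, ev_eq]; ring
    rw [e]
    refine (abs_add_le _ _).trans (add_le_add ?_ (h1 lam hl v hv x y t ht))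
    rw [abs_mul, abs_mul]
    have h2 := tp_le (by linarith) hv a.F ha.2
    have h3 := (h2.trans (pow_bnd hl (hm a List.mem_cons_self)))
    have h4 : |Real.cos (2 * Real.pi * dot a.k x + a.φ) - Real.cos (2 * Real.pi * dot a.k y + a.φ)| ≤
        2 * Real.pi * l1 a.k * ‖x - y‖ := by
      have h5 : |Real.cos (2 * Real.pi * dot a.k x + a.φ) - Real.cos (2 * Real.pi * dot a.k y + a.φ)| ≤
          |(2 * Real.pi * dot a.k x + a.φ) - (2 * Real.pi * dot a.k y + a.φ)| := by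
        have := Real.abs_cos_sub_cos_le (2 * Real.pi * dot a.k x + a.φ) (2 * Real.pi * dot a.k y + a.φ)
        exact this
      refine h5.trans ?_
      have e2 : (2 * Real.pi * dot a.k x + a.φ) - (2 * Real.pi * dot a.k y + a.φ) =
          2 * Real.pi * dot a.k (x - y) := by rw [dot_sub]; ring
      rw [e2, abs_mul, abs_of_pos (by positivity : (0 : ℝ) < 2 * Real.pi), mul_assoc (2 * Real.pi)]
      exact mul_le_mul_of_nonneg_left (dot_le _ _) (by positivity)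
    calc |a.a t| * |tp a.F v| * |Real.cos (2 * Real.pi * dot a.k x + a.φ) - Real.cos (2 * Real.pi * dot a.k y + a.φ)|
        ≤ A * (2 ^ a.F.length / lam ^ m) * (2 * Real.pi * l1 a.k * ‖x - y‖) :=
          mul_le_mul (mul_le_mul (hA' t ht) h3 (abs_nonneg _) hA) h4 (abs_nonneg _) (by positivity)
      _ = A * 2 ^ a.F.length * (2 * Real.pi * l1 a.k) / lam ^ m * ‖x - y‖ := by ring

/-- a common constant for all the gradients -/
theorem exists_bound {ι : Type*} [Fintype ι] (P : ι → ℝ → Prop) (hP : ∀ i C C', C ≤ C' → P i C → P i C')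
    (h : ∀ i, ∃ C, 0 ≤ C ∧ P i C) : ∃ C, 0 ≤ C ∧ ∀ i, P i C := by
  classical
  choose C hC0 hC using h
  refine ⟨∑ i, C i, Finset.sum_nonneg fun i _ => hC0 i, fun i => hP i (C i) _ ?_ (hC i)⟩
  exact Finset.single_le_sum (fun j _ => hC0 j) (Finset.mem_univ i)

/-- the remainder of the equation of `Q` -/
def HH (w0 e0 : List (TA n)) (P0 x Q : E n) (t : ℝ) : E n := fun i =>
  -tev (tdx i e0) x P0 (t + 1) - ∑ l, (Q l - P0 l) * tev (tdx l (tdx i w0)) x P0 t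

/-- the equation of the corrected velocity -/
theorem Q_deriv {D : Trig n N} {w0 e0 : List (TA n)} {𝓕 : List (Fin n → ℤ)} {M : ℕ} (hW : WE D w0 M 𝓕 e0)
    {P0 : E n} (hP : ∀ f ∈ 𝓕, dot f P0 ≠ 0) {x v : ℝ → E n} {W : E n} {t : ℝ} (ht : 0 ≤ t)
    (hx : HasDerivAt x (v t) t) (hv : HasDerivAt v (fun i => Dg D (x t) t i + W i) t) :
    HasDerivAt (fun s => v s - gw w0 (x s) P0 s) (fun i => W i + HH w0 e0 P0 (x t) (v t - gw w0 (x t) P0 t) t i) t := by
  obtain ⟨hg, -, -, hid⟩ := hW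
  rw [hasDerivAt_pi]
  intro i
  have h1 := (hasDerivAt_pi.1 hv) i
  have h2 := tev_hasDerivAt (tdx i w0) (good_tdx hg i) P0 (hasDerivAt_pi.1 hx)
  have h3 := h1.sub h2
  refine h3.congr_deriv ?_
  have h4 := hid P0 hP (x t) i t ht
  have h5 : tev (tdt (tdx i w0)) (x t) P0 t = Dg D (x t) t i + tev (tdx i e0) (x t) P0 (t + 1) -
      ∑ l, (P0 l + tev (tdx l w0) (x t) P0 t) * tev (tdx l (tdx i w0)) (x t) P0 t := by linarith
  rw [h5]
  have h6 : ∑ l, v t l * tev (tdx l (tdx i w0)) (x t) P0 t =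
      ∑ l, (P0 l + tev (tdx l w0) (x t) P0 t) * tev (tdx l (tdx i w0)) (x t) P0 t +
      ∑ l, ((v t - gw w0 (x t) P0 t) l - P0 l) * tev (tdx l (tdx i w0)) (x t) P0 t := by
    rw [← Finset.sum_add_distrib]
    refine Finset.sum_congr rfl fun l _ => ?_
    simp only [Pi.sub_apply, gw]
    ring
  rw [h6]
  simp only [HH]
  ring

/-- the bounds of `gw` -/
theorem gw_bounds {D : Trig n N} {w0 e0 : List (TA n)} {𝓕 : List (Fin n → ℤ)} {M : ℕ} (hw : W0 w0)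
    (hW : WE D w0 M 𝓕 e0) (T : ℝ) : ∃ C : ℝ, 0 ≤ C ∧ ∀ lam : ℝ, 1 ≤ lam → ∀ P0 : E n, Reg 𝓕 lam P0 →
      ∀ t ∈ Icc (0 : ℝ) T, (∀ x : E n, ‖gw w0 x P0 t‖ ≤ C / lam) ∧
        ∀ x y : E n, ‖gw w0 x P0 t - gw w0 y P0 t‖ ≤ C / lam * ‖x - y‖ := by
  obtain ⟨hg, -, -, -⟩ := hW
  have h1 : ∃ C, 0 ≤ C ∧ ∀ i : Fin n, ∀ lam : ℝ, 1 ≤ lam → ∀ P0 : E n, Reg 𝓕 lam P0 →
      ∀ t ∈ Icc (0 : ℝ) T, (∀ x : E n, |tev (tdx i w0) x P0 t| ≤ C / lam) ∧
        ∀ x y : E n, |tev (tdx i w0) x P0 t - tev (tdx i w0) y P0 t| ≤ C / lam * ‖x - y‖ := by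
    refine exists_bound (P := fun (i : Fin n) C => ∀ lam : ℝ, 1 ≤ lam → ∀ P0 : E n, Reg 𝓕 lam P0 →
      ∀ t ∈ Icc (0 : ℝ) T, (∀ x : E n, |tev (tdx i w0) x P0 t| ≤ C / lam) ∧
        ∀ x y : E n, |tev (tdx i w0) x P0 t - tev (tdx i w0) y P0 t| ≤ C / lam * ‖x - y‖) ?_ ?_
    · intro i C C' hC h lam hl P0 hP t ht
      obtain ⟨a, b⟩ := h lam hl P0 hP t ht
      have hl0 : (0 : ℝ) < lam := by linarith
      refine ⟨fun x => (a x).trans (by gcongr), fun x y => (b x y).trans (by gcongr)⟩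
    · intro i
      obtain ⟨C1, hC1, h1⟩ := tev_bnd (tdx i w0) (good_tdx hg i) (len_tdx hw.2.1 i) 0 T
      obtain ⟨C2, hC2, h2⟩ := tev_lipx (tdx i w0) (good_tdx hg i) (len_tdx hw.2.1 i) 0 T
      refine ⟨C1 + C2, by positivity, fun lam hl P0 hP t ht => ?_⟩
      have hl0 : (0 : ℝ) < lam := by linarith
      refine ⟨fun x => ?_, fun x y => ?_⟩
      · have := h1 lam hl P0 hP x t ht
        rw [pow_one] at this
        exact this.trans (by gcongr; linarith)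
      · have := h2 lam hl P0 hP x y t ht
        rw [pow_one] at this
        exact this.trans (by gcongr; linarith)
  obtain ⟨C, hC, h⟩ := h1
  refine ⟨C, hC, fun lam hl P0 hP t ht => ⟨fun x => ?_, fun x y => ?_⟩⟩
  · have hl0 : (0 : ℝ) < lam := by linarith
    refine (pi_norm_le_iff_of_nonneg (by positivity)).2 fun i => ?_
    exact (h i lam hl P0 hP t ht).1 x
  · have hl0 : (0 : ℝ) < lam := by linarith
    refine (pi_norm_le_iff_of_nonneg (by positivity)).2 fun i => ?_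
    exact (h i lam hl P0 hP t ht).2 x y

/-- the bounds of the remainder -/
theorem HH_bounds {D : Trig n N} {w0 e0 : List (TA n)} {𝓕 : List (Fin n → ℤ)} {M : ℕ} (hM : 1 ≤ M) (hw : W0 w0)
    (hW : WE D w0 M 𝓕 e0) (T : ℝ) : ∃ C : ℝ, 0 ≤ C ∧ ∀ lam : ℝ, 1 ≤ lam → ∀ P0 : E n, Reg 𝓕 lam P0 →
      ∀ t ∈ Icc (0 : ℝ) T, (∀ x Q : E n, ‖HH w0 e0 P0 x Q t‖ ≤ C / lam * (1 + ‖Q - P0‖)) ∧
        ∀ x Q y R : E n, ‖HH w0 e0 P0 x Q t - HH w0 e0 P0 y R t‖ ≤
          C / lam * (1 + ‖Q - P0‖) * (‖x - y‖ + ‖Q - R‖) := by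
  obtain ⟨hg, hge, hme, -⟩ := hW
  -- the bounds for `e0`
  obtain ⟨C1, hC1, h1⟩ : ∃ C, 0 ≤ C ∧ ∀ i : Fin n, ∀ lam : ℝ, 1 ≤ lam → ∀ P0 : E n, Reg 𝓕 lam P0 →
      ∀ t ∈ Icc (0 : ℝ) T, (∀ x : E n, |tev (tdx i e0) x P0 (t + 1)| ≤ C / lam) ∧
        ∀ x y : E n, |tev (tdx i e0) x P0 (t + 1) - tev (tdx i e0) y P0 (t + 1)| ≤ C / lam * ‖x - y‖ := by
    refine exists_bound (P := fun (i : Fin n) C => ∀ lam : ℝ, 1 ≤ lam → ∀ P0 : E n, Reg 𝓕 lam P0 →
      ∀ t ∈ Icc (0 : ℝ) T, (∀ x : E n, |tev (tdx i e0) x P0 (t + 1)| ≤ C / lam) ∧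
        ∀ x y : E n, |tev (tdx i e0) x P0 (t + 1) - tev (tdx i e0) y P0 (t + 1)| ≤ C / lam * ‖x - y‖) ?_ ?_
    · intro i C C' hC h lam hl P0 hP t ht
      obtain ⟨a, b⟩ := h lam hl P0 hP t ht
      have hl0 : (0 : ℝ) < lam := by linarith
      refine ⟨fun x => (a x).trans (by gcongr), fun x y => (b x y).trans (by gcongr)⟩
    · intro i
      obtain ⟨C1, hC1, h1⟩ := tev_bnd (tdx i e0) (good_tdx hge i) (len_tdx (fun a ha => hM.trans (hme a ha)) i) 0 (T + 1)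
      obtain ⟨C2, hC2, h2⟩ := tev_lipx (tdx i e0) (good_tdx hge i) (len_tdx (fun a ha => hM.trans (hme a ha)) i) 0 (T + 1)
      refine ⟨C1 + C2, by positivity, fun lam hl P0 hP t ht => ?_⟩
      have hl0 : (0 : ℝ) < lam := by linarith
      have ht' : t + 1 ∈ Icc (0 : ℝ) (T + 1) := ⟨by linarith [ht.1], by linarith [ht.2]⟩
      refine ⟨fun x => ?_, fun x y => ?_⟩
      · have := h1 lam hl P0 hP x _ ht'
        rw [pow_one] at this
        exact this.trans (by gcongr; linarith)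
      · have := h2 lam hl P0 hP x y _ ht'
        rw [pow_one] at this
        exact this.trans (by gcongr; linarith)
  obtain ⟨C2, hC2, h2⟩ : ∃ C, 0 ≤ C ∧ ∀ il : Fin n × Fin n, ∀ lam : ℝ, 1 ≤ lam → ∀ P0 : E n, Reg 𝓕 lam P0 →
      ∀ t ∈ Icc (0 : ℝ) T, (∀ x : E n, |tev (tdx il.2 (tdx il.1 w0)) x P0 t| ≤ C / lam) ∧
        ∀ x y : E n, |tev (tdx il.2 (tdx il.1 w0)) x P0 t - tev (tdx il.2 (tdx il.1 w0)) y P0 t| ≤
          C / lam * ‖x - y‖ := by
    refine exists_bound (P := fun (il : Fin n × Fin n) C => ∀ lam : ℝ, 1 ≤ lam → ∀ P0 : E n, Reg 𝓕 lam P0 →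
      ∀ t ∈ Icc (0 : ℝ) T, (∀ x : E n, |tev (tdx il.2 (tdx il.1 w0)) x P0 t| ≤ C / lam) ∧
        ∀ x y : E n, |tev (tdx il.2 (tdx il.1 w0)) x P0 t - tev (tdx il.2 (tdx il.1 w0)) y P0 t| ≤
          C / lam * ‖x - y‖) ?_ ?_
    · intro i C C' hC h lam hl P0 hP t ht
      obtain ⟨a, b⟩ := h lam hl P0 hP t ht
      have hl0 : (0 : ℝ) < lam := by linarith
      refine ⟨fun x => (a x).trans (by gcongr), fun x y => (b x y).trans (by gcongr)⟩
    · rintro ⟨i, l⟩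
      obtain ⟨C1, hC1, h1⟩ := tev_bnd (tdx l (tdx i w0)) (good_tdx (good_tdx hg i) l) (len_tdx (len_tdx hw.2.1 i) l) 0 T
      obtain ⟨C2, hC2, h2⟩ := tev_lipx (tdx l (tdx i w0)) (good_tdx (good_tdx hg i) l) (len_tdx (len_tdx hw.2.1 i) l) 0 T
      refine ⟨C1 + C2, by positivity, fun lam hl P0 hP t ht => ?_⟩
      have hl0 : (0 : ℝ) < lam := by linarith
      refine ⟨fun x => ?_, fun x y => ?_⟩
      · have := h1 lam hl P0 hP x t ht
        rw [pow_one] at this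
        exact this.trans (by gcongr; linarith)
      · have := h2 lam hl P0 hP x y t ht
        rw [pow_one] at this
        exact this.trans (by gcongr; linarith)
  refine ⟨C1 + n * C2, by positivity, fun lam hl P0 hP t ht => ⟨fun x Q => ?_, fun x Q y R => ?_⟩⟩
  · have hl0 : (0 : ℝ) < lam := by linarith
    have hQ := norm_nonneg (Q - P0)
    refine (pi_norm_le_iff_of_nonneg (by positivity)).2 fun i => ?_
    rw [Real.norm_eq_abs]
    unfold HH
    have b1 := (h1 i lam hl P0 hP t ht).1 x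
    have b2 : |∑ l, (Q l - P0 l) * tev (tdx l (tdx i w0)) x P0 t| ≤ n * (‖Q - P0‖ * (C2 / lam)) := by
      refine (Finset.abs_sum_le_sum_abs _ _).trans ?_
      have : ∀ l ∈ Finset.univ, |(Q l - P0 l) * tev (tdx l (tdx i w0)) x P0 t| ≤ ‖Q - P0‖ * (C2 / lam) := by
        intro l _
        rw [abs_mul]
        exact mul_le_mul (norm_le_pi_norm (Q - P0) l) ((h2 (i, l) lam hl P0 hP t ht).1 x) (abs_nonneg _) hQ
      refine (Finset.sum_le_card_nsmul _ _ _ this).trans (le_of_eq ?_)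
      simp only [Finset.card_univ, Fintype.card_fin, nsmul_eq_mul]
    have b3 : |-tev (tdx i e0) x P0 (t + 1) - ∑ l, (Q l - P0 l) * tev (tdx l (tdx i w0)) x P0 t| ≤
        C1 / lam + n * (‖Q - P0‖ * (C2 / lam)) := by
      refine (abs_sub _ _).trans ?_
      rw [abs_neg]
      exact add_le_add b1 b2
    refine b3.trans ?_
    have c1 : (C1 + n * C2) / lam * (1 + ‖Q - P0‖) = C1 / lam + n * (‖Q - P0‖ * (C2 / lam)) +
        (n * C2 / lam + C1 / lam * ‖Q - P0‖) := by ring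
    rw [c1]
    have c2 : 0 ≤ n * C2 / lam + C1 / lam * ‖Q - P0‖ := by positivity
    linarith
  · have hl0 : (0 : ℝ) < lam := by linarith
    have hQ := norm_nonneg (Q - P0)
    refine (pi_norm_le_iff_of_nonneg (by positivity)).2 fun i => ?_
    rw [Real.norm_eq_abs, Pi.sub_apply]
    unfold HH
    have b1 := (h1 i lam hl P0 hP t ht).2 x y
    have e : -tev (tdx i e0) x P0 (t + 1) - ∑ l, (Q l - P0 l) * tev (tdx l (tdx i w0)) x P0 t -
        (-tev (tdx i e0) y P0 (t + 1) - ∑ l, (R l - P0 l) * tev (tdx l (tdx i w0)) y P0 t) =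
        -(tev (tdx i e0) x P0 (t + 1) - tev (tdx i e0) y P0 (t + 1)) -
        ∑ l, ((Q l - P0 l) * (tev (tdx l (tdx i w0)) x P0 t - tev (tdx l (tdx i w0)) y P0 t) +
          (Q l - R l) * tev (tdx l (tdx i w0)) y P0 t) := by
      have : ∑ l, ((Q l - P0 l) * (tev (tdx l (tdx i w0)) x P0 t - tev (tdx l (tdx i w0)) y P0 t) +
          (Q l - R l) * tev (tdx l (tdx i w0)) y P0 t) =
          ∑ l, (Q l - P0 l) * tev (tdx l (tdx i w0)) x P0 t - ∑ l, (R l - P0 l) * tev (tdx l (tdx i w0)) y P0 t := by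
        rw [← Finset.sum_sub_distrib]
        exact Finset.sum_congr rfl fun l _ => by ring
      rw [this]; ring
    rw [e]
    have b2 : |∑ l, ((Q l - P0 l) * (tev (tdx l (tdx i w0)) x P0 t - tev (tdx l (tdx i w0)) y P0 t) +
          (Q l - R l) * tev (tdx l (tdx i w0)) y P0 t)| ≤
          n * (‖Q - P0‖ * (C2 / lam * ‖x - y‖) + ‖Q - R‖ * (C2 / lam)) := by
      refine (Finset.abs_sum_le_sum_abs _ _).trans ?_
      have : ∀ l ∈ Finset.univ, |(Q l - P0 l) * (tev (tdx l (tdx i w0)) x P0 t - tev (tdx l (tdx i w0)) y P0 t) +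
          (Q l - R l) * tev (tdx l (tdx i w0)) y P0 t| ≤
          ‖Q - P0‖ * (C2 / lam * ‖x - y‖) + ‖Q - R‖ * (C2 / lam) := by
        intro l _
        refine (abs_add_le _ _).trans (add_le_add ?_ ?_)
        · rw [abs_mul]
          exact mul_le_mul (norm_le_pi_norm (Q - P0) l) ((h2 (i, l) lam hl P0 hP t ht).2 x y) (abs_nonneg _) hQ
        · rw [abs_mul]
          exact mul_le_mul (norm_le_pi_norm (Q - R) l) ((h2 (i, l) lam hl P0 hP t ht).1 y) (abs_nonneg _)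
            (norm_nonneg _)
      refine (Finset.sum_le_card_nsmul _ _ _ this).trans (le_of_eq ?_)
      simp only [Finset.card_univ, Fintype.card_fin, nsmul_eq_mul]
    have b3 : |-(tev (tdx i e0) x P0 (t + 1) - tev (tdx i e0) y P0 (t + 1)) -
        ∑ l, ((Q l - P0 l) * (tev (tdx l (tdx i w0)) x P0 t - tev (tdx l (tdx i w0)) y P0 t) +
          (Q l - R l) * tev (tdx l (tdx i w0)) y P0 t)| ≤ C1 / lam * ‖x - y‖ +
          n * (‖Q - P0‖ * (C2 / lam * ‖x - y‖) + ‖Q - R‖ * (C2 / lam)) := by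
      refine (abs_sub _ _).trans ?_
      rw [abs_neg]
      exact add_le_add b1 b2
    refine b3.trans ?_
    have hR := norm_nonneg (Q - R)
    have hxy := norm_nonneg (x - y)
    have c1 : (C1 + n * C2) / lam * (1 + ‖Q - P0‖) * (‖x - y‖ + ‖Q - R‖) = C1 / lam * ‖x - y‖ +
          n * (‖Q - P0‖ * (C2 / lam * ‖x - y‖) + ‖Q - R‖ * (C2 / lam)) +
          (C1 / lam * ‖Q - R‖ + C1 / lam * ‖Q - P0‖ * (‖x - y‖ + ‖Q - R‖) + n * C2 / lam * ‖x - y‖ +
            n * C2 / lam * ‖Q - P0‖ * ‖Q - R‖) := by ring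
    rw [c1]
    have c2 : 0 ≤ C1 / lam * ‖Q - R‖ + C1 / lam * ‖Q - P0‖ * (‖x - y‖ + ‖Q - R‖) + n * C2 / lam * ‖x - y‖ +
            n * C2 / lam * ‖Q - P0‖ * ‖Q - R‖ := by positivity
    linarith

end Pool.Agent.K9h32.SM
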