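import Pool.Agent.K9h32.SM.EXA
import Pool.Agent.K9h32.SP.Step1

/-!
# Leaf STEP, first part: the gates, the slow force, regular velocities
-/

set_option autoImplicit false

open Set Filter Topology
open scoped ContDiff NNReal

noncomputable section

namespace Pool.Agent.K9h32.SM

open Pool.Agent.N980.TL
open Pool.Agent.K9h32.SP (Sol bt Chi UHd sol_exists subint three_phase)

variable {n N : ℕ} [Lat n]

/-- the gates seen by an orbit -/
theorem gates_eq {p q : Fin n → ℤ} {χ : Fin 3 → ℝ → ℝ} {B : ℝ → ℝ} {T : ℕ} {ρ : ℝ} (hρ : 0 < ρ)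
    (hχ : ∀ (j : Fin 3) (s : ℝ) (m : ℤ), χ j (s + m) = χ j s) (hB0 : B 0 = 0) (hB : ∀ t, 1 / 100 ≤ t → B t = 0)
    {j : Fin 3} {s : ℝ → ℝ} {m : ℤ} {x : ℝ → E n}
    (h1 : ∀ t ∈ Icc (0 : ℝ) (1 / 100), ∀ u, |u - s t| ≤ ρ → ∀ i, χ i u = if i = j then 1 else 0)
    (h2 : ∀ l : ℕ, 1 ≤ l → l < T → ∀ t ∈ Icc (l : ℝ) (l + 1 / 100), ∀ u, |u - s t| ≤ ρ → ∀ i, χ i u = 0)
    (hx : ∀ t ∈ Icc (0 : ℝ) T, |dot p (x t) - (s t + m)| ≤ ρ / 2) (δ : ℝ) :
    ∀ t ∈ Icc (0 : ℝ) T, δ • gfc p q χ (bt B) (x t) t = gq q B δ j (x t) t := by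
  intro t ht
  have hsh : ∀ (i : Fin 3) (u : ℝ), χ i u = χ i (u - m) := by
    intro i u
    have := hχ i (u - m) m
    rwa [sub_add_cancel] at this
  have hnear : ∀ᶠ u in 𝓝 (dot p (x t)), |u - m - s t| ≤ ρ := by
    have hc : ContinuousAt (fun u : ℝ => |u - m - s t|) (dot p (x t)) := by fun_prop
    have h3 : |dot p (x t) - m - s t| < ρ := by
      have := hx t ht
      have e : dot p (x t) - m - s t = dot p (x t) - (s t + m) := by ring
      rw [e]; linarith
    filter_upwards [hc.eventually (gt_mem_nhds h3)] with u hu using le_of_lt hu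
  -- the values and the derivatives of `χ`
  have hval : ∀ c : Fin 3 → ℝ, (∀ u, |u - s t| ≤ ρ → ∀ i, χ i u = c i) →
      ∀ i, χ i (dot p (x t)) = c i ∧ deriv (χ i) (dot p (x t)) = 0 := by
    intro c hc i
    have h3 : ∀ᶠ u in 𝓝 (dot p (x t)), χ i u = c i := by
      filter_upwards [hnear] with u hu
      rw [hsh]
      exact hc _ hu i
    refine ⟨h3.self_of_nhds, ?_⟩
    have h4 : χ i =ᶠ[𝓝 (dot p (x t))] fun _ => c i := h3
    rw [h4.deriv_eq]
    simp
  have hzero : bt B t = 0 → B t = 0 → δ • gfc p q χ (bt B) (x t) t = gq q B δ j (x t) t := by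
    intro e1 e2
    unfold gfc gq
    rw [e1, e2]
    simp
  have hl0 : 0 ≤ t := ht.1
  obtain ⟨l, hl⟩ : ∃ l, l = ⌊t⌋₊ := ⟨_, rfl⟩
  have hlt : (l : ℝ) ≤ t := by rw [hl]; exact Nat.floor_le hl0
  have hlt' : t < l + 1 := by rw [hl]; exact Nat.lt_floor_add_one t
  have hfr : Int.fract t = t - l := by
    rw [Int.fract_eq_iff]
    refine ⟨by linarith, by linarith, l, by push_cast; ring⟩
  have hbt : bt B t = B (t - l) := by unfold bt; rw [hfr]
  have hlT : l ≤ T := by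
    have : (l : ℝ) < T + 1 := by linarith [ht.2]
    have h3 : l < T + 1 := by exact_mod_cast this
    omega
  rcases eq_or_lt_of_le hlT with h | h
  · -- `t = T`
    have e : t = l := by
      have h3 : (l : ℝ) = T := by exact_mod_cast h
      linarith [ht.2]
    rcases Nat.eq_zero_or_pos l with h0 | h0
    · have e0 : t = 0 := by rw [e, h0]; simp
      apply hzero
      · rw [hbt, e, sub_self, hB0]
      · rw [e0, hB0]
    · apply hzero
      · rw [hbt, e, sub_self, hB0]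
      · refine hB t ?_
        have : (1 : ℝ) ≤ l := by exact_mod_cast h0
        linarith
  · by_cases hc : t ≤ l + 1 / 100
    · rcases Nat.eq_zero_or_pos l with h0 | h0
      · have hl0' : (l : ℝ) = 0 := by rw [h0]; simp
        have ht' : t ∈ Icc (0 : ℝ) (1 / 100) := ⟨hl0, by linarith⟩
        have h4 := hval (fun i => if i = j then 1 else 0) (fun u hu i => h1 t ht' u hu i)
        have hb' : bt B t = B t := by rw [hbt, hl0', sub_zero]
        unfold gfc gq
        rw [hb']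
        have e1 : ∑ i : Fin 3, deriv (χ i) (dot p (x t)) * Real.cos (phs q i (x t)) = 0 :=
          Finset.sum_eq_zero fun i _ => by rw [(h4 i).2, zero_mul]
        have e2 : ∑ i : Fin 3, χ i (dot p (x t)) * (2 * Real.pi * Real.sin (phs q i (x t))) =
            2 * Real.pi * Real.sin (phs q j (x t)) := by
          rw [Finset.sum_eq_single j]
          · rw [(h4 j).1]; simp
          · intro i _ hij
            rw [(h4 i).1]; simp [hij]
          · intro hj
            exact absurd (Finset.mem_univ j) hj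
        rw [e1, e2, mul_zero, zero_smul, zero_sub, smul_neg, smul_smul, ← neg_smul]
        congr 1
        unfold phs
        ring
      · have ht' : t ∈ Icc (l : ℝ) (l + 1 / 100) := ⟨hlt, hc⟩
        have h4 := hval (fun i => 0) (fun u hu i => h2 l h0 h t ht' u hu i)
        have e3 : B t = 0 := hB t (by
          have : (1 : ℝ) ≤ l := by exact_mod_cast h0
          linarith)
        unfold gfc gq
        have e1 : ∑ i : Fin 3, deriv (χ i) (dot p (x t)) * Real.cos (phs q i (x t)) = 0 :=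
          Finset.sum_eq_zero fun i _ => by rw [(h4 i).2, zero_mul]
        have e2 : ∑ i : Fin 3, χ i (dot p (x t)) * (2 * Real.pi * Real.sin (phs q i (x t))) = 0 :=
          Finset.sum_eq_zero fun i _ => by rw [(h4 i).1, zero_mul]
        rw [e1, e2, e3]
        simp
    · push Not at hc
      apply hzero
      · rw [hbt]
        exact hB _ (by linarith)
      · refine hB t ?_
        have : (0 : ℝ) ≤ l := Nat.cast_nonneg l
        linarith

/-- the slow force vanishes near the gates -/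
theorem sF_zero {p : Fin n → ℤ} {A : ℝ → ℝ → ℝ} {x : E n} {t : ℝ} (h : ∀ᶠ u in 𝓝 (dot p x), A u t = 0) :
    sF p A x t = 0 := by
  unfold sF ds
  have h1 : (fun u => A u t) =ᶠ[𝓝 (dot p x)] fun _ => (0 : ℝ) := h
  rw [h1.deriv_eq]
  simp

/-- `A` vanishes near the gates, at all integer times -/
theorem A_zero {A : ℝ → ℝ → ℝ} (hA : SP2 A)
    (h0 : ∀ s t : ℝ, s ∈ Icc (1 / 4 : ℝ) (3 / 4) → t ∈ Icc (-(2 / 5) : ℝ) (2 / 5) → A s t = 0) {s t : ℝ} (m l : ℤ)
    (hs : s - m ∈ Ioo (1 / 4 : ℝ) (3 / 4)) (ht : t - l ∈ Ioo (-(2 / 5) : ℝ) (2 / 5)) :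
    ∀ᶠ z in 𝓝 (s, t), A z.1 z.2 = 0 := by
  have h1 : ∀ᶠ z : ℝ × ℝ in 𝓝 (s, t), z.1 - m ∈ Ioo (1 / 4 : ℝ) (3 / 4) := by
    have hc : ContinuousAt (fun z : ℝ × ℝ => z.1 - m) (s, t) := by fun_prop
    exact hc.eventually (isOpen_Ioo.mem_nhds hs)
  have h2 : ∀ᶠ z : ℝ × ℝ in 𝓝 (s, t), z.2 - l ∈ Ioo (-(2 / 5) : ℝ) (2 / 5) := by
    have hc : ContinuousAt (fun z : ℝ × ℝ => z.2 - l) (s, t) := by fun_prop
    exact hc.eventually (isOpen_Ioo.mem_nhds ht)
  filter_upwards [h1, h2] with z hz1 hz2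
  have h3 := hA.2 (z.1 - m) (z.2 - l) m l
  rw [sub_add_cancel, sub_add_cancel] at h3
  rw [h3]
  exact h0 _ _ ⟨hz1.1.le, hz1.2.le⟩ ⟨hz2.1.le, hz2.2.le⟩

theorem A_zero' {A : ℝ → ℝ → ℝ} (hA : SP2 A)
    (h0 : ∀ s t : ℝ, s ∈ Icc (1 / 4 : ℝ) (3 / 4) → t ∈ Icc (-(2 / 5) : ℝ) (2 / 5) → A s t = 0) {s t : ℝ} (m l : ℤ)
    (hs : s - m ∈ Ioo (1 / 4 : ℝ) (3 / 4)) (ht : t - l ∈ Ioo (-(2 / 5) : ℝ) (2 / 5)) :
    ∀ᶠ u in 𝓝 s, A u t = 0 := by
  have h1 := A_zero hA h0 m l hs ht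
  have hc : ContinuousAt (fun u : ℝ => (u, t)) s := by fun_prop
  exact hc.eventually h1

/-- `λ`-component of `q` transversal to `p` -/
def qh (p q : Fin n → ℤ) : E n := rv q - tht p q • rv p

/-- `|qh|²` -/
def D0 (p q : Fin n → ℤ) : ℝ := dot q (rv q) - tht p q * dot p (rv q)

/-- `p` is nearly orthogonal to `q` -/
structure NO (p q : Fin n → ℤ) (η : ℝ) : Prop where
  hp : 1 ≤ ‖rv p‖
  hq : 1 ≤ ‖rv q‖
  h : |dot p (rv q)| ≤ η * ‖rv p‖
  h0 : 0 ≤ η
  h1 : η ≤ 1 / 4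

variable {p q : Fin n → ℤ} {η : ℝ}

theorem NO.tht_le (h : NO p q η) : |tht p q| * ‖rv p‖ ≤ η := by
  have hpp := pp_pos h.hp
  have h2 := sq_norm_rv_le p
  have h3 := h.h
  unfold tht
  rw [abs_div, abs_of_pos (by linarith : 0 < dot p (rv p)), div_mul_eq_mul_div, div_le_iff₀ (by linarith)]
  calc |dot p (rv q)| * ‖rv p‖ ≤ η * ‖rv p‖ * ‖rv p‖ := mul_le_mul_of_nonneg_right h3 (norm_nonneg _)
    _ = η * ‖rv p‖ ^ 2 := by ring
    _ ≤ η * dot p (rv p) := mul_le_mul_of_nonneg_left h2 h.h0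

theorem NO.tht_le' (h : NO p q η) : |tht p q| ≤ η := by
  have h1 := h.tht_le
  have h2 := mul_le_mul_of_nonneg_left h.hp (abs_nonneg (tht p q))
  linarith

theorem NO.D0_ge (h : NO p q η) : 1 / 2 ≤ D0 p q := by
  have h1 := h.tht_le
  have h2 := h.h
  have h3 := sq_norm_rv_le q
  have h4 : 1 ≤ dot q (rv q) := pp_pos h.hq
  have h5 : tht p q * dot p (rv q) ≤ 1 / 4 := by
    refine (le_abs_self _).trans ?_
    rw [abs_mul]
    calc |tht p q| * |dot p (rv q)| ≤ |tht p q| * (η * ‖rv p‖) := mul_le_mul_of_nonneg_left h2 (abs_nonneg _)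
      _ = η * (|tht p q| * ‖rv p‖) := by ring
      _ ≤ η * η := mul_le_mul_of_nonneg_left h1 h.h0
      _ ≤ 1 / 4 := by nlinarith [h.h0, h.h1]
  unfold D0
  linarith

theorem NO.D0_le (h : NO p q η) : D0 p q ≤ dot q (rv q) := by
  have hpp := pp_pos h.hp
  have h5 : 0 ≤ tht p q * dot p (rv q) := by
    unfold tht
    rw [div_mul_eq_mul_div]
    exact div_nonneg (mul_self_nonneg _) (by linarith)
  unfold D0
  linarith

theorem NO.dot_p_qh (h : NO p q η) : dot p (qh p q) = 0 := by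
  have hpp := pp_pos h.hp
  unfold qh tht
  rw [dot_sub, dot_smul]
  field_simp
  ring

theorem NO.pj_q (_ : NO p q η) : pj p (rv q) = qh p q := rfl

theorem dot_q_qh (p q : Fin n → ℤ) : dot q (qh p q) = D0 p q := by
  unfold qh D0
  rw [dot_sub, dot_smul, dot_comm_rv q p]

theorem lm_add (P P' : E n) : lm p q (P + P') = lm p q P + lm p q P' := by
  unfold lm
  rw [dot_add, dot_add, mul_add, ← add_div]
  congr 1
  ring

theorem lm_smul (c : ℝ) (P : E n) : lm p q (c • P) = c * lm p q P := by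
  unfold lm
  rw [dot_smul, dot_smul]
  ring

theorem NO.lm_q (h : NO p q η) : lm p q (rv q) = 1 := by
  have h1 := h.D0_ge
  unfold D0 at h1
  unfold lm
  exact div_self (by linarith)

theorem NO.lm_p (h : NO p q η) : lm p q (rv p) = 0 := by
  have hpp := pp_pos h.hp
  unfold lm
  have e : dot q (rv p) - tht p q * dot p (rv p) = 0 := by
    unfold tht
    rw [dot_comm_rv q p]
    field_simp
    ring
  rw [e, zero_div]

theorem NO.lm_abs (h : NO p q η) (P : E n) : |lm p q P| ≤ 2 * (l1 q + l1 p) * ‖P‖ := by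
  have h1 := h.D0_ge
  have h1' : 0 < D0 p q := by linarith
  have h2 := dot_le q P
  have h3 := dot_le p P
  have h4 := h.tht_le'
  have h5 : |tht p q| ≤ 1 := by linarith [h.h1]
  have e : lm p q P = (dot q P - tht p q * dot p P) / D0 p q := rfl
  rw [e, abs_div, abs_of_pos h1', div_le_iff₀ h1']
  have h6 : |dot q P - tht p q * dot p P| ≤ l1 q * ‖P‖ + l1 p * ‖P‖ := by
    refine (abs_sub _ _).trans (add_le_add h2 ?_)
    rw [abs_mul]
    calc |tht p q| * |dot p P| ≤ 1 * (l1 p * ‖P‖) := mul_le_mul h5 h3 (abs_nonneg _) zero_le_one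
      _ = _ := one_mul _
  have h7 : 0 ≤ (l1 q + l1 p) * ‖P‖ :=
    mul_nonneg (add_nonneg (l1_nonneg q) (l1_nonneg p)) (norm_nonneg _)
  nlinarith

theorem NO.pj_qh (h : NO p q η) (P : E n) (c : ℝ) : pj p (P - c • qh p q) = pj p (P - c • rv q) := by
  have e : P - c • qh p q = (P - c • rv q) + (c * tht p q) • rv p := by
    unfold qh
    rw [smul_sub, smul_smul]
    abel
  rw [e, pj_add, pj_smul_p h.hp, add_zero]

/-- the deviation of `P` from `λ qh` -/
theorem NO.dev_le (h : NO p q η) {P : E n} {c1 : ℝ}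
    (h1 : ‖pj p (P - lm p q P • rv q)‖ ≤ c1 * lm p q P) (h2 : |dot p P| ≤ 2) :
    ‖P - lm p q P • qh p q‖ ≤ c1 * lm p q P + 2 := by
  refine (norm_le_pj h.hp _).trans ?_
  rw [dot_sub, dot_smul, h.dot_p_qh, mul_zero, sub_zero, h.pj_qh]
  linarith

/-- regular velocities -/
theorem NO.dot_big (h : NO p q η) {P : E n} {c1 K : ℝ}
    (h1 : ‖pj p (P - lm p q P • rv q)‖ ≤ c1 * lm p q P) (h2 : |dot p P| ≤ 2) (hK0 : 0 ≤ K)
    (hc : c1 * K ≤ 1 / 16) (hη : η * K ≤ 1 / 16) (hl0 : 0 < lm p q P)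
    (hl : 16 * K ≤ lm p q P) {f : Fin n → ℤ} (hf : 1 ≤ |dot f (rv q)|) (hfK : l1 f ≤ K) :
    3 / 4 * lm p q P ≤ |dot f P| := by
  have h3 := h.dev_le h1 h2
  have h4 : 15 / 16 ≤ |dot f (qh p q)| := by
    have e : dot f (qh p q) = dot f (rv q) - tht p q * dot f (rv p) := by
      unfold qh
      rw [dot_sub, dot_smul]
    have h5 : |tht p q * dot f (rv p)| ≤ 1 / 16 := by
      rw [abs_mul]
      calc |tht p q| * |dot f (rv p)| ≤ |tht p q| * (l1 f * ‖rv p‖) :=
            mul_le_mul_of_nonneg_left (dot_le _ _) (abs_nonneg _)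
        _ = l1 f * (|tht p q| * ‖rv p‖) := by ring
        _ ≤ K * η := mul_le_mul hfK h.tht_le (by positivity) hK0
        _ ≤ 1 / 16 := by linarith
    have h6 := abs_sub_abs_le_abs_sub (dot f (rv q)) (tht p q * dot f (rv p))
    rw [e]
    linarith
  have h5 : dot f P = lm p q P * dot f (qh p q) + dot f (P - lm p q P • qh p q) := by
    rw [dot_sub, dot_smul]; ring
  have h6 := dot_le f (P - lm p q P • qh p q)
  have h7 : |lm p q P * dot f (qh p q)| ≤ |dot f P| + |dot f (P - lm p q P • qh p q)| := by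
    have := abs_sub (dot f P) (dot f (P - lm p q P • qh p q))
    rw [h5] at this ⊢
    simp only [add_sub_cancel_right] at this
    exact this
  rw [abs_mul, abs_of_pos hl0] at h7
  have h8 : l1 f * ‖P - lm p q P • qh p q‖ ≤ K * (c1 * lm p q P + 2) :=
    mul_le_mul hfK h3 (norm_nonneg _) hK0
  have h9 : K * (c1 * lm p q P) ≤ 1 / 16 * lm p q P := by
    have := mul_le_mul_of_nonneg_right hc hl0.le
    nlinarith
  nlinarith

end Pool.Agent.K9h32.SM
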