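import Pool.Agent.K9h32.SM.Step1
import Pool.Agent.K9h32.SP.Step2

/-!
# Leaf STEP, second part: the growth in one stage
-/

set_option autoImplicit false

open Set Filter Topology
open scoped ContDiff NNReal

noncomputable section

namespace Pool.Agent.K9h32.SM

open Pool.Agent.N980.TL
open Pool.Agent.K9h32.SP (Sol bt Chi UHd growth_alg)

variable {n N : ℕ} [Lat n]

/-- the conclusion of `S_GATE` for one `δ` -/
def GateD (D : Trig n N) (k : ℕ) (B : ℝ → ℝ) (w0 : List (TA n)) (q : Fin n → ℤ) (𝓕 : List (Fin n → ℤ)) (δ : ℝ) : Prop :=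
  ∃ c C lam0 : ℝ, 0 < c ∧ 0 ≤ C ∧ 1 ≤ lam0 ∧ ∀ lam : ℝ, lam0 ≤ lam → ∀ P : E n, Reg 𝓕 lam P →
        0 < dot q P → dot q P ≤ 2 * lam * dot q (rv q) →
        ∀ (j : Fin 3) (x v : ℝ → E n), (∀ t ∈ Icc (0 : ℝ) (1 / 100), HasDerivAt x (v t) t ∧
          HasDerivAt v (gateF D q B δ j (x t) t) t) → v 0 = P + gw w0 (x 0) P 0 →
          1 / 4 ≤ (-1) ^ (k + 1) * Real.sin (2 * Real.pi * dot q (x 0) + 2 * Real.pi * ((j : ℕ) : ℝ) / 3 -
            (k + 2) * (Real.pi / 2)) →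
          ∃ (P' : E n) (κ : ℝ), c / lam ^ (k + 2) ≤ κ ∧ ‖P' - P - κ • rv q‖ ≤ C / lam ^ (k + 3) ∧ ‖P' - P‖ ≤ 1 ∧
            ‖v (1 / 100) - P' - gw w0 (x (1 / 100)) P' (1 / 100)‖ ≤ C / lam ^ (k + 3)

/-- the conclusion of `S_PASS` for one `A` -/
def PassD (D : Trig n N) (w0 : List (TA n)) (M : ℕ) (𝓕 : List (Fin n → ℤ)) (R : ℕ) (p : Fin n → ℤ) (A : ℝ → ℝ → ℝ)
    (T : ℝ) : Prop :=
  ∀ K : ℝ, ∃ C lam0 : ℝ, 0 ≤ C ∧ 1 ≤ lam0 ∧ ∀ lam : ℝ, lam0 ≤ lam → ∀ P : E n, Reg 𝓕 lam P →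
        (∀ f : Fin n → ℤ, f ≠ 0 → (∀ i, |f i| ≤ R) → lam / 2 ≤ |dot f P|) → |dot p P| ≤ K →
        ∀ x v : ℝ → E n, (∀ t ∈ Icc (1 / 100 : ℝ) T, HasDerivAt x (v t) t ∧
          HasDerivAt v (fun i => Dg D (x t) t i + deriv (fun u => A u t) (dot p (x t)) * rv p i) t) →
          (∀ᶠ z in 𝓝 (dot p (x (1 / 100)), (1 / 100 : ℝ)), A z.1 z.2 = 0) →
          (∀ᶠ z in 𝓝 (dot p (x T), T), A z.1 z.2 = 0) →
          ‖v (1 / 100) - P - gw w0 (x (1 / 100)) P (1 / 100)‖ ≤ K / lam ^ M →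
          ∃ ρ : ℝ, |ρ| ≤ C ∧ ‖v T - (P + ρ • rv p) - gw w0 (x T) (P + ρ • rv p) T‖ ≤ C / lam ^ M

theorem gw_per {w0 : List (TA n)} (hw : W0 w0) (x P : E n) (T : ℕ) : gw w0 x P T = gw w0 x P 0 := by
  induction T with
  | zero => simp
  | succ T ih =>
    push_cast
    rw [hw.2.2.2, ih]

/-- the growth in one stage -/
theorem grow {D : Trig n N} {w0 e0 : List (TA n)} {𝓕 : List (Fin n → ℤ)} {k : ℕ} {B : ℝ → ℝ} (hw : W0 w0)
    (hW : WE D w0 (k + 3) 𝓕 e0) (hB : BB k B) {p q : Fin n → ℤ} {η : ℝ} (hN : NO p q η)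
    (hF : ∀ f ∈ 𝓕, 1 ≤ |dot f (rv q)|) {R : ℕ}
    (hR : ∀ f : Fin n → ℤ, f ≠ 0 → (∀ i, |f i| ≤ R) → 1 ≤ |dot f (rv q)|) {δ : ℝ} (hG : GateD D k B w0 q 𝓕 δ)
    {A : ℝ → ℝ → ℝ} (hA : SP2 A)
    (hA0 : ∀ s t : ℝ, s ∈ Icc (1 / 4 : ℝ) (3 / 4) → t ∈ Icc (-(2 / 5) : ℝ) (2 / 5) → A s t = 0) {T : ℕ} (hT : 2 ≤ T)
    (hP : PassD D w0 (k + 3) 𝓕 R p (fun s t => A s t / dot p (rv p)) T) {c1 K1 : ℝ} (hc1 : 0 < c1)
    (hK1 : c1 * K1 ≤ 1 / 16) (hηK : η * K1 ≤ 1 / 16) (hK𝓕 : ∀ f ∈ 𝓕, l1 f ≤ K1) (hqK : l1 q ≤ K1)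
    (hKR : ∀ f : Fin n → ℤ, (∀ i, |f i| ≤ R) → l1 f ≤ K1) :
    ∃ lam0 c' : ℝ, 1 ≤ lam0 ∧ 0 < c' ∧ ∀ P : E n, lam0 ≤ lm p q P → ‖pj p (P - lm p q P • rv q)‖ ≤ c1 * lm p q P →
      |dot p P| ≤ 2 → ∀ (j : Fin 3) (x v : ℝ → E n) (m : ℤ), (∀ t ∈ Icc (0 : ℝ) T, HasDerivAt x (v t) t ∧
        HasDerivAt v (fun i => Dg D (x t) t i + (sF p A (x t) t + gq q B δ j (x t) t) i) t) →
        v 0 = P + gw w0 (x 0) P 0 →
        1 / 4 ≤ (-1) ^ (k + 1) * Real.sin (2 * Real.pi * dot q (x 0) + 2 * Real.pi * ((j : ℕ) : ℝ) / 3 -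
            (k + 2) * (Real.pi / 2)) →
        (∀ t ∈ Icc (0 : ℝ) (1 / 100), dot p (x t) - m ∈ Ioo (1 / 4 : ℝ) (3 / 4)) →
        dot p (x T) - (m + 1 : ℤ) ∈ Ioo (1 / 4 : ℝ) (3 / 4) →
        ∃ P'' : E n, v T = P'' + gw w0 (x T) P'' 0 ∧ (|dot p (v T)| ≤ 1 → |dot p P''| ≤ 2) ∧ 0 < lm p q P'' ∧
          lm p q P ^ (k + 3) + c' ≤ lm p q P'' ^ (k + 3) ∧ ‖pj p (P'' - lm p q P'' • rv q)‖ ≤ c1 * lm p q P'' := by
  have hK10 : 0 ≤ K1 := by
    have := hKR 0 (fun i => by simp)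
    exact (l1_nonneg _).trans this
  obtain ⟨c, Cg, lamg, hc, hCg, hlamg, hgate⟩ := hG
  obtain ⟨K, hK⟩ : ∃ K, K = 2 + l1 p + Cg := ⟨_, rfl⟩
  have hl1p := l1_nonneg p
  have hl1q := l1_nonneg q
  obtain ⟨Cp, lamp, hCp, hlamp, hpass⟩ := hP K
  have hT1 : (2 : ℝ) ≤ T := by exact_mod_cast hT
  obtain ⟨lame, hlame, hexa⟩ := exa hw hW T
  have hp := hN.hp
  have hpp := pp_pos hN.hp
  have hqq := pp_pos hN.hq
  have hD0 := hN.D0_ge
  have hD1 := hN.D0_le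
  obtain ⟨E0, hE0⟩ : ∃ E0, E0 = Cg + 2 * Cp := ⟨_, rfl⟩
  have hE00 : 0 ≤ E0 := by rw [hE0]; positivity
  obtain ⟨Cw, hCw, hgw⟩ := gw_bounds hw hW T
  obtain ⟨W, hW0⟩ : ∃ W, W = (2 * (l1 q + l1 p) * ((1 + l1 p) * ‖rv q‖) + 1 + l1 p) * E0 := ⟨_, rfl⟩
  have hW00 : 0 ≤ W := by rw [hW0]; positivity
  obtain ⟨E1, hE1⟩ : ∃ E1, E1 = 2 * (l1 q + l1 p) * E0 := ⟨_, rfl⟩
  have hE10 : 0 ≤ E1 := by rw [hE1]; positivity
  obtain ⟨lam0, hlam0⟩ : ∃ lam0, lam0 = lamg + lamp + 2 * lame + 16 * K1 + 4 * (K1 * (Cp * ‖rv p‖)) + 2 * Cp + 2 * E1 / c +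
    2 * W / (c * c1) + 4 * (l1 p * Cw) + 4 := ⟨_, rfl⟩
  have t4 : 0 ≤ l1 p * Cw := by positivity
  have t1 : 0 ≤ K1 * (Cp * ‖rv p‖) := by positivity
  have t2 : 0 ≤ 2 * E1 / c := by positivity
  have t3 : 0 ≤ 2 * W / (c * c1) := by positivity
  refine ⟨lam0, c / 2, by linarith, by positivity, fun P hPl hP1 hP2 j x v m hode hv0 hph hx1 hx2 => ?_⟩
  obtain ⟨l, hl⟩ : ∃ l, l = lm p q P := ⟨_, rfl⟩
  rw [← hl] at hPl ⊢
  have hl1 : 1 ≤ l := by linarith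
  have hl0 : 0 < l := by linarith
  have hl00 : 0 < lm p q P := by rw [← hl]; exact hl0
  have hinv : ∀ C : ℝ, 0 ≤ C → C / l ^ (k + 3) ≤ C / l := fun C hC => by
    refine div_le_div_of_nonneg_left hC hl0 ?_
    calc l = l ^ 1 := (pow_one l).symm
      _ ≤ _ := pow_le_pow_right₀ hl1 (by omega)
  -- regularity of `P`
  have hbig𝓕 : ∀ f ∈ 𝓕, 3 / 4 * l ≤ |dot f P| := fun f hf => by
    rw [hl]
    exact hN.dot_big hP1 hP2 hK10 hK1 hηK hl00 (by rw [← hl]; linarith) (hF f hf) (hK𝓕 f hf)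
  have hbigR : ∀ f : Fin n → ℤ, f ≠ 0 → (∀ i, |f i| ≤ R) → 3 / 4 * l ≤ |dot f P| := fun f hf hfR => by
    rw [hl]
    exact hN.dot_big hP1 hP2 hK10 hK1 hηK hl00 (by rw [← hl]; linarith) (hR f hf hfR) (hKR f hfR)
  have hRegP : Reg 𝓕 l P := fun f hf => by linarith [hbig𝓕 f hf]
  -- the gate
  have hdq : |dot q P - l * D0 p q| ≤ l1 q * (c1 * l + 2) := by
    have e : dot q P - l * D0 p q = dot q (P - l • qh p q) := by
      rw [dot_sub, dot_smul, dot_q_qh]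
    rw [e]
    refine (dot_le _ _).trans (mul_le_mul_of_nonneg_left ?_ hl1q)
    rw [hl]
    exact hN.dev_le hP1 hP2
  have hdq2 : l1 q * (c1 * l + 2) ≤ 3 / 16 * l := by
    have h1 : l1 q * (c1 * l + 2) ≤ K1 * (c1 * l + 2) := mul_le_mul_of_nonneg_right hqK (by positivity)
    have h2 : K1 * (c1 * l) ≤ 1 / 16 * l := by
      have := mul_le_mul_of_nonneg_right hK1 hl0.le
      nlinarith
    have h3 : 16 * K1 ≤ l := by linarith
    linarith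
  obtain ⟨hdq3, hdq4⟩ := abs_le.1 (hdq.trans hdq2)
  have hlD : l * (1 / 2) ≤ l * D0 p q := mul_le_mul_of_nonneg_left hD0 hl0.le
  have hlD2 : l * D0 p q ≤ l * dot q (rv q) := mul_le_mul_of_nonneg_left hD1 hl0.le
  have hlD3 : l * 1 ≤ l * dot q (rv q) := mul_le_mul_of_nonneg_left hqq hl0.le
  have hsub1 : Icc (0 : ℝ) (1 / 100) ⊆ Icc (0 : ℝ) T := Icc_subset_Icc_right (by linarith)
  obtain ⟨P', κ, hκ, hP', hP'1, hv1⟩ := hgate l (by linarith) P hRegP (by linarith)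
    (by linarith) j x v (fun t ht => by
      refine ⟨(hode t (hsub1 ht)).1, ?_⟩
      refine (hode t (hsub1 ht)).2.congr_deriv ?_
      have e0 : sF p A (x t) t = 0 := sF_zero (A_zero' hA hA0 m 0 (hx1 t ht)
        ⟨by simp only [Int.cast_zero, sub_zero]; linarith [ht.1], by
          simp only [Int.cast_zero, sub_zero]; linarith [ht.2]⟩)
      funext i
      rw [e0, zero_add]
      simp only [gateF, gq, Pi.smul_apply, smul_eq_mul, rv]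
      ring) hv0 hph
  -- the passage
  have hnearP : ∀ f : Fin n → ℤ, l1 f ≤ K1 → 3 / 4 * l ≤ |dot f P| → l / 2 ≤ |dot f P'| := by
    intro f hf1 hf2
    have h2 := dot_le f (P' - P)
    rw [dot_sub] at h2
    have h3 : |dot f P| ≤ |dot f P'| + |dot f P' - dot f P| := by
      have := abs_sub_abs_le_abs_sub (dot f P) (dot f P')
      rw [abs_sub_comm (dot f P') (dot f P)]
      linarith
    have h4 : l1 f * ‖P' - P‖ ≤ K1 * 1 := mul_le_mul hf1 hP'1 (norm_nonneg _) hK10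
    linarith
  have hRegP' : Reg 𝓕 l P' := fun f hf => hnearP f (hK𝓕 f hf) (hbig𝓕 f hf)
  have hpP' : |dot p P'| ≤ K := by
    have h2 := dot_le p (P' - P)
    have h3 : dot p P' = dot p P + dot p (P' - P) := by rw [dot_sub]; ring
    rw [h3]
    refine (abs_add_le _ _).trans ?_
    have h4 : l1 p * ‖P' - P‖ ≤ l1 p * 1 := mul_le_mul_of_nonneg_left hP'1 hl1p
    rw [hK]; linarith
  have hsub2 : Icc (1 / 100 : ℝ) T ⊆ Icc (0 : ℝ) T := Icc_subset_Icc_left (by norm_num)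
  have hx100 := hx1 (1 / 100) ⟨by norm_num, le_refl _⟩
  obtain ⟨σ, hσ, hvT⟩ := hpass l (by linarith) P' hRegP'
    (fun f hf hfR => hnearP f (hKR f hfR) (hbigR f hf hfR)) hpP' x v (fun t ht => by
      refine ⟨(hode t (hsub2 ht)).1, ?_⟩
      refine (hode t (hsub2 ht)).2.congr_deriv ?_
      have e0 : gq q B δ j (x t) t = 0 := by
        unfold gq
        rw [hB.2.2.2 t ht.1]
        simp
      funext i
      rw [e0, add_zero]
      have e1 : deriv (fun u => A u t / dot p (rv p)) (dot p (x t)) = ds A (dot p (x t)) t / dot p (rv p) :=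
        ((ds_hasDeriv hA.1 (dot p (x t)) t).div_const _).deriv
      simp only [sF, Pi.smul_apply, smul_eq_mul, rv]
      rw [e1])
    (by
      filter_upwards [A_zero hA hA0 m 0 hx100 ⟨by simp only [Int.cast_zero, sub_zero]; norm_num, by
          simp only [Int.cast_zero, sub_zero]; norm_num⟩] with z hz
      rw [hz, zero_div])
    (by
      filter_upwards [A_zero (t := (T : ℝ)) hA hA0 (m + 1) (T : ℤ) hx2 ⟨by
          simp only [Int.cast_natCast, sub_self]; norm_num, by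
          simp only [Int.cast_natCast, sub_self]; norm_num⟩] with z hz
      rw [hz, zero_div])
    (hv1.trans (div_le_div_of_nonneg_right (by rw [hK]; linarith) (by positivity)))
  -- the exact velocity
  obtain ⟨Pm, hPm⟩ : ∃ Pm, Pm = P' + σ • rv p := ⟨_, rfl⟩
  rw [← hPm] at hvT
  have hRegPm : Reg 𝓕 (l / 2) Pm := by
    refine Reg.near (r := Cp * ‖rv p‖) hK𝓕 hRegP' ?_ ?_
    · rw [hPm, add_sub_cancel_left, norm_smul, Real.norm_eq_abs]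
      exact mul_le_mul_of_nonneg_right hσ (norm_nonneg _)
    · linarith
  have hηs : Cp / l ^ (k + 3) ≤ 1 / 2 := by
    refine (hinv Cp hCp).trans ?_
    rw [div_le_iff₀ hl0]
    linarith
  obtain ⟨P'', hv'', hP''⟩ := hexa (l / 2) (by linarith) Pm hRegPm (x T) (v T) T (Cp / l ^ (k + 3))
    ⟨by positivity, le_refl _⟩ (by positivity) hηs hvT
  rw [gw_per hw] at hv''
  -- the error
  obtain ⟨er, her⟩ : ∃ er, er = P'' - P - κ • rv q - σ • rv p := ⟨_, rfl⟩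
  have hern : ‖er‖ ≤ E0 / l ^ (k + 3) := by
    have e : er = (P' - P - κ • rv q) + (P'' - Pm) := by rw [her, hPm]; abel
    rw [e]
    refine (norm_add_le _ _).trans ?_
    rw [hE0, add_div, mul_div_assoc]
    linarith
  have hP''e : P'' = P + κ • rv q + σ • rv p + er := by rw [her]; abel
  have hlm : lm p q P'' = l + κ + lm p q er := by
    rw [hP''e, lm_add, lm_add, lm_add, lm_smul, lm_smul, hN.lm_q, hN.lm_p, ← hl]
    ring
  have herq : |lm p q er| ≤ E1 / l ^ (k + 3) := by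
    refine (hN.lm_abs er).trans ?_
    rw [hE1, mul_div_assoc]
    exact mul_le_mul_of_nonneg_left hern (by positivity)
  obtain ⟨g1, g2, g3⟩ := growth_alg (k := k) (l := l) (l' := lm p q P'') hl1 hc hE10 hc1 hW00 (by
    rw [hlm]
    have := neg_abs_le (lm p q er)
    linarith) (by linarith) (by linarith)
  have hdot : |dot p (v T)| ≤ 1 → |dot p P''| ≤ 2 := by
    intro h1
    have hReg'' : Reg 𝓕 (l / 2 / 2) P'' := by
      refine Reg.near (r := 1) hK𝓕 hRegPm (hP''.trans (by linarith)) (by linarith)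
    have h2 := (hgw (l / 2 / 2) (by linarith) P'' hReg'' 0 ⟨le_refl _, by linarith⟩).1 (x T)
    have h3 : dot p P'' = dot p (v T) - dot p (gw w0 (x T) P'' 0) := by
      rw [hv'', dot_add]; ring
    have h4 : l1 p * ‖gw w0 (x T) P'' 0‖ ≤ 1 := by
      calc l1 p * ‖gw w0 (x T) P'' 0‖ ≤ l1 p * (Cw / (l / 2 / 2)) := mul_le_mul_of_nonneg_left h2 hl1p
        _ = 4 * (l1 p * Cw) / l := by field_simp; ring
        _ ≤ 1 := by rw [div_le_one hl0]; linarith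
    have h5 := dot_le p (gw w0 (x T) P'' 0)
    rw [h3]
    refine (abs_sub _ _).trans ?_
    linarith
  refine ⟨P'', hv'', hdot, g1, g2, ?_⟩
  have e1 : pj p (P'' - lm p q P'' • rv q) = pj p (P - l • rv q) + (-(lm p q er)) • pj p (rv q) + pj p er := by
    have e2 : P'' - lm p q P'' • rv q = (P - l • rv q) + (-(lm p q er)) • rv q + er + σ • rv p := by
      rw [hlm]
      nth_rewrite 1 [hP''e]
      rw [add_smul, add_smul, neg_smul]
      abel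
    have e3 : pj p ((-(lm p q er)) • rv q) = (-(lm p q er)) • pj p (rv q) := by
      unfold pj
      rw [dot_smul, smul_sub, smul_smul, mul_div_assoc]
    rw [e2, pj_add, pj_add, pj_add, pj_smul_p hp, e3, add_zero]
  rw [e1]
  refine (norm_add₃_le).trans ?_
  rw [norm_smul, Real.norm_eq_abs, abs_neg]
  have h1 := pj_norm hp er
  have h0 := pj_norm hp (rv q)
  have h2 : |lm p q er| * ‖pj p (rv q)‖ ≤ E1 / l ^ (k + 3) * ((1 + l1 p) * ‖rv q‖) :=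
    mul_le_mul herq h0 (norm_nonneg _) (by positivity)
  have h3 : (1 + l1 p) * ‖er‖ ≤ (1 + l1 p) * (E0 / l ^ (k + 3)) := mul_le_mul_of_nonneg_left hern (by linarith)
  have h4 : W / l ^ (k + 3) = E1 / l ^ (k + 3) * ((1 + l1 p) * ‖rv q‖) + (1 + l1 p) * (E0 / l ^ (k + 3)) := by
    rw [hW0, hE1]; ring
  rw [← hl] at hP1
  linarith

end Pool.Agent.K9h32.SM
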