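import Pool.Agent.K9h32.SM.Step2
import Pool.Agent.K9h32.SP.Step3

/-!
# Leaf STEP, third part: the initial states, the cones
-/

set_option autoImplicit false

open Set Filter Topology
open scoped ContDiff NNReal

noncomputable section

namespace Pool.Agent.K9h32.SM

open Pool.Agent.N980.TL

variable {n N : ℕ} [Lat n]

/-- the initial states -/
theorem initial {D : Trig n N} {w0 e0 : List (TA n)} {𝓕 : List (Fin n → ℤ)} {k : ℕ} (hw : W0 w0)
    (hW : WE D w0 (k + 3) 𝓕 e0) {p q : Fin n → ℤ} {η : ℝ} (hN : NO p q η)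
    (hF : ∀ f ∈ 𝓕, 1 ≤ |dot f (rv q)|) {c1 K1 : ℝ} (hc1 : 0 < c1) (hK1 : c1 * K1 ≤ 1 / 16) (hηK : η * K1 ≤ 1 / 16)
    (hK10 : 0 ≤ K1)
    (hK𝓕 : ∀ f ∈ 𝓕, l1 f ≤ K1) {T : ℕ} {sg mu κ κf a b : ℝ} (hsg : 0 < sg) (hsg1 : sg ≤ 1 / 100) (hmu : 0 < mu)
    (hκ : 0 < κ) (hκf : 0 < κf) (hab : a ≤ b) :
    ∃ lam0 : ℝ, 1 ≤ lam0 ∧ ∀ lam : ℝ, lam0 ≤ lam → ∃ x v : ℝ → E n, Continuous x ∧ Continuous v ∧
      Inv k p q w0 sg mu κ a b κf T c1 0 (lam ^ (k + 3)) x v a b := by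
  obtain ⟨Cg, hCg, hgw⟩ := gw_bounds hw hW 1
  have hp := hN.hp
  have hpp := pp_pos hN.hp
  have hqq := pp_pos hN.hq
  have hl1p := l1_nonneg p
  have hT0 : (0 : ℝ) ≤ T := Nat.cast_nonneg T
  obtain ⟨lam0, hlam0⟩ : ∃ lam0, lam0 = 1 + 16 * K1 + l1 p * Cg / mu + l1 p * Cg / κ + T * ((1 + l1 p) * Cg) / κf :=
    ⟨_, rfl⟩
  have t1 : 0 ≤ l1 p * Cg / mu := by positivity
  have t2 : 0 ≤ l1 p * Cg / κ := by positivity
  have t3 : 0 ≤ T * ((1 + l1 p) * Cg) / κf := by positivity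
  refine ⟨lam0, by linarith, fun lam hlam => ?_⟩
  have hlam1 : 1 ≤ lam := by linarith
  have hl0 : 0 < lam := by linarith
  have hdiv : ∀ C m : ℝ, 0 < m → C / m ≤ lam → C / lam ≤ m := fun C m hm h => by
    rw [div_le_iff₀ hl0]
    rw [div_le_iff₀ hm] at h
    linarith
  obtain ⟨P, hP⟩ : ∃ P : E n, P = lam • rv q + (sg / dot p (rv p) - lam * tht p q) • rv p := ⟨_, rfl⟩
  have hlm : lm p q P = lam := by
    rw [hP, lm_add, lm_smul, lm_smul, hN.lm_q, hN.lm_p]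
    ring
  have hdp : dot p P = sg := by
    rw [hP, dot_add, dot_smul, dot_smul]
    unfold tht
    field_simp
    ring
  have hpjP : pj p (P - lm p q P • rv q) = 0 := by
    rw [hlm, hP, add_sub_cancel_left, pj_smul_p hp]
  have hReg : Reg 𝓕 lam P := by
    intro f hf
    have := hN.dot_big (P := P) (c1 := c1) (K := K1) (f := f)
      (by rw [hpjP, norm_zero, hlm]; positivity) (by rw [hdp, abs_of_pos hsg]; linarith) hK10 hK1 hηK
      (by rw [hlm]; exact hl0) (by rw [hlm]; linarith) (hF f hf) (hK𝓕 f hf)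
    rw [hlm] at this
    linarith
  obtain ⟨g1, g2⟩ := hgw lam hlam1 P hReg 0 ⟨le_refl _, zero_le_one⟩
  obtain ⟨x, hx⟩ : ∃ x : ℝ → E n, x = fun τ => (τ / dot p (rv p)) • rv p := ⟨_, rfl⟩
  have hxd : ∀ τ, dot p (x τ) = τ := by
    intro τ
    rw [hx]
    show dot p ((τ / dot p (rv p)) • rv p) = τ
    rw [dot_smul]
    field_simp
  have hxc : Continuous x := by rw [hx]; fun_prop
  have hxs : ∀ τ τ', x τ' - x τ = ((τ' - τ) / dot p (rv p)) • rv p := by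
    intro τ τ'
    rw [hx]
    show (τ' / dot p (rv p)) • rv p - (τ / dot p (rv p)) • rv p = _
    rw [← sub_smul, sub_div]
  have hxn : ∀ τ τ', ‖x τ' - x τ‖ ≤ |τ' - τ| := by
    intro τ τ'
    rw [hxs, norm_smul, Real.norm_eq_abs, abs_div, abs_of_pos (by linarith : 0 < dot p (rv p))]
    calc |τ' - τ| / dot p (rv p) * ‖rv p‖ ≤ |τ' - τ| / dot p (rv p) * dot p (rv p) :=
          mul_le_mul_of_nonneg_left (norm_rv_le hp) (by positivity)
      _ = |τ' - τ| := by field_simp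
  have hgc : Continuous fun y : E n => gw w0 y P 0 := by
    refine LipschitzWith.continuous (K := ⟨Cg / lam, by positivity⟩) (LipschitzWith.of_dist_le_mul fun y z => ?_)
    rw [dist_eq_norm, dist_eq_norm]
    exact g2 y z
  refine ⟨x, fun τ => P + gw w0 (x τ) P 0, hxc, continuous_const.add (hgc.comp hxc), ?_⟩
  have hdv : ∀ τ τ' : ℝ, P + gw w0 (x τ') P 0 - (P + gw w0 (x τ) P 0) = gw w0 (x τ') P 0 - gw w0 (x τ) P 0 :=
    fun τ τ' => by abel
  have hdvn : ∀ τ τ', ‖gw w0 (x τ') P 0 - gw w0 (x τ) P 0‖ ≤ Cg / lam * |τ' - τ| := fun τ τ' =>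
    (g2 (x τ') (x τ)).trans (mul_le_mul_of_nonneg_left (hxn τ τ') (by positivity))
  refine ⟨hab, by rw [hxd]; simp, by rw [hxd]; simp, fun τ hτ => by rw [hxd]; simpa using hτ, fun τ hτ => ?_,
    fun τ hτ τ' hτ' => ⟨?_, ?_⟩, fun τ hτ => ⟨P, rfl, by rw [hdp, abs_of_pos hsg]; linarith, by rw [hlm]; exact hl0, by rw [hlm], by
      rw [hpjP, norm_zero, hlm]; positivity⟩⟩
  · show |dot p (P + gw w0 (x τ) P 0) - sg| ≤ mu
    rw [dot_add, hdp, add_sub_cancel_left]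
    refine (dot_le p _).trans ?_
    calc l1 p * ‖gw w0 (x τ) P 0‖ ≤ l1 p * (Cg / lam) := mul_le_mul_of_nonneg_left (g1 _) hl1p
      _ = l1 p * Cg / lam := by ring
      _ ≤ mu := hdiv _ _ hmu (by linarith)
  · show |dot p (P + gw w0 (x τ') P 0 - (P + gw w0 (x τ) P 0))| ≤ κ * |dot p (x τ' - x τ)|
    rw [hdv, dot_sub p (x τ') (x τ), hxd, hxd]
    refine (dot_le p _).trans ?_
    calc l1 p * ‖gw w0 (x τ') P 0 - gw w0 (x τ) P 0‖ ≤ l1 p * (Cg / lam * |τ' - τ|) :=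
          mul_le_mul_of_nonneg_left (hdvn τ τ') hl1p
      _ = l1 p * Cg / lam * |τ' - τ| := by ring
      _ ≤ κ * |τ' - τ| := mul_le_mul_of_nonneg_right (hdiv _ _ hκ (by linarith)) (abs_nonneg _)
  · show max ‖pj p (x τ' - x τ)‖ (T * ‖pj p (P + gw w0 (x τ') P 0 - (P + gw w0 (x τ) P 0))‖) ≤
      κf * |dot p (x τ' - x τ)|
    rw [hdv, dot_sub p (x τ') (x τ), hxd, hxd]
    refine max_le ?_ ?_
    · rw [hxs, pj_smul_p hp, norm_zero]
      positivity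
    · calc (T : ℝ) * ‖pj p (gw w0 (x τ') P 0 - gw w0 (x τ) P 0)‖ ≤
            T * ((1 + l1 p) * (Cg / lam * |τ' - τ|)) := by
            refine mul_le_mul_of_nonneg_left ((pj_norm hp _).trans ?_) hT0
            exact mul_le_mul_of_nonneg_left (hdvn τ τ') (by linarith)
        _ = T * ((1 + l1 p) * Cg) / lam * |τ' - τ| := by ring
        _ ≤ κf * |τ' - τ| := mul_le_mul_of_nonneg_right (hdiv _ _ hκf (by linarith)) (abs_nonneg _)

end Pool.Agent.K9h32.SM
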