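import Pool.Agent.K9h32.SM.Step3
import Pool.Agent.K9h32.SP.Step4

/-!
# Leaf STEP, fourth part: one stage
-/

set_option autoImplicit false

open Set Filter Topology
open scoped ContDiff NNReal

noncomputable section

namespace Pool.Agent.K9h32.SM

open Pool.Agent.N980.TL
open Pool.Agent.K9h32.SP (Sol bt Chi UHd sol_exists subint three_phase eta_le cone_alg coef_bdd)

variable {n N : ℕ} [Lat n]

/-- the conclusion of `grow` -/
def GrowD (D : Trig n N) (k : ℕ) (B : ℝ → ℝ) (w0 : List (TA n)) (p q : Fin n → ℤ) (A : ℝ → ℝ → ℝ) (δ : ℝ) (T : ℕ)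
    (c1 lam0 c' : ℝ) : Prop :=
  ∀ P : E n, lam0 ≤ lm p q P → ‖pj p (P - lm p q P • rv q)‖ ≤ c1 * lm p q P →
      |dot p P| ≤ 2 → ∀ (j : Fin 3) (x v : ℝ → E n) (m : ℤ), (∀ t ∈ Icc (0 : ℝ) T, HasDerivAt x (v t) t ∧
        HasDerivAt v (fun i => Dg D (x t) t i + (sF p A (x t) t + gq q B δ j (x t) t) i) t) →
        v 0 = P + gw w0 (x 0) P 0 →
        1 / 4 ≤ (-1) ^ (k + 1) * Real.sin (2 * Real.pi * dot q (x 0) + 2 * Real.pi * ((j : ℕ) : ℝ) / 3 -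
            (k + 2) * (Real.pi / 2)) →
        (∀ t ∈ Icc (0 : ℝ) (1 / 100), dot p (x t) - m ∈ Ioo (1 / 4 : ℝ) (3 / 4)) →
        dot p (x T) - (m + 1 : ℤ) ∈ Ioo (1 / 4 : ℝ) (3 / 4) →
        ∃ P'' : E n, v T = P'' + gw w0 (x T) P'' 0 ∧ (|dot p (v T)| ≤ 1 → |dot p P''| ≤ 2) ∧ 0 < lm p q P'' ∧
          lm p q P ^ (k + 3) + c' ≤ lm p q P'' ^ (k + 3) ∧ ‖pj p (P'' - lm p q P'' • rv q)‖ ≤ c1 * lm p q P''

/-- one stage -/
theorem stage {D : Trig n N} {w0 e0 : List (TA n)} {𝓕 : List (Fin n → ℤ)} {k : ℕ} {B : ℝ → ℝ} (hw : W0 w0)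
    (hW : WE D w0 (k + 3) 𝓕 e0) (hB : BB k B) {p q : Fin n → ℤ} {η : ℝ} (hN : NO p q η)
    (hF : ∀ f ∈ 𝓕, 1 ≤ |dot f (rv q)|) {c1 K1 : ℝ} (hc1 : 0 < c1) (hK1 : c1 * K1 ≤ 1 / 16) (hηK : η * K1 ≤ 1 / 16)
    (hK10 : 0 ≤ K1)
    (hK𝓕 : ∀ f ∈ 𝓕, l1 f ≤ K1) {ε : ℝ} {A : ℝ → ℝ → ℝ} {χ : Fin 3 → ℝ → ℝ} {T : ℕ} {sg mu κ ρ a b : ℝ}
    {aj bj : Fin 3 → ℝ} {G : Set (ℝ × ℝ)} (hU : UHd k ε A χ T sg mu κ ρ a b aj bj G) {Cf : ℝ} (hCf : 0 ≤ Cf)
    (hgfc : ∀ x t, ‖gfc p q χ (bt B) x t‖ ≤ Cf) {κf : ℝ} (hκf0 : 0 < κf) (hκf1 : κf ≤ 1)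
    (hκf2 : 2 * Real.pi * (l1 q * κf) ≤ 1 / 4) (hη32 : η ≤ 1 / 32) {ηd : ℝ} (hηd : c1 + η ≤ ηd) :
    ∃ δ1 : ℝ, 0 < δ1 ∧ ∀ δ : ℝ, 0 < δ → δ ≤ δ1 → ∀ lamw c' : ℝ, 1 ≤ lamw → 0 < c' →
      GrowD D k B w0 p q A δ T c1 lamw c' → ∃ lam0 C : ℝ, lamw ≤ lam0 ∧ 0 ≤ C ∧
        Step k D p q w0 A χ (bt B) δ sg mu κ a b κf T c1 lam0 c' C ηd := by
  obtain ⟨hT, hsg, hsg1, hmu, hmu1, hκ, hκ1, hρ, hρ1, ha, hb, hab, hAs, hAp, -, hχs, hχp, hA0, hends, hpas,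
    hhyp⟩ := hU
  have hA : SP2 A := ⟨hAs, hAp⟩
  have hp := hN.hp
  have hT2 : (2 : ℝ) ≤ T := by exact_mod_cast hT
  have hT0 : (0 : ℝ) ≤ T := by linarith
  obtain ⟨CB, hCB, hBb⟩ := coef_bdd hB.1 0 T
  obtain ⟨Cc, hCc, hclose⟩ := close (by omega : 1 ≤ k + 3) hw hW hp hA T Cf hT0 hCf
  obtain ⟨Cp, hCp, hpair⟩ := pair (q := q) (by omega : 1 ≤ k + 3) hw hW hp hA T CB (by linarith) hCB B hBb
  obtain ⟨Cg, hCg, hgw⟩ := gw_bounds hw hW T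
  have hl1p := l1_nonneg p
  have hl1q := l1_nonneg q
  have hpi := Real.pi_pos
  have hB0 : B 0 = 0 := by
    have := hB.2.1 0 (Nat.zero_le _)
    rwa [iteratedDeriv_zero] at this
  obtain ⟨δ1, hδ1d⟩ : ∃ δ1, δ1 = min (min 1 (κf / (4 * (Cp + 1)))) (min (ρ / (4 * (Cc + 1))) (min (mu / (4 * (Cc + 1)))
    ((κ / 2) / (4 * (Cp + 1))))) := ⟨_, rfl⟩
  have hd1 : δ1 ≤ 1 := by rw [hδ1d]; exact (min_le_left _ _).trans (min_le_left _ _)
  have hd5 : δ1 ≤ κf / (4 * (Cp + 1)) := by rw [hδ1d]; exact (min_le_left _ _).trans (min_le_right _ _)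
  have hd2 : δ1 ≤ ρ / (4 * (Cc + 1)) := by
    rw [hδ1d]; exact (min_le_right _ _).trans (min_le_left _ _)
  have hd3 : δ1 ≤ mu / (4 * (Cc + 1)) := by
    rw [hδ1d]; exact (min_le_right _ _).trans ((min_le_right _ _).trans (min_le_left _ _))
  have hd4 : δ1 ≤ (κ / 2) / (4 * (Cp + 1)) := by
    rw [hδ1d]; exact (min_le_right _ _).trans ((min_le_right _ _).trans (min_le_right _ _))
  have hd0 : 0 < δ1 := by
    rw [hδ1d]
    exact lt_min (lt_min one_pos (by positivity)) (lt_min (by positivity) (lt_min (by positivity) (by positivity)))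
  refine ⟨δ1, hd0, fun δ hδ hδ1 lamw c' hlamw hc' hgrow => ?_⟩
  obtain ⟨lam0, hlam0⟩ : ∃ lam0, lam0 = lamw + 4 * Cc / ρ + 4 * Cc / mu + 4 * Cp / (κ / 2) + 4 * Cp / κf + 4 * Cg +
    l1 p * Cg + 16 * K1 := ⟨_, rfl⟩
  have t1 : 0 ≤ 4 * Cc / ρ := by positivity
  have t2 : 0 ≤ 4 * Cc / mu := by positivity
  have t3 : 0 ≤ 4 * Cp / (κ / 2) := by positivity
  have t4 : 0 ≤ 4 * Cp / κf := by positivity
  have t5 : 0 ≤ l1 p * Cg := by positivity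
  refine ⟨lam0, Cc + Cg + 2, by linarith, by linarith, fun m Λ hΛ X V α β hode hcont hinv => ?_⟩
  have hadm := hinv.adm
  choose! P hPv hPp hPl hPΛ hPj using hadm
  have hmem0 : (0 : ℝ) ∈ Icc (0 : ℝ) T := ⟨le_refl _, hT0⟩
  have hmemT : (T : ℝ) ∈ Icc (0 : ℝ) T := ⟨hT0, le_refl _⟩
  -- `λ` is large
  have hlam : ∀ τ ∈ Icc α β, lam0 ≤ lm p q (P τ) := fun τ hτ => by
    have h1 := hΛ.trans (hPΛ τ hτ)
    exact (pow_le_pow_iff_left₀ (by linarith) (hPl τ hτ).le (by omega)).1 h1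
  have hdiv : ∀ τ ∈ Icc α β, ∀ C r : ℝ, 0 < r → C / r ≤ lam0 → C / lm p q (P τ) ≤ r := fun τ hτ C r hr h => by
    have h1 := h.trans (hlam τ hτ)
    rw [div_le_iff₀ (hPl τ hτ)]
    rw [div_le_iff₀ hr] at h1
    linarith
  -- regular velocities
  have hReg : ∀ τ ∈ Icc α β, Reg 𝓕 (lm p q (P τ)) (P τ) := fun τ hτ f hf => by
    have := hN.dot_big (hPj τ hτ) (hPp τ hτ) hK10 hK1 hηK (hPl τ hτ) (by linarith [hlam τ hτ]) (hF f hf)
      (hK𝓕 f hf)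
    linarith [hPl τ hτ]
  have hgwn : ∀ τ ∈ Icc α β, ∀ t ∈ Icc (0 : ℝ) T, ∀ x, ‖gw w0 x (P τ) t‖ ≤ 1 / 4 ∧ ‖gw w0 x (P τ) t‖ ≤ Cg := by
    intro τ hτ t ht x
    have h1 := (hgw (lm p q (P τ)) (by linarith [hlam τ hτ]) (P τ) (hReg τ hτ) t ht).1 x
    refine ⟨h1.trans (hdiv τ hτ Cg (1 / 4) (by norm_num) ?_), h1.trans ?_⟩
    · rw [div_le_iff₀ (by norm_num)]; linarith
    · exact div_le_self hCg (by linarith [hlam τ hτ])
  -- the distances at the beginning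
  have hab' : b - a ≤ 1 / 4 := by linarith
  have hdist : ∀ τ ∈ Icc α β, ∀ τ' ∈ Icc α β, |dot p (X τ' 0 - X τ 0)| ≤ 1 / 4 := by
    intro τ hτ τ' hτ'
    obtain ⟨h1, h2⟩ := hinv.mem τ hτ
    obtain ⟨h3, h4⟩ := hinv.mem τ' hτ'
    rw [dot_sub, abs_le]
    constructor <;> linarith
  have hsum : ∀ τ ∈ Icc α β, ∀ τ' ∈ Icc α β, ‖X τ' 0 - X τ 0‖ ≤ 2 * |dot p (X τ' 0 - X τ 0)| ∧
      ‖V τ' 0 - V τ 0‖ ≤ 2 * |dot p (X τ' 0 - X τ 0)| := by
    intro τ hτ τ' hτ'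
    obtain ⟨h1, h2⟩ := hinv.cone τ hτ τ' hτ'
    have h3 := (le_max_left _ _).trans h2
    have h4 := (le_max_right _ _).trans h2
    have h5 := norm_le_pj hp (X τ' 0 - X τ 0)
    have h6 := norm_le_pj hp (V τ' 0 - V τ 0)
    have h7 := abs_nonneg (dot p (X τ' 0 - X τ 0))
    have h8 : κf * |dot p (X τ' 0 - X τ 0)| ≤ 1 * |dot p (X τ' 0 - X τ 0)| := mul_le_mul_of_nonneg_right hκf1 h7
    have h9 : κ * |dot p (X τ' 0 - X τ 0)| ≤ 1 * |dot p (X τ' 0 - X τ 0)| := mul_le_mul_of_nonneg_right hκ1 h7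
    have h10 : 1 * ‖pj p (V τ' 0 - V τ 0)‖ ≤ T * ‖pj p (V τ' 0 - V τ 0)‖ :=
      mul_le_mul_of_nonneg_right (by linarith) (norm_nonneg _)
    constructor <;> linarith
  have hVP : ∀ τ ∈ Icc α β, ∀ τ' ∈ Icc α β, ‖V τ' 0 - P τ‖ ≤ 1 := by
    intro τ hτ τ' hτ'
    have e : V τ' 0 - P τ = (V τ' 0 - V τ 0) + gw w0 (X τ 0) (P τ) 0 := by rw [hPv τ hτ]; abel
    rw [e]
    refine (norm_add_le _ _).trans ?_
    linarith [(hsum τ hτ τ' hτ').2, hdist τ hτ τ' hτ', (hgwn τ hτ 0 hmem0 (X τ 0)).1]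
  -- the slow orbits
  have hsol := fun τ => sol_exists hA (dot p (X τ 0) - m) (dot p (V τ 0))
  choose z w hzw hz0 hw0 using hsol
  have hη1 : ∀ τ ∈ Icc α β, Cc * (δ + 1 / lm p q (P τ)) ≤ ρ / 2 := fun τ hτ =>
    eta_le hCc hρ (by linarith [hlam τ hτ]) (hδ1.trans hd2) (by linarith [hlam τ hτ])
  have hη2 : ∀ τ ∈ Icc α β, Cc * (δ + 1 / lm p q (P τ)) ≤ mu / 2 := fun τ hτ =>
    eta_le hCc hmu (by linarith [hlam τ hτ]) (hδ1.trans hd3) (by linarith [hlam τ hτ])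
  have hη3 : ∀ τ ∈ Icc α β, Cp * (δ + 1 / lm p q (P τ)) ≤ κ / 2 / 2 := fun τ hτ =>
    eta_le hCp (by positivity) (by linarith [hlam τ hτ]) (hδ1.trans hd4) (by linarith [hlam τ hτ])
  have hη4 : ∀ τ ∈ Icc α β, Cp * (δ + 1 / lm p q (P τ)) ≤ κf / 2 := fun τ hτ =>
    eta_le hCp hκf0 (by linarith [hlam τ hτ]) (hδ1.trans hd5) (by linarith [hlam τ hτ])
  have hcl : ∀ τ ∈ Icc α β, ∀ t ∈ Icc (0 : ℝ) T, |dot p (X τ t) - (z τ t + m)| ≤ ρ / 2 ∧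
      |dot p (V τ t) - w τ t| ≤ mu / 2 ∧ ‖(V τ t - gw w0 (X τ t) (P τ) t) - P τ‖ ≤ Cc := by
    intro τ hτ t ht
    obtain ⟨h1, h2, h3⟩ := hclose (lm p q (P τ)) (by linarith [hlam τ hτ]) (P τ) (hReg τ hτ) δ hδ.le
      (hδ1.trans hd1) (X τ) (V τ) (fun t => δ • gfc p q χ (bt B) (X τ t) t)
      (fun t ht => ⟨(hode τ hτ t ht).1, (hode τ hτ t ht).2, by
        rw [norm_smul, Real.norm_eq_abs, abs_of_pos hδ, mul_comm]
        exact mul_le_mul_of_nonneg_right (hgfc _ _) hδ.le⟩) (hVP τ hτ τ hτ) (fun t => z τ t + m) (w τ)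
      (SP.Sol.shift hA (hzw τ) m) (by simp only [hz0]; ring) (hw0 τ) t ht
    exact ⟨h1.trans (hη1 τ hτ), h2.trans (hη2 τ hτ), h3⟩
  -- the gate
  obtain ⟨j, hj⟩ := three_phase (2 * Real.pi * dot q (X α 0) - (k + 2) * (Real.pi / 2)) ((-1) ^ (k + 1))
    (neg_one_pow_eq_or ℝ (k + 1))
  have hαmem : α ∈ Icc α β := ⟨le_refl _, hinv.le⟩
  have hph : ∀ τ ∈ Icc α β, 1 / 4 ≤ (-1) ^ (k + 1) * Real.sin (2 * Real.pi * dot q (X τ 0) +
      2 * Real.pi * ((j : ℕ) : ℝ) / 3 - (k + 2) * (Real.pi / 2)) := by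
    intro τ hτ
    obtain ⟨u, hu⟩ : ∃ u, u = 2 * Real.pi * dot q (X α 0) - (k + 2) * (Real.pi / 2) +
      2 * Real.pi * ((j : ℕ) : ℝ) / 3 := ⟨_, rfl⟩
    obtain ⟨u', hu'⟩ : ∃ u', u' = 2 * Real.pi * dot q (X τ 0) + 2 * Real.pi * ((j : ℕ) : ℝ) / 3 -
      (k + 2) * (Real.pi / 2) := ⟨_, rfl⟩
    rw [← hu] at hj
    rw [← hu']
    have h1 : |(-1 : ℝ) ^ (k + 1) * Real.sin u' - (-1) ^ (k + 1) * Real.sin u| ≤ |u' - u| := by
      rw [← mul_sub, abs_mul, abs_neg_one_pow, one_mul]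
      exact Real.abs_sin_sub_sin_le _ _
    have h2 : |u' - u| ≤ 1 / 4 := by
      have e : u' - u = 2 * Real.pi * (dot q (pj p (X τ 0 - X α 0)) + tht p q * dot p (X τ 0 - X α 0)) := by
        rw [hu, hu', ← dot_pj, dot_sub]; ring
      rw [e, abs_mul, abs_of_pos (by positivity : (0 : ℝ) < 2 * Real.pi)]
      have h3 := dot_le q (pj p (X τ 0 - X α 0))
      have h4 := (le_max_left _ _).trans (hinv.cone α hαmem τ hτ).2
      have h5 : κf * |dot p (X τ 0 - X α 0)| ≤ κf * (1 / 4) :=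
        mul_le_mul_of_nonneg_left (hdist α hαmem τ hτ) hκf0.le
      have h6 : |tht p q * dot p (X τ 0 - X α 0)| ≤ 1 / 32 * (1 / 4) := by
        rw [abs_mul]
        exact mul_le_mul (hN.tht_le'.trans hη32) (hdist α hαmem τ hτ) (abs_nonneg _) (by norm_num)
      have h7 : |dot q (pj p (X τ 0 - X α 0))| ≤ l1 q * (κf * (1 / 4)) :=
        h3.trans (mul_le_mul_of_nonneg_left (by linarith) hl1q)
      calc 2 * Real.pi * |dot q (pj p (X τ 0 - X α 0)) + tht p q * dot p (X τ 0 - X α 0)| ≤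
            2 * Real.pi * (l1 q * (κf * (1 / 4)) + 1 / 32 * (1 / 4)) := by
            refine mul_le_mul_of_nonneg_left ((abs_add_le _ _).trans (add_le_add h7 h6)) (by positivity)
        _ = 1 / 4 * (2 * Real.pi * (l1 q * κf)) + Real.pi / 64 := by ring
        _ ≤ 1 / 4 := by linarith [Real.pi_lt_four]
    have h3 := (abs_le.1 (h1.trans h2)).1
    linarith
  -- the first subinterval
  have hXc : ∀ t ∈ Icc (0 : ℝ) T, ContinuousOn (fun τ => dot p (X τ t)) (Icc α β) := by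
    intro t ht
    have h1 := (hcont t ht).1
    unfold dot
    refine continuousOn_finset_sum _ fun i _ => continuousOn_const.mul ?_
    exact (continuousOn_pi.1 h1) i
  have hVc : ∀ t ∈ Icc (0 : ℝ) T, ContinuousOn (fun τ => dot p (V τ t)) (Icc α β) := by
    intro t ht
    have h1 := (hcont t ht).2
    unfold dot
    refine continuousOn_finset_sum _ fun i _ => continuousOn_const.mul ?_
    exact (continuousOn_pi.1 h1) i
  obtain ⟨haj, hajbj, hbj⟩ := hab j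
  obtain ⟨τ1, τ2, h1, h12, h2, hf1, hf2, hf⟩ := subint (f := fun τ => dot p (X τ 0) - m) (c := aj j) (d := bj j)
    hinv.le ((hXc 0 hmem0).sub continuousOn_const) (by
      show dot p (X α 0) - m ≤ _
      rw [hinv.left]; linarith) hajbj.le (by
      show _ ≤ dot p (X β 0) - m
      rw [hinv.right]; linarith)
  have hs12 : Icc τ1 τ2 ⊆ Icc α β := Icc_subset_Icc h1 h2
  have hz0' : ∀ τ, z τ 0 = dot p (X τ 0) - m := hz0
  have hzmem : ∀ τ ∈ Icc τ1 τ2, z τ 0 ∈ Icc (aj j) (bj j) ∧ |w τ 0 - sg| ≤ mu := fun τ hτ =>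
    ⟨by rw [hz0']; exact hf τ hτ, by rw [hw0]; exact hinv.vel τ (hs12 hτ)⟩
  obtain ⟨τ', τ'', h3, h34, h4, hzT', hzT'', hG⟩ := hends j z w τ1 τ2 h12 (fun τ _ => hzw τ)
    (by
      simp only [hz0]
      exact (((hXc 0 hmem0).mono hs12).sub continuousOn_const))
    (by
      simp only [hw0]
      exact (hVc 0 hmem0).mono hs12)
    (by rw [hz0']; exact hf1) (by rw [hz0']; exact hf2) hzmem
  have hs34 : Icc τ' τ'' ⊆ Icc τ1 τ2 := Icc_subset_Icc h3 h4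
  have hs34' : Icc τ' τ'' ⊆ Icc α β := hs34.trans hs12
  -- the second subinterval
  obtain ⟨α', β', h5, h56, h6, hg1, hg2, hg⟩ := subint (f := fun τ => dot p (X τ T)) (c := a + (m + 1))
    (d := b + (m + 1)) h34 ((hXc T hmemT).mono hs34') (by
      have := (abs_le.1 (hcl τ' (hs34' ⟨le_refl _, h34⟩) T hmemT).1).2
      show dot p (X τ' T) ≤ _
      linarith) (by linarith) (by
      have := (abs_le.1 (hcl τ'' (hs34' ⟨h34, le_refl _⟩) T hmemT).1).1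
      show _ ≤ dot p (X τ'' T)
      linarith)
  have hs56 : Icc α' β' ⊆ Icc τ' τ'' := Icc_subset_Icc h5 h6
  have hs56' : Icc α' β' ⊆ Icc α β := hs56.trans hs34'
  -- the passages
  have hpas' := fun τ (hτ : τ ∈ Icc τ' τ'') => hpas j (z τ) (w τ) (hzw τ) (hzmem τ (hs34 hτ)).1
    (hzmem τ (hs34 hτ)).2 (hG τ hτ).1 (hG τ hτ).2
  have hgate : ∀ τ ∈ Icc τ' τ'', ∀ t ∈ Icc (0 : ℝ) T,
      δ • gfc p q χ (bt B) (X τ t) t = gq q B δ j (X τ t) t := fun τ hτ =>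
    gates_eq hρ hχp hB0 hB.2.2.2 (hpas' τ hτ).2.2.1 (hpas' τ hτ).2.2.2
      (fun t ht => (hcl τ (hs34' hτ) t ht).1) δ
  have hode' : ∀ τ ∈ Icc τ' τ'', ∀ t ∈ Icc (0 : ℝ) T, HasDerivAt (X τ) (V τ t) t ∧
      HasDerivAt (V τ) (fun i => Dg D (X τ t) t i + (sF p A (X τ t) t + gq q B δ j (X τ t) t) i) t := by
    intro τ hτ t ht
    refine ⟨(hode τ (hs34' hτ) t ht).1, ?_⟩
    have h7 := (hode τ (hs34' hτ) t ht).2
    unfold Frc at h7
    rw [hgate τ hτ t ht] at h7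
    exact h7
  have hVT : ∀ τ ∈ Icc τ' τ'', |dot p (V τ T) - sg| ≤ mu := by
    intro τ hτ
    have h7 := (hcl τ (hs34' hτ) T hmemT).2.1
    have h8 := (hpas' τ hτ).1
    have e : dot p (V τ T) - sg = (dot p (V τ T) - w τ T) + (w τ T - sg) := by ring
    rw [e]
    refine (abs_add_le _ _).trans ?_
    linarith
  refine ⟨α', β', hs56' ⟨le_refl _, h56⟩ |>.1, hs56' ⟨h56, le_refl _⟩ |>.2, ?_, ?_⟩
  · refine ⟨h56, ?_, ?_, ?_, ?_, ?_, ?_⟩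
    · push_cast
      exact hg1
    · push_cast
      exact hg2
    · push_cast
      exact hg
    · exact fun τ hτ => hVT τ (hs56 hτ)
    · -- the cones
      intro τ hτ τ' hτ'
      have hτa := hs56' hτ
      have hτa' := hs56' hτ'
      obtain ⟨hp1, hp2, hp3⟩ := hpair (lm p q (P τ)) (by linarith [hlam τ hτa]) (P τ) (hReg τ hτa) δ hδ.le
        (hδ1.trans hd1) j (X τ) (V τ) (X τ') (V τ') (hode' τ (hs56 hτ)) (hode' τ' (hs56 hτ')) (hVP τ hτa τ hτa)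
        (hVP τ hτa τ' hτa') (fun t => z τ t + m) (w τ) (fun t => z τ' t + m) (w τ')
        (SP.Sol.shift hA (hzw τ) m) (SP.Sol.shift hA (hzw τ') m) (by simp only [hz0]; ring) (hw0 τ)
        (by simp only [hz0]; ring) (hw0 τ')
      obtain ⟨hc1', hc2'⟩ := hinv.cone τ hτa τ' hτa'
      have hzz : dot p (X τ' 0 - X τ 0) = z τ' 0 - z τ 0 := by rw [hz0, hz0, dot_sub]; ring
      have hww : dot p (V τ' 0 - V τ 0) = w τ' 0 - w τ 0 := by rw [hw0, hw0, dot_sub]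
      obtain ⟨hh1, hh2⟩ := hhyp j (z τ) (w τ) (z τ') (w τ') (hzw τ) (hzw τ')
        (hzmem τ (hs34 (hs56 hτ))).1 (hzmem τ (hs34 (hs56 hτ))).2 (hG τ (hs56 hτ)).1 (hG τ (hs56 hτ)).2
        (hzmem τ' (hs34 (hs56 hτ'))).1 (hzmem τ' (hs34 (hs56 hτ'))).2 (hG τ' (hs56 hτ')).1 (hG τ' (hs56 hτ')).2
        (by rw [← hzz, ← hww]; exact hc1')
      rw [← hzz] at hh1
      have hS := hsum τ hτa τ' hτa'
      have hp2' : |dot p (X τ' T - X τ T) - (z τ' T - z τ T)| ≤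
          Cp * (δ + 1 / lm p q (P τ)) * (‖X τ' 0 - X τ 0‖ + ‖V τ' 0 - V τ 0‖) := by
        have e : z τ' T - z τ T = z τ' T + m - (z τ T + m) := by ring
        rw [e]
        exact hp2
      have hpos : 0 < lm p q (P τ) := hPl τ hτa
      exact cone_alg (abs_nonneg (dot p (X τ' 0 - X τ 0))) hc2' (by linarith [hS.1, hS.2]) (by positivity)
        (by positivity) hκ1 hp1 hp2' hp3 hh1 hh2 (by linarith [hη3 τ hτa])
        (by linarith [hη4 τ hτa])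
    · -- the velocity
      intro τ hτ
      have hτa := hs56' hτ
      have hcl' : ∀ t ∈ Icc (0 : ℝ) (1 / 100), dot p (X τ t) - m ∈ Ioo (1 / 4 : ℝ) (3 / 4) := by
        intro t ht
        have h7 := (hcl τ hτa t ⟨ht.1, by linarith [ht.2]⟩).1
        obtain ⟨h8, h9⟩ := (hpas' τ (hs56 hτ)).2.1 t ⟨ht.1, by linarith [ht.2]⟩
        rw [abs_le] at h7
        constructor <;> linarith [h7.1, h7.2]
      obtain ⟨P'', e1, e2, e3, e4, e5⟩ := hgrow (P τ) (by linarith [hlam τ hτa]) (hPj τ hτa) (hPp τ hτa) j (X τ) (V τ) m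
        (hode' τ (hs56 hτ)) (hPv τ hτa) (hph τ hτa) hcl' (by
          obtain ⟨h7, h8⟩ := hg τ hτ
          push_cast
          constructor <;> linarith)
      refine ⟨P'', e1, e2 ?_, e3, ?_, e5⟩
      · have h7 := hVT τ (hs56 hτ)
        rw [abs_le] at h7 ⊢
        constructor <;> linarith [h7.1, h7.2]
      · linarith [hPΛ τ hτa]
  · -- the norm of the velocity
    intro τ hτ t ht
    have hτa := hs56' hτ
    refine ⟨lm p q (P τ), hPl τ hτa, hPΛ τ hτa, ?_⟩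
    have h7 := (hcl τ hτa t ht).2.2
    have h8 := (hgwn τ hτa t ht (X τ t)).2
    have h9 := hN.dev_le (hPj τ hτa) (hPp τ hτa)
    have h11 : ‖lm p q (P τ) • (qh p q - rv q)‖ ≤ η * lm p q (P τ) := by
      have e : qh p q - rv q = -(tht p q) • rv p := by
        unfold qh
        rw [neg_smul]
        abel
      rw [e, norm_smul, norm_smul, Real.norm_eq_abs, Real.norm_eq_abs, abs_of_pos (hPl τ hτa), abs_neg]
      have := mul_le_mul_of_nonneg_left hN.tht_le (hPl τ hτa).le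
      linarith
    have e : V τ t - lm p q (P τ) • rv q = (V τ t - gw w0 (X τ t) (P τ) t - P τ) + gw w0 (X τ t) (P τ) t +
        (P τ - lm p q (P τ) • qh p q) + lm p q (P τ) • (qh p q - rv q) := by
      rw [smul_sub]
      abel
    rw [e]
    refine (norm_add_le _ _).trans ((add_le_add_left ((norm_add₃_le).trans (add_le_add_left (add_le_add h7 h8) _)) _).trans ?_)
    have h12 := mul_le_mul_of_nonneg_right hηd (hPl τ hτa).le
    linarith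

end Pool.Agent.K9h32.SM
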