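import Pool.Agent.K9h32.SM.Pert3
import Pool.Agent.K9h32.SP.StmA

/-!
# `C^k`-density for every `k`, all flat metrics: the last leaves (statements)
-/

set_option autoImplicit false

open Set Filter Topology
open scoped ContDiff

noncomputable section

namespace Pool.Agent.K9h32.SM

open Pool.Agent.N980.TL
open Pool.Agent.K9h32.SP (Sol bt Chi UHd S_UH2 S_GLOB S_TIM)

/-- the phase of the gate number `j` -/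
def phs {n : ℕ} [Lat n] (q : Fin n → ℤ) (j : Fin 3) (x : E n) : ℝ :=
  2 * Real.pi * dot q x + 2 * Real.pi * ((j : ℕ) : ℝ) / 3

/-- the force of the gates -/
def gfc {n : ℕ} [Lat n] (p q : Fin n → ℤ) (χ : Fin 3 → ℝ → ℝ) (b : ℝ → ℝ) (x : E n) (t : ℝ) : E n :=
  (b t * ∑ j : Fin 3, deriv (χ j) (dot p x) * Real.cos (phs q j x)) • rv p -
    (b t * ∑ j : Fin 3, χ j (dot p x) * (2 * Real.pi * Real.sin (phs q j x))) • rv q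

/-- the force -/
def Frc {n N : ℕ} [Lat n] (D : Trig n N) (p q : Fin n → ℤ) (A : ℝ → ℝ → ℝ) (χ : Fin 3 → ℝ → ℝ) (b : ℝ → ℝ) (δ : ℝ)
    (x : E n) (t : ℝ) : E n :=
  (fun i => Dg D x t i) + (sF p A x t + δ • gfc p q χ b x t)

/-- the constant `|p|² / |rv p|²` -/
def cp {n : ℕ} [Lat n] (p : Fin n → ℤ) : ℝ := SP.dot p (SP.rv p) / dot p (rv p)

/-- Leaf FRC: the force in the coordinates `y = M x` (from `SP.FRC.t`); `F = SP.prt p q (cp p • A) χ b δ` is the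
perturbation in the coordinates `x` -/
def S_FRC : Prop :=
  ∀ (n N : ℕ) [Lat n] (D : Trig n N) (p q : Fin n → ℤ) (A : ℝ → ℝ → ℝ) (χ : Fin 3 → ℝ → ℝ) (b : ℝ → ℝ),
    1 ≤ ‖rv p‖ → SP2 A → Chi χ → ContDiff ℝ 1 b → (∀ (t : ℝ) (l : ℤ), b (t + l) = b t) →
    (∃ C : ℝ, 0 ≤ C ∧ ∀ x t, ‖gfc p q χ b x t‖ ≤ C) ∧ ∀ δ : ℝ,
      (∀ (y : E n) (t : ℝ) (i : Fin n), ∑ l, Lat.W l i * gr (fun x t => D.val x t +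
        SP.prt p q (fun s t => cp p * A s t) χ b δ x t) (tox y) t l = Frc D p q A χ b δ y t i) ∧
      Continuous (fun z : E n × ℝ => Frc D p q A χ b δ z.1 z.2) ∧
      (∃ C : ℝ, 0 ≤ C ∧ ∀ x t, ‖Frc D p q A χ b δ x t‖ ≤ C) ∧
      (∃ L : ℝ, 0 ≤ L ∧ ∀ x y t, ‖Frc D p q A χ b δ x t - Frc D p q A χ b δ y t‖ ≤ L * ‖x - y‖) ∧
      (∀ (x : E n) (t : ℝ) (l : ℤ), Frc D p q A χ b δ x (t + l) = Frc D p q A χ b δ x t)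

/-- `λ(P)`, the coefficient of `rv q` modulo `rv p` -/
def lm {n : ℕ} [Lat n] (p q : Fin n → ℤ) (P : E n) : ℝ :=
  (dot q P - tht p q * dot p P) / (dot q (rv q) - tht p q * dot p (rv q))

/-- the state of a family of orbits (positions `x τ`, velocities `v τ`, `τ ∈ [α, β]`) at the beginning of
the stage number `m`; `Λ ≤ λ(P)^(k+3)` -/
structure Inv {n : ℕ} [Lat n] (k : ℕ) (p q : Fin n → ℤ) (w0 : List (TA n)) (sg mu κ a b κf T c1 : ℝ) (m : ℤ) (Λ : ℝ)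
    (x v : ℝ → E n) (α β : ℝ) : Prop where
  le : α ≤ β
  left : dot p (x α) = a + m
  right : dot p (x β) = b + m
  mem : ∀ τ ∈ Icc α β, dot p (x τ) ∈ Icc (a + m) (b + m)
  vel : ∀ τ ∈ Icc α β, |dot p (v τ) - sg| ≤ mu
  cone : ∀ τ ∈ Icc α β, ∀ τ' ∈ Icc α β, |dot p (v τ' - v τ)| ≤ κ * |dot p (x τ' - x τ)| ∧
    max ‖pj p (x τ' - x τ)‖ (T * ‖pj p (v τ' - v τ)‖) ≤ κf * |dot p (x τ' - x τ)|
  adm : ∀ τ ∈ Icc α β, ∃ P : E n, v τ = P + gw w0 (x τ) P 0 ∧ |dot p P| ≤ 2 ∧ 0 < lm p q P ∧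
    Λ ≤ lm p q P ^ (k + 3) ∧ ‖pj p (P - lm p q P • rv q)‖ ≤ c1 * lm p q P

/-- one stage -/
def Step {n N : ℕ} [Lat n] (k : ℕ) (D : Trig n N) (p q : Fin n → ℤ) (w0 : List (TA n)) (A : ℝ → ℝ → ℝ)
    (χ : Fin 3 → ℝ → ℝ) (b' : ℝ → ℝ) (δ : ℝ) (sg mu κ a b κf : ℝ) (T : ℕ) (c1 lam0 c' C η : ℝ) : Prop :=
  ∀ (m : ℤ) (Λ : ℝ), lam0 ^ (k + 3) ≤ Λ → ∀ (X V : ℝ → ℝ → E n) (α β : ℝ),
    (∀ τ ∈ Icc α β, ∀ t ∈ Icc (0 : ℝ) T, HasDerivAt (X τ) (V τ t) t ∧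
      HasDerivAt (V τ) (Frc D p q A χ b' δ (X τ t) t) t) →
    (∀ t ∈ Icc (0 : ℝ) T, ContinuousOn (fun τ => X τ t) (Icc α β) ∧ ContinuousOn (fun τ => V τ t) (Icc α β)) →
    Inv k p q w0 sg mu κ a b κf T c1 m Λ (fun τ => X τ 0) (fun τ => V τ 0) α β →
    ∃ α' β' : ℝ, α ≤ α' ∧ β' ≤ β ∧
      Inv k p q w0 sg mu κ a b κf T c1 (m + 1) (Λ + c') (fun τ => X τ T) (fun τ => V τ T) α' β' ∧
      ∀ τ ∈ Icc α' β', ∀ t ∈ Icc (0 : ℝ) T, ∃ l : ℝ, 0 < l ∧ Λ ≤ l ^ (k + 3) ∧ ‖V τ t - l • rv q‖ ≤ η * l + C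

/-- Leaf STEP: the initial states and the stages -/
def S_STEP : Prop :=
  ∀ (n N : ℕ) [Lat n] (D : Trig n N) (k : ℕ) (B : ℝ → ℝ), 2 ≤ n → BB k B → ∀ (u : E n), u ≠ 0 → ∀ η : ℝ, 0 < η →
    ∃ (p q : Fin n → ℤ) (w0 : List (TA n)), p ≠ 0 ∧ 1 ≤ ‖rv p‖ ∧ 1 ≤ ‖rv q‖ ∧
      ‖(‖rv q‖⁻¹) • rv q - (‖u‖⁻¹) • u‖ ≤ η ∧
    ∀ (ε : ℝ) (A : ℝ → ℝ → ℝ) (χ : Fin 3 → ℝ → ℝ) (T : ℕ) (sg mu κ ρ a b : ℝ) (aj bj : Fin 3 → ℝ)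
      (G : Set (ℝ × ℝ)), UHd k ε A χ T sg mu κ ρ a b aj bj G →
      (∃ C : ℝ, 0 ≤ C ∧ ∀ x t, ‖gfc p q χ (bt B) x t‖ ≤ C) → ∃ δ1 : ℝ, 0 < δ1 ∧ ∀ δ : ℝ, 0 < δ → δ ≤ δ1 →
      ∃ κf c1 lam0 c' C : ℝ, 1 ≤ lam0 ∧ 0 < c' ∧ 0 ≤ C ∧
        (∀ lam : ℝ, lam0 ≤ lam → ∃ x v : ℝ → E n, Continuous x ∧ Continuous v ∧
          Inv k p q w0 sg mu κ a b κf T c1 0 (lam ^ (k + 3)) x v a b) ∧
        Step k D p q w0 A χ (bt B) δ sg mu κ a b κf T c1 lam0 c' C η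

/-- the main statement for trigonometric polynomials, in the coordinates `x`; the inverse of the metric is `W W^T` -/
def MainS : Prop :=
  ∀ (n k : ℕ) [Lat n], 2 ≤ n → 2 ≤ k → ∀ (N : ℕ) (D : Trig n N) (u : E n), u ≠ 0 → ∀ (ε R η : ℝ), 0 < ε → 0 < η →
    ∃ (F : Z n → ℝ) (γ γ' : ℝ → E n) (c : ℝ), 0 < c ∧ ContDiff ℝ k F ∧ Periodic (fun x t => F (x, t)) ∧
      (∀ i ≤ k, ∀ q, ‖iteratedFDeriv ℝ i F q‖ ≤ ε) ∧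
      (∀ t, 0 ≤ t → R ≤ ‖γ' t‖ ∧ c * t ^ (1 / ((k : ℝ) + 3)) ≤ ‖γ' t‖ ∧
        ‖(‖γ' t‖⁻¹) • γ' t - (‖u‖⁻¹) • u‖ ≤ η) ∧
      ∀ t, HasDerivAt γ (γ' t) t ∧ HasDerivAt γ' (fun i => ∑ j, (∑ l, Lat.W i l * Lat.W j l) *
        gr (fun x t => D.val x t + F (x, t)) (γ t) t j) t

/-- Leaf ITER: the nested intervals, growth, direction; the change of coordinates `x = W y`; `SP.PRT.t` for
`cp p • A` -/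
def S_ITER : Prop := S_UH2 → S_FRC → S_STEP → MainS

/-- Leaf FIN: the assembly; `B` is positive definite, `B = M^T M` -/
def S_FIN : Prop :=
  MainS → ∀ (n k : ℕ), 2 ≤ n → 2 ≤ k → ∀ (B : Matrix (Fin n) (Fin n) ℝ), B.PosDef → ∀ (R : ℝ)
    (L : (Fin n → ℝ) → (Fin n → ℝ) → ℝ → ℝ) (f₀ : (Fin n → ℝ) → ℝ → ℝ), HJ.PotK k f₀ →
    (∀ x v t, R ≤ ‖v‖ → L x v t = (∑ i, ∑ j, B i j * v i * v j) / 2 + f₀ x t) →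
    ∀ f₁ : (Fin n → ℝ) → ℝ → ℝ, HJ.PotK k f₁ → ∀ u : Fin n → ℝ, u ≠ 0 → ∀ ε : ℝ, 0 < ε →
    ∃ (f : (Fin n → ℝ) → ℝ → ℝ) (γ : ℝ → Fin n → ℝ) (c : ℝ), HJ.PotK k f ∧ HJ.CloseK k ε f₁ f ∧ 0 < c ∧
      (∀ t, 0 ≤ t → c * t ^ (1 / ((k : ℝ) + 3)) ≤ ‖deriv γ t‖) ∧ (∀ t, 0 ≤ t → R < ‖deriv γ t‖) ∧
      (∀ t, 0 ≤ t → ‖(‖deriv γ t‖⁻¹) • deriv γ t - (‖u‖⁻¹) • u‖ ≤ ε) ∧
      ∀ t, 0 < t → EulerLagrange (fun x v t => L x v t + f x t) γ t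

end Pool.Agent.K9h32.SM
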